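import Mathlib

set_option autoImplicit false

/-!
# Structured stack programs compiled to Mathlib's `TM2` machines

`Prog V ι` : programs over bit stacks named by `V`, which may call machines named by `ι`.
`Run` : big-step semantics with a step bound.  `Run.reach` : the compiled machine follows it.
-/

namespace Pool.Agent.Helper22

open Turing Function

/-! ## Bounded reachability -/

/-- `Reach f n a b`: from `a` exactly `n` steps of `f` lead to `b`. -/
inductive Reach {σ : Type} (f : σ → Option σ) : ℕ → σ → σ → Prop
  | refl (a : σ) : Reach f 0 a a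
  | step {n : ℕ} {a b c : σ} : f a = some b → Reach f n b c → Reach f (n + 1) a c

theorem Reach.trans {σ : Type} {f : σ → Option σ} {m n : ℕ} {a b c : σ}
    (h : Reach f m a b) (h' : Reach f n b c) : Reach f (m + n) a c := by
  induction h with
  | refl a => simpa using h'
  | step hs _ ih =>
    have := Reach.step hs (ih h')
    rwa [Nat.add_right_comm] at this

theorem Reach.single {σ : Type} {f : σ → Option σ} {a b : σ} (h : f a = some b) :
    Reach f 1 a b := Reach.step h (Reach.refl b)

theorem reach_iff {σ : Type} {f : σ → Option σ} {n : ℕ} {a b : σ} :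
    Reach f n a b ↔ (flip bind f)^[n] (some a) = some b := by
  constructor
  · intro h
    induction h with
    | refl a => rfl
    | step hs _ ih =>
      rw [Function.iterate_succ_apply]
      simpa [flip, hs] using ih
  · induction n generalizing a with
    | zero =>
      intro h
      simp at h
      subst h
      exact Reach.refl _
    | succ n ih =>
      intro h
      rw [Function.iterate_succ_apply] at h
      cases hfa : f a with
      | none =>
        exfalso
        have h0 : ∀ k : ℕ, (flip bind f)^[k] (none : Option σ) = none := by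
          intro k
          induction k with
          | zero => rfl
          | succ k ihk => rw [Function.iterate_succ_apply]; simpa [flip] using ihk
        have : flip bind f (some a) = none := by simp [flip, hfa]
        rw [this, h0] at h
        cases h
      | some a' =>
        have : flip bind f (some a) = some a' := by simp [flip, hfa]
        rw [this] at h
        exact Reach.step hfa (ih h)

/-! ## Programs and their semantics -/

/-- Programs over bit stacks indexed by `V`, with calls to machines indexed by `ι`. -/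
inductive Prog (V ι : Type) : Type
  | skip : Prog V ι
  | push (v : V) (b : Bool) : Prog V ι
  | pop (v : V) : Prog V ι
  | seq (p q : Prog V ι) : Prog V ι
  | case (v : V) (pn pf pt : Prog V ι) : Prog V ι
  | loop (c : Option Bool → Bool) (v : V) (p : Prog V ι) : Prog V ι
  | call (i : ι) (a b : V) : Prog V ι

/-- Big-step semantics, with a bound on the running time. -/
inductive Run {V ι : Type} [DecidableEq V] (R : ι → List Bool → List Bool → Prop) (C : ℕ → ℕ) :
    Prog V ι → (V → List Bool) → (V → List Bool) → ℕ → Prop
  | skip (S : V → List Bool) : Run R C .skip S S 1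
  | push (v : V) (b : Bool) (S : V → List Bool) :
      Run R C (.push v b) S (update S v (b :: S v)) 1
  | pop (v : V) (S : V → List Bool) : Run R C (.pop v) S (update S v (S v).tail) 1
  | seq {p q : Prog V ι} {S S' S'' : V → List Bool} {t t' : ℕ} :
      Run R C p S S' t → Run R C q S' S'' t' → Run R C (.seq p q) S S'' (t + t')
  | caseN {v : V} {pn pf pt : Prog V ι} {S S' : V → List Bool} {t : ℕ} :
      S v = [] → Run R C pn S S' t → Run R C (.case v pn pf pt) S S' (t + 1)
  | caseF {v : V} {pn pf pt : Prog V ι} {S S' : V → List Bool} {t : ℕ} {l : List Bool} :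
      S v = false :: l → Run R C pf S S' t → Run R C (.case v pn pf pt) S S' (t + 1)
  | caseT {v : V} {pn pf pt : Prog V ι} {S S' : V → List Bool} {t : ℕ} {l : List Bool} :
      S v = true :: l → Run R C pt S S' t → Run R C (.case v pn pf pt) S S' (t + 1)
  | loopStop {c : Option Bool → Bool} {v : V} {p : Prog V ι} {S : V → List Bool} :
      c (S v).head? = false → Run R C (.loop c v p) S S 1
  | loopStep {c : Option Bool → Bool} {v : V} {p : Prog V ι} {S S' S'' : V → List Bool}
      {t t' : ℕ} :
      c (S v).head? = true → Run R C p S S' t → Run R C (.loop c v p) S' S'' t' →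
      Run R C (.loop c v p) S S'' (t + t' + 1)
  | call {i : ι} {a b : V} {S : V → List Bool} {y : List Bool} :
      R i (S a).reverse y →
      Run R C (.call i a b) S (update (update S a []) b (y.reverse ++ (update S a []) b))
        ((S a).length + C (S a).length + y.length + 2)

/-! ## Compilation -/

section compile

variable {V ι : Type} [DecidableEq V] [DecidableEq ι] (M : ι → TM2ComputableAux Bool Bool)

/-- stack alphabets of the compiled machine -/
abbrev GG : V ⊕ (Σ i : ι, (M i).tm.K) → Type
  | .inl _ => Bool
  | .inr ik => (M ik.1).tm.Γ ik.2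

/-- local state of the compiled machine -/
abbrev SS := Option Bool × (∀ i : ι, (M i).tm.σ)

/-- initial local states of the called machines -/
def sig0 : ∀ i : ι, (M i).tm.σ := fun i => (M i).tm.initialState

/-- translation of the code of the `i`-th machine -/
def liftStmt (i : ι) {Λ : Type} (emb : (M i).tm.Λ → Λ) (ret : Λ) :
    TM2.Stmt (M i).tm.Γ (M i).tm.Λ (M i).tm.σ → TM2.Stmt (GG (V := V) M) Λ (SS M)
  | .push k f q => .push (.inr ⟨i, k⟩) (fun s => f (s.2 i)) (liftStmt i emb ret q)
  | .peek k f q => .peek (.inr ⟨i, k⟩) (fun s o => (s.1, update s.2 i (f (s.2 i) o)))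
      (liftStmt i emb ret q)
  | .pop k f q => .pop (.inr ⟨i, k⟩) (fun s o => (s.1, update s.2 i (f (s.2 i) o)))
      (liftStmt i emb ret q)
  | .load f q => .load (fun s => (s.1, update s.2 i (f (s.2 i)))) (liftStmt i emb ret q)
  | .branch f q₁ q₂ => .branch (fun s => f (s.2 i)) (liftStmt i emb ret q₁)
      (liftStmt i emb ret q₂)
  | .goto f => .goto (fun s => emb (f (s.2 i)))
  | .halt => .goto (fun _ => ret)

/-- the stacks of the compiled machine, from the program's stacks and the private ones -/
def stkV (S : V → List Bool) (T : ∀ ik : (Σ i : ι, (M i).tm.K), List ((M ik.1).tm.Γ ik.2)) :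
    ∀ k, List (GG (V := V) M k)
  | .inl v => S v
  | .inr ik => T ik

/-- private stacks in which only machine `i` has nonempty stacks -/
def embT (i : ι) (stk : ∀ k, List ((M i).tm.Γ k)) :
    ∀ ik : (Σ i : ι, (M i).tm.K), List ((M ik.1).tm.Γ ik.2)
  | ⟨j, k⟩ => if h : i = j then by subst h; exact stk k else []

variable {M}

@[simp] theorem embT_self (i : ι) (stk : ∀ k, List ((M i).tm.Γ k)) (k : (M i).tm.K) :
    embT M i stk ⟨i, k⟩ = stk k := by simp [embT]

theorem update_embT (i : ι) (stk : ∀ k, List ((M i).tm.Γ k)) (k : (M i).tm.K)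
    (x : List ((M i).tm.Γ k)) :
    update (embT M i stk) ⟨i, k⟩ x = embT M i (update stk k x) := by
  funext ⟨j, k'⟩
  by_cases hij : i = j
  · subst hij
    by_cases hk : k' = k
    · subst hk; simp
    · rw [update_of_ne (by intro h; exact hk (by simpa using h))]
      simp [hk]
  · rw [update_of_ne (by rintro h; exact hij (by simpa using (congrArg Sigma.fst h).symm))]
    simp [embT, hij]

theorem update_stkV_inl (S : V → List Bool)
    (T : ∀ ik : (Σ i : ι, (M i).tm.K), List ((M ik.1).tm.Γ ik.2)) (v : V) (x : List Bool) :
    update (stkV M S T) (.inl v) x = stkV M (update S v x) T := by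
  funext k
  rcases k with v' | ik
  · by_cases h : v' = v
    · subst h; simp [stkV]
    · rw [update_of_ne (by intro h'; exact h (by simpa using h'))]
      simp [stkV, h]
  · rw [update_of_ne (by simp)]
    simp [stkV]

theorem update_stkV_inr (S : V → List Bool)
    (T : ∀ ik : (Σ i : ι, (M i).tm.K), List ((M ik.1).tm.Γ ik.2)) (ik : Σ i : ι, (M i).tm.K)
    (x : List ((M ik.1).tm.Γ ik.2)) :
    update (stkV M S T) (.inr ik) x = stkV M S (update T ik x) := by
  funext k
  rcases k with v' | jk
  · rw [update_of_ne (by simp)]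
    simp [stkV]
  · by_cases h : jk = ik
    · subst h; simp [stkV]
    · rw [update_of_ne (by intro h'; exact h (by simpa using h'))]
      simp [stkV, h]

theorem update_stkV_embT (S : V → List Bool) (i : ι) (stk : ∀ k, List ((M i).tm.Γ k))
    (k : (M i).tm.K) (x : List ((M i).tm.Γ k)) :
    update (stkV M S (embT M i stk)) (.inr ⟨i, k⟩) x = stkV M S (embT M i (update stk k x)) := by
  have := update_stkV_inr (M := M) S (embT M i stk) ⟨i, k⟩ x
  rw [update_embT] at this
  exact this

/-- configuration of the compiled machine while machine `i` is running -/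
def emCfg (i : ι) {Λ : Type} (emb : (M i).tm.Λ → Λ) (ret : Λ) (S : V → List Bool)
    (c : TM2.Cfg (M i).tm.Γ (M i).tm.Λ (M i).tm.σ) : TM2.Cfg (GG (V := V) M) Λ (SS M) :=
  ⟨some ((c.l.map emb).getD ret), (none, update (sig0 M) i c.var), stkV M S (embT M i c.stk)⟩

theorem stepAux_liftStmt (i : ι) {Λ : Type} (emb : (M i).tm.Λ → Λ) (ret : Λ)
    (S : V → List Bool) (q : TM2.Stmt (M i).tm.Γ (M i).tm.Λ (M i).tm.σ) (v : (M i).tm.σ)
    (stk : ∀ k, List ((M i).tm.Γ k)) :
    TM2.stepAux (liftStmt M i emb ret q) (none, update (sig0 M) i v)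
      (stkV M S (embT M i stk)) = emCfg i emb ret S (TM2.stepAux q v stk) := by
  induction q generalizing v stk with
  | push k f q ih =>
    simp only [liftStmt, TM2.stepAux, update_self]
    rw [update_stkV_embT]
    simpa [stkV] using ih _ _
  | peek k f q ih =>
    simp only [liftStmt, TM2.stepAux, update_self]
    simpa [stkV] using ih _ _
  | pop k f q ih =>
    simp only [liftStmt, TM2.stepAux, update_self]
    rw [update_stkV_embT]
    simpa [stkV] using ih _ _
  | load f q ih =>
    simp only [liftStmt, TM2.stepAux, update_self]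
    simpa using ih _ _
  | branch f q₁ q₂ ih₁ ih₂ =>
    simp only [liftStmt, TM2.stepAux, update_self]
    cases f v
    · simpa using ih₂ _ _
    · simpa using ih₁ _ _
  | goto f => simp [liftStmt, TM2.stepAux, emCfg]
  | halt => simp [liftStmt, TM2.stepAux, emCfg]

theorem reach_lift (i : ι) {Λ : Type} (emb : (M i).tm.Λ → Λ) (ret : Λ) (S : V → List Bool)
    (m : Λ → TM2.Stmt (GG (V := V) M) Λ (SS M))
    (hm : ∀ l, m (emb l) = liftStmt M i emb ret ((M i).tm.m l)) {n : ℕ}
    {c c' : TM2.Cfg (M i).tm.Γ (M i).tm.Λ (M i).tm.σ}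
    (h : Reach (TM2.step (M i).tm.m) n c c') :
    Reach (TM2.step m) n (emCfg i emb ret S c) (emCfg i emb ret S c') := by
  induction h with
  | refl a => exact Reach.refl _
  | @step n a b c hs _ ih =>
    refine Reach.step ?_ ih
    obtain ⟨l, v, stk⟩ := a
    cases l with
    | none => simp at hs
    | some l =>
      simp only [TM2.step, Option.some.injEq] at hs
      subst hs
      simp only [emCfg, TM2.step, Option.map_some, Option.getD_some, hm, Option.some.injEq]
      rw [stepAux_liftStmt]
      rfl

variable (M)

/-- labels of the compiled program -/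
abbrev Lab : Prog V ι → Type
  | .skip => Unit
  | .push _ _ => Unit
  | .pop _ => Unit
  | .seq p q => Lab p ⊕ Lab q
  | .case _ p q r => Unit ⊕ (Lab p ⊕ (Lab q ⊕ Lab r))
  | .loop _ _ p => Unit ⊕ Lab p
  | .call i _ _ => Bool ⊕ (M i).tm.Λ

/-- finiteness of the set of labels -/
@[instance_reducible]
def labFintype : (p : Prog V ι) → Fintype (Lab M p)
  | .skip => inferInstanceAs (Fintype Unit)
  | .push _ _ => inferInstanceAs (Fintype Unit)
  | .pop _ => inferInstanceAs (Fintype Unit)
  | .seq p q =>
    let _ := labFintype p; let _ := labFintype q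
    inferInstanceAs (Fintype (Lab M p ⊕ Lab M q))
  | .case _ p q r =>
    let _ := labFintype p; let _ := labFintype q; let _ := labFintype r
    inferInstanceAs (Fintype (Unit ⊕ (Lab M p ⊕ (Lab M q ⊕ Lab M r))))
  | .loop _ _ p =>
    let _ := labFintype p
    inferInstanceAs (Fintype (Unit ⊕ Lab M p))
  | .call i _ _ =>
    let _ := (M i).tm.ΛFin
    inferInstanceAs (Fintype (Bool ⊕ (M i).tm.Λ))

/-- entry label of a program -/
def entry : (p : Prog V ι) → Lab M p
  | .skip => ()
  | .push _ _ => ()
  | .pop _ => ()
  | .seq p _ => Sum.inl (entry p)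
  | .case _ _ _ _ => Sum.inl ()
  | .loop _ _ _ => Sum.inl ()
  | .call _ _ _ => Sum.inl false

/-- go to a fixed label, after resetting the temporary bit -/
def jump {Λ : Type} (l : Λ) : TM2.Stmt (GG (V := V) M) Λ (SS M) :=
  .load (fun s => (none, s.2)) (.goto fun _ => l)

/-- code of the compiled program -/
def code {Λ : Type} : (p : Prog V ι) → (Lab M p → Λ) → Λ → Lab M p →
    TM2.Stmt (GG (V := V) M) Λ (SS M)
  | .skip, _, ex, _ => jump M ex
  | .push v b, _, ex, _ => .push (.inl v) (fun _ => b) (jump M ex)
  | .pop v, _, ex, _ => .pop (.inl v) (fun s _ => s) (jump M ex)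
  | .seq p q, emb, _, .inl l => code p (fun l => emb (.inl l)) (emb (.inr (entry M q))) l
  | .seq _ q, emb, ex, .inr l => code q (fun l => emb (.inr l)) ex l
  | .case v p q r, emb, _, .inl _ =>
      .peek (.inl v) (fun s o => (o, s.2))
        (.branch (fun s => s.1 = none) (jump M (emb (.inr (.inl (entry M p)))))
          (.branch (fun s => s.1 = some false) (jump M (emb (.inr (.inr (.inl (entry M q))))))
            (jump M (emb (.inr (.inr (.inr (entry M r))))))))
  | .case _ p _ _, emb, ex, .inr (.inl l) => code p (fun l => emb (.inr (.inl l))) ex l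
  | .case _ _ q _, emb, ex, .inr (.inr (.inl l)) =>
      code q (fun l => emb (.inr (.inr (.inl l)))) ex l
  | .case _ _ _ r, emb, ex, .inr (.inr (.inr l)) =>
      code r (fun l => emb (.inr (.inr (.inr l)))) ex l
  | .loop c v p, emb, ex, .inl _ =>
      .peek (.inl v) (fun s o => (o, s.2))
        (.branch (fun s => c s.1) (jump M (emb (.inr (entry M p)))) (jump M ex))
  | .loop _ _ p, emb, _, .inr l => code p (fun l => emb (.inr l)) (emb (.inl ())) l
  | .call i a _, emb, _, .inl false =>
      .pop (.inl a) (fun s o => (o, s.2))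
        (.branch (fun s => s.1.isSome)
          (.push (.inr ⟨i, (M i).tm.k₀⟩) (fun s => (M i).inputAlphabet.symm (s.1.getD false))
            (jump M (emb (.inl false))))
          (jump M (emb (.inr (M i).tm.main))))
  | .call i _ b, emb, ex, .inl true =>
      .pop (.inr ⟨i, (M i).tm.k₁⟩) (fun s o => (o.map (M i).outputAlphabet, s.2))
        (.branch (fun s => s.1.isSome)
          (.push (.inl b) (fun s => s.1.getD false)
            (jump M (emb (.inl true))))
          (jump M ex))
  | .call i _ _, emb, _, .inr l =>
      liftStmt M i (fun l => emb (.inr l)) (emb (.inl true)) ((M i).tm.m l)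

/-! ## Correctness of the compilation -/

/-- all private stacks empty -/
def T0 : ∀ ik : (Σ i : ι, (M i).tm.K), List ((M ik.1).tm.Γ ik.2) := fun _ => []

/-- configuration at label `l` between two instructions -/
def cfgAt {Λ : Type} (l : Λ) (S : V → List Bool) : TM2.Cfg (GG (V := V) M) Λ (SS M) :=
  ⟨some l, (none, sig0 M), stkV M S (T0 M)⟩

/-- What it means that the machines `M i` realise the relations `R i` with cost `C`. -/
def Realises (R : ι → List Bool → List Bool → Prop) (C : ℕ → ℕ) : Prop :=
  ∀ i x y, R i x y → ∃ n ≤ C x.length,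
    Reach (TM2.step (M i).tm.m) n (initList (M i).tm (x.map (M i).inputAlphabet.symm))
      (haltList (M i).tm (y.map (M i).outputAlphabet.symm))

variable {M}

theorem stepAux_jump {Λ : Type} (l : Λ) (o : Option Bool) (S : V → List Bool) :
    TM2.stepAux (jump M l) (o, sig0 M) (stkV M S (T0 M)) = cfgAt M l S := by
  simp [jump, cfgAt]

theorem embT_initList (i : ι) (x : List ((M i).tm.Γ (M i).tm.k₀)) :
    embT M i (initList (M i).tm x).stk = update (T0 M) ⟨i, (M i).tm.k₀⟩ x := by
  have h0 : T0 M = embT M i (fun _ => []) := by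
    funext ⟨j, k⟩
    by_cases hij : i = j
    · subst hij; simp [T0]
    · simp [T0, embT, hij]
  rw [h0, update_embT]
  congr 1
  funext k
  by_cases hk : k = (M i).tm.k₀
  · subst hk
    simp [initList]
  · simp [initList, hk]

theorem embT_haltList (i : ι) (x : List ((M i).tm.Γ (M i).tm.k₁)) :
    embT M i (haltList (M i).tm x).stk = update (T0 M) ⟨i, (M i).tm.k₁⟩ x := by
  have h0 : T0 M = embT M i (fun _ => []) := by
    funext ⟨j, k⟩
    by_cases hij : i = j
    · subst hij; simp [T0]
    · simp [T0, embT, hij]
  rw [h0, update_embT]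
  congr 1
  funext k
  by_cases hk : k = (M i).tm.k₁
  · subst hk
    simp [haltList]
  · simp [haltList, hk]

variable (M) in
/-- configuration at label `l`, with given private stacks -/
def cfgT {Λ : Type} (l : Λ) (S : V → List Bool)
    (T : ∀ ik : (Σ i : ι, (M i).tm.K), List ((M ik.1).tm.Γ ik.2)) :
    TM2.Cfg (GG (V := V) M) Λ (SS M) :=
  ⟨some l, (none, sig0 M), stkV M S T⟩

theorem T0_update (ik : Σ i : ι, (M i).tm.K) : update (T0 M) ik [] = T0 M := by
  rw [update_eq_self_iff]; rfl

theorem T0_update' (i : ι) (k : (M i).tm.K) :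
    update (T0 M) ⟨i, k⟩ ([] : List ((M i).tm.Γ k)) = T0 M := T0_update ⟨i, k⟩

theorem T0_apply (ik : Σ i : ι, (M i).tm.K) : T0 M ik = [] := rfl

theorem reach_copyIn {Λ : Type} {i : ι} {a b : V} (m : Λ → TM2.Stmt (GG (V := V) M) Λ (SS M))
    (emb : Lab M (.call i a b) → Λ) (ex : Λ)
    (hm : ∀ l, m (emb l) = code M (.call i a b) emb ex l)
    (x : List Bool) (z : List ((M i).tm.Γ (M i).tm.k₀)) (S : V → List Bool) (hS : S a = x) :
    Reach (TM2.step m) (x.length + 1)
      (cfgT M (emb (.inl false)) S (update (T0 M) ⟨i, (M i).tm.k₀⟩ z))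
      (cfgT M (emb (.inr (M i).tm.main)) (update S a [])
        (update (T0 M) ⟨i, (M i).tm.k₀⟩ (x.reverse.map (M i).inputAlphabet.symm ++ z))) := by
  induction x generalizing z S with
  | nil =>
    refine Reach.single ?_
    simp only [cfgT, TM2.step, hm, code, TM2.stepAux, stkV, hS, List.head?_nil,
      Option.isSome_none, cond_false, jump, List.tail_nil, update_stkV_inl, List.reverse_nil,
      List.map_nil, List.nil_append]
  | cons c x ih =>
    refine Reach.step ?_ (by
      have := ih ((M i).inputAlphabet.symm c :: z) (update S a x) (by simp)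
      simpa using this)
    simp only [cfgT, TM2.step, hm, code, TM2.stepAux, stkV, hS, List.head?_cons,
      Option.isSome_some, cond_true, jump, List.tail_cons, update_stkV_inl, Option.getD_some]
    rw [update_stkV_inr]
    simp

theorem reach_copyOut {Λ : Type} {i : ι} {a b : V} (m : Λ → TM2.Stmt (GG (V := V) M) Λ (SS M))
    (emb : Lab M (.call i a b) → Λ) (ex : Λ)
    (hm : ∀ l, m (emb l) = code M (.call i a b) emb ex l)
    (y : List Bool) (S : V → List Bool) :
    Reach (TM2.step m) (y.length + 1)
      (cfgT M (emb (.inl true)) S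
        (update (T0 M) ⟨i, (M i).tm.k₁⟩ (y.map (M i).outputAlphabet.symm)))
      (cfgT M ex (update S b (y.reverse ++ S b)) (T0 M)) := by
  induction y generalizing S with
  | nil =>
    refine Reach.single ?_
    simp only [cfgT, TM2.step, hm, code, TM2.stepAux, stkV, List.map_nil, T0_apply,
      List.head?_nil, Option.map_none, Option.isSome_none, cond_false, jump, List.tail_nil,
      List.reverse_nil, List.nil_append, update_eq_self, update_stkV_inr, T0_update']
  | cons c y ih =>
    refine Reach.step ?_ (by
      have := ih (update S b (c :: S b))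
      simpa using this)
    simp only [cfgT, TM2.step, hm, code, TM2.stepAux, stkV, List.map_cons, update_self,
      List.head?_cons, Option.map_some, Equiv.apply_symm_apply, Option.isSome_some, cond_true,
      jump, List.tail_cons, Option.getD_some]
    rw [update_stkV_inr, update_stkV_inl]
    simp [stkV]

theorem Run.reach {R : ι → List Bool → List Bool → Prop} {C : ℕ → ℕ} (hM : Realises M R C)
    {p : Prog V ι} {S S' : V → List Bool} {t : ℕ} (h : Run R C p S S' t) {Λ : Type}
    (m : Λ → TM2.Stmt (GG (V := V) M) Λ (SS M)) (emb : Lab M p → Λ) (ex : Λ)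
    (hm : ∀ l, m (emb l) = code M p emb ex l) :
    ∃ n ≤ t, Reach (TM2.step m) n (cfgAt M (emb (entry M p)) S) (cfgAt M ex S') := by
  induction h generalizing ex with
  | skip S =>
    refine ⟨1, le_rfl, Reach.single ?_⟩
    simp only [cfgAt, TM2.step, entry, hm, code, stepAux_jump]
  | push v b S =>
    refine ⟨1, le_rfl, Reach.single ?_⟩
    simp only [cfgAt, TM2.step, entry, hm, code, TM2.stepAux, update_stkV_inl, stepAux_jump, stkV]
  | pop v S =>
    refine ⟨1, le_rfl, Reach.single ?_⟩
    simp only [cfgAt, TM2.step, entry, hm, code, TM2.stepAux, update_stkV_inl, stepAux_jump, stkV]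
  | @seq p q S S' S'' t t' hp hq ihp ihq =>
    obtain ⟨n, hn, hr⟩ := ihp (fun l => emb (.inl l)) (emb (.inr (entry M q)))
      (fun l => by rw [hm]; rfl)
    obtain ⟨n', hn', hr'⟩ := ihq (fun l => emb (.inr l)) ex (fun l => by rw [hm]; rfl)
    exact ⟨n + n', by omega, hr.trans hr'⟩
  | @caseN v pn pf pt S S' t hv hp ih =>
    obtain ⟨n, hn, hr⟩ := ih (fun l => emb (.inr (.inl l))) ex (fun l => by rw [hm]; rfl)
    refine ⟨n + 1, by omega, Reach.step ?_ hr⟩
    simp only [cfgAt, TM2.step, entry, hm, code, TM2.stepAux, stkV, hv, List.head?_nil,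
      decide_true, cond_true, stepAux_jump]
  | @caseF v pn pf pt S S' t l hv hp ih =>
    obtain ⟨n, hn, hr⟩ := ih (fun l => emb (.inr (.inr (.inl l)))) ex
      (fun l => by rw [hm]; rfl)
    refine ⟨n + 1, by omega, Reach.step ?_ hr⟩
    simp only [cfgAt, TM2.step, entry, hm, code, TM2.stepAux, stkV, hv, List.head?_cons,
      decide_true, cond_true, stepAux_jump, reduceCtorEq, decide_false, cond_false]
  | @caseT v pn pf pt S S' t l hv hp ih =>
    obtain ⟨n, hn, hr⟩ := ih (fun l => emb (.inr (.inr (.inr l)))) ex
      (fun l => by rw [hm]; rfl)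
    refine ⟨n + 1, by omega, Reach.step ?_ hr⟩
    simp [cfgAt, TM2.step, entry, hm, code, TM2.stepAux, stkV, hv, stepAux_jump]
  | @loopStop c v p S hc =>
    refine ⟨1, le_rfl, Reach.single ?_⟩
    simp only [cfgAt, TM2.step, entry, hm, code, TM2.stepAux, stkV, hc, cond_false,
      stepAux_jump]
  | @loopStep c v p S S' S'' t t' hc hp hq ihp ihq =>
    obtain ⟨n, hn, hr⟩ := ihp (fun l => emb (.inr l)) (emb (.inl ()))
      (fun l => by rw [hm]; rfl)
    obtain ⟨n', hn', hr'⟩ := ihq emb ex hm
    refine ⟨n + n' + 1, by omega, Reach.step ?_ (hr.trans hr')⟩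
    simp only [cfgAt, TM2.step, entry, hm, code, TM2.stepAux, stkV, hc, cond_true,
      stepAux_jump]
  | @call i a b S y hR =>
    obtain ⟨n, hn, hr⟩ := hM i _ _ hR
    have h1 := reach_copyIn m emb ex hm (S a) [] S rfl
    rw [T0_update, List.append_nil] at h1
    have h2 := reach_lift (M := M) i (fun l => emb (.inr l)) (emb (.inl true)) (update S a []) m
      (fun l => by rw [hm]; rfl) hr
    have h3 := reach_copyOut m emb ex hm y (update S a [])
    have e1 : emCfg i (fun l => emb (.inr l)) (emb (.inl true)) (update S a [])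
        (initList (M i).tm ((S a).reverse.map (M i).inputAlphabet.symm)) =
        cfgT M (emb (.inr (M i).tm.main)) (update S a [])
        (update (T0 M) ⟨i, (M i).tm.k₀⟩ ((S a).reverse.map (M i).inputAlphabet.symm)) := by
      simp only [emCfg, cfgT, embT_initList]
      simp [initList, sig0]
    have e2 : emCfg i (fun l => emb (.inr l)) (emb (.inl true)) (update S a [])
        (haltList (M i).tm (y.map (M i).outputAlphabet.symm)) =
        cfgT M (emb (.inl true)) (update S a [])
        (update (T0 M) ⟨i, (M i).tm.k₁⟩ (y.map (M i).outputAlphabet.symm)) := by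
      simp only [emCfg, cfgT, embT_haltList]
      simp [haltList, sig0]
    rw [e1, e2] at h2
    refine ⟨((S a).length + 1) + n + (y.length + 1), ?_, (h1.trans h2).trans h3⟩
    simp only [List.length_reverse] at hn
    omega

end compile

end Pool.Agent.Helper22
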