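import Mathlib
import Pool.Agent.Helper22.Prog

set_option autoImplicit false

/-!
# Polynomial time relations on bit strings

`PT R`: some `TM2` machine maps `x` to `y` in polynomial time whenever `R x y`.
`PT.of_prog`: programs calling polynomial time machines are polynomial time.
-/

namespace Pool.Agent.Helper22

open Turing Function

/-! ## Polynomially bounded functions -/

/-- polynomially bounded functions -/
def PB (f : ℕ → ℕ) : Prop := ∃ p : Polynomial ℕ, ∀ n, f n ≤ p.eval n

theorem poly_mono (p : Polynomial ℕ) : Monotone fun n => p.eval n := by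
  intro a b hab
  simp only [Polynomial.eval_eq_sum_range]
  exact Finset.sum_le_sum fun i _ => Nat.mul_le_mul_left _ (Nat.pow_le_pow_left hab i)

theorem PB.mono {f g : ℕ → ℕ} (hg : PB g) (h : ∀ n, f n ≤ g n) : PB f := by
  obtain ⟨p, hp⟩ := hg
  exact ⟨p, fun n => (h n).trans (hp n)⟩

theorem PB.const (c : ℕ) : PB fun _ => c := ⟨Polynomial.C c, fun n => by simp⟩

theorem PB.id : PB fun n => n := ⟨Polynomial.X, fun n => by simp⟩

theorem PB.poly (p : Polynomial ℕ) : PB fun n => p.eval n := ⟨p, fun _ => le_rfl⟩

theorem PB.add {f g : ℕ → ℕ} (hf : PB f) (hg : PB g) : PB fun n => f n + g n := by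
  obtain ⟨p, hp⟩ := hf
  obtain ⟨q, hq⟩ := hg
  exact ⟨p + q, fun n => by simpa using add_le_add (hp n) (hq n)⟩

theorem PB.mul {f g : ℕ → ℕ} (hf : PB f) (hg : PB g) : PB fun n => f n * g n := by
  obtain ⟨p, hp⟩ := hf
  obtain ⟨q, hq⟩ := hg
  exact ⟨p * q, fun n => by simpa using Nat.mul_le_mul (hp n) (hq n)⟩

theorem PB.comp {f g : ℕ → ℕ} (hf : PB f) (hg : PB g) : PB fun n => f (g n) := by
  obtain ⟨p, hp⟩ := hf
  obtain ⟨q, hq⟩ := hg
  refine ⟨p.comp q, fun n => ?_⟩
  rw [Polynomial.eval_comp]
  exact (hp _).trans (poly_mono p (hq n))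

theorem PB.sum {α : Type} (s : Finset α) {f : α → ℕ → ℕ} (hf : ∀ a, PB (f a)) :
    PB fun n => ∑ a ∈ s, f a n := by
  classical
  induction s using Finset.induction_on with
  | empty => simpa using PB.const 0
  | insert a s ha ih =>
    simp only [Finset.sum_insert ha]
    exact (hf a).add ih

/-- every polynomially bounded function is below a monotone polynomially bounded one -/
theorem PB.exists_mono {f : ℕ → ℕ} (hf : PB f) : ∃ g, PB g ∧ Monotone g ∧ ∀ n, f n ≤ g n := by
  obtain ⟨p, hp⟩ := hf
  exact ⟨fun n => p.eval n, PB.poly p, poly_mono p, hp⟩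

/-! ## Output length -/

/-- number of push instructions along a statement -/
def pushes {K : Type} {Γ : K → Type} {Λ σ : Type} : TM2.Stmt Γ Λ σ → ℕ
  | .push _ _ q => pushes q + 1
  | .peek _ _ q => pushes q
  | .pop _ _ q => pushes q
  | .load _ q => pushes q
  | .branch _ q₁ q₂ => pushes q₁ + pushes q₂
  | .goto _ => 0
  | .halt => 0

theorem length_stepAux_le {K : Type} [DecidableEq K] {Γ : K → Type} {Λ σ : Type}
    (q : TM2.Stmt Γ Λ σ) (v : σ) (S : ∀ k, List (Γ k)) (k : K) :
    ((TM2.stepAux q v S).stk k).length ≤ (S k).length + pushes q := by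
  induction q generalizing v S with
  | push k' f q ih =>
    refine (ih _ _).trans ?_
    by_cases h : k = k'
    · subst h; simp [pushes]; omega
    · simp [h, pushes]
  | peek k' f q ih => exact (ih _ _).trans (by simp [pushes])
  | pop k' f q ih =>
    refine (ih _ _).trans ?_
    by_cases h : k = k'
    · subst h; simp [pushes]
    · simp [h, pushes]
  | load f q ih => exact (ih _ _).trans (by simp [pushes])
  | branch f q₁ q₂ ih₁ ih₂ =>
    simp only [TM2.stepAux, pushes]
    cases f v
    · exact (ih₂ _ _).trans (by omega)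
    · exact (ih₁ _ _).trans (by omega)
  | goto f => simp [TM2.stepAux, pushes]
  | halt => simp [TM2.stepAux, pushes]

theorem length_reach_le {K : Type} [DecidableEq K] {Γ : K → Type} {Λ σ : Type}
    (m : Λ → TM2.Stmt Γ Λ σ) (B : ℕ) (hB : ∀ l, pushes (m l) ≤ B) {n : ℕ}
    {c c' : TM2.Cfg Γ Λ σ} (h : Reach (TM2.step m) n c c') (k : K) :
    (c'.stk k).length ≤ (c.stk k).length + n * B := by
  induction h with
  | refl a => simp
  | @step n a b c hs _ ih =>
    obtain ⟨l, v, stk⟩ := a
    cases l with
    | none => simp at hs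
    | some l =>
      simp only [TM2.step, Option.some.injEq] at hs
      subst hs
      have h1 := length_stepAux_le (m l) v stk k
      have h2 := hB l
      simp only
      have : (n + 1) * B = n * B + B := by ring
      omega

theorem exists_push_bound (tm : FinTM2) : ∃ B, ∀ l, pushes (tm.m l) ≤ B := by
  classical
  let _ := tm.ΛFin
  exact ⟨Finset.univ.sup fun l => pushes (tm.m l), fun l =>
    Finset.le_sup (f := fun l => pushes (tm.m l)) (Finset.mem_univ l)⟩

/-! ## Polynomial time relations -/

/-- `PT R`: some machine maps `x` to `y` in polynomial time whenever `R x y` holds. -/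
def PT (R : List Bool → List Bool → Prop) : Prop :=
  ∃ (M : TM2ComputableAux Bool Bool) (C : ℕ → ℕ), PB C ∧ ∀ x y, R x y → ∃ n ≤ C x.length,
    Reach (TM2.step M.tm.m) n (initList M.tm (x.map M.inputAlphabet.symm))
      (haltList M.tm (y.map M.outputAlphabet.symm))

theorem PT.mono {R R' : List Bool → List Bool → Prop} (h : PT R) (hR : ∀ x y, R' x y → R x y) :
    PT R' := by
  obtain ⟨M, C, hC, hM⟩ := h
  exact ⟨M, C, hC, fun x y hxy => hM x y (hR x y hxy)⟩

/-- A polynomial time relation has polynomially bounded outputs. -/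
theorem PT.exists_bound {R : List Bool → List Bool → Prop} (h : PT R) :
    ∃ (M : TM2ComputableAux Bool Bool) (C : ℕ → ℕ), PB C ∧ Monotone C ∧
      ∀ x y, R x y → y.length ≤ C x.length ∧ ∃ n ≤ C x.length,
      Reach (TM2.step M.tm.m) n (initList M.tm (x.map M.inputAlphabet.symm))
        (haltList M.tm (y.map M.outputAlphabet.symm)) := by
  obtain ⟨M, C, hC, hM⟩ := h
  obtain ⟨B, hB⟩ := exists_push_bound M.tm
  obtain ⟨C', hC', hmono, hle⟩ := hC.exists_mono
  refine ⟨M, fun n => n + C' n * B + C' n, (PB.id.add (hC'.mul (PB.const B))).add hC', ?_, ?_⟩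
  · intro a b hab
    have := hmono hab
    have h2 := Nat.mul_le_mul_right B this
    simp only
    omega
  · intro x y hxy
    obtain ⟨n, hn, hr⟩ := hM x y hxy
    have hn' := hn.trans (hle _)
    refine ⟨?_, n, by simp only; omega, hr⟩
    have h1 := length_reach_le M.tm.m B hB hr M.tm.k₁
    have h2 : ((haltList M.tm (y.map M.outputAlphabet.symm)).stk M.tm.k₁).length = y.length := by
      simp [haltList]
    have h3 : ((initList M.tm (x.map M.inputAlphabet.symm)).stk M.tm.k₁).length ≤ x.length := by
      by_cases h : M.tm.k₁ = M.tm.k₀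
      · have : ∀ k, k = M.tm.k₀ →
          ((initList M.tm (x.map M.inputAlphabet.symm)).stk k).length ≤ x.length := by
          intro k hk
          subst hk
          simp [initList]
        exact this _ h
      · simp [initList, h]
    rw [h2] at h1
    have h4 : n * B ≤ C' x.length * B := Nat.mul_le_mul_right B hn'
    simp only
    omega

/-! ## Programs -/

section

variable {V ι : Type} [DecidableEq V] [Fintype V] [DecidableEq ι] [Fintype ι]

/-- the machine compiled from a program -/
def progTM (M : ι → TM2ComputableAux Bool Bool) (p : Prog V ι) (vin vout : V) : FinTM2 where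
  K := V ⊕ (Σ i : ι, (M i).tm.K)
  kDecidableEq := inferInstance
  kFin := by
    letI : ∀ i, Fintype (M i).tm.K := fun i => (M i).tm.kFin
    exact inferInstance
  k₀ := .inl vin
  k₁ := .inl vout
  Γ := GG M
  Λ := Lab M p ⊕ Unit
  main := .inl (entry M p)
  ΛFin := by
    letI := labFintype M p
    exact inferInstance
  σ := SS M
  initialState := (none, sig0 M)
  σFin := by
    letI : ∀ i, Fintype (M i).tm.σ := fun i => (M i).tm.σFin
    exact inferInstance
  Γk₀Fin := inferInstanceAs (Fintype Bool)
  m := Sum.elim (code M p Sum.inl (Sum.inr ())) (fun _ => .halt)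

theorem PT.of_prog {R : ι → List Bool → List Bool → Prop} (hR : ∀ i, PT (R i)) (p : Prog V ι)
    (vin vout : V) {Q : List Bool → List Bool → Prop}
    (h : ∀ C : ℕ → ℕ, PB C → Monotone C → (∀ i x y, R i x y → y.length ≤ C x.length) →
      ∃ T : ℕ → ℕ, PB T ∧ ∀ x y, Q x y → ∃ t ≤ T x.length,
        Run R C p (update (fun _ => []) vin x) (update (fun _ => []) vout y) t) :
    PT Q := by
  choose M C0 hPB hmono hM using fun i => (hR i).exists_bound
  let C : ℕ → ℕ := fun n => ∑ i, C0 i n
  have hle : ∀ i n, C0 i n ≤ C n := fun i n =>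
    Finset.single_le_sum (f := fun i => C0 i n) (fun _ _ => Nat.zero_le _) (Finset.mem_univ i)
  have hC : PB C := PB.sum _ hPB
  have hCm : Monotone C := fun a b hab => Finset.sum_le_sum fun i _ => hmono i hab
  have hreal : Realises M R C := by
    intro i x y hxy
    obtain ⟨n, hn, hr⟩ := (hM i x y hxy).2
    exact ⟨n, hn.trans (hle i _), hr⟩
  obtain ⟨T, hT, hrun⟩ := h C hC hCm fun i x y hxy => ((hM i x y hxy).1).trans (hle i _)
  refine ⟨⟨progTM M p vin vout, Equiv.refl Bool, Equiv.refl Bool⟩, fun n => T n + 1,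
    hT.add (PB.const 1), fun x y hxy => ?_⟩
  obtain ⟨t, ht, hr⟩ := hrun x y hxy
  obtain ⟨n, hn, hreach⟩ := hr.reach hreal (progTM M p vin vout).m Sum.inl (Sum.inr ())
    (fun l => rfl)
  refine ⟨n + 1, by simp only; omega, ?_⟩
  have e1 : cfgAt M (Sum.inl (entry M p)) (update (fun _ => []) vin x) =
      initList (progTM M p vin vout) (x.map (Equiv.refl Bool).symm) := by
    refine congrArg (fun s => (⟨some (Sum.inl (entry M p)), (none, sig0 M), s⟩ :
      TM2.Cfg (GG (V := V) M) (Lab M p ⊕ Unit) (SS M))) (funext fun k => ?_)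
    rcases k with v | ik
    · by_cases hv : v = vin
      · subst hv
        simp [stkV, progTM]
        try rfl
      · simp [stkV, hv, progTM]
    · simp [stkV, T0, progTM]
  have e2 : TM2.step (progTM M p vin vout).m
      (cfgAt M (Sum.inr ()) (update (fun _ => []) vout y)) =
      some (haltList (progTM M p vin vout) (y.map (Equiv.refl Bool).symm)) := by
    refine congrArg (fun s => some (⟨none, (none, sig0 M), s⟩ :
      TM2.Cfg (GG (V := V) M) (Lab M p ⊕ Unit) (SS M))) (funext fun k => ?_)
    rcases k with v | ik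
    · by_cases hv : v = vout
      · subst hv
        simp [stkV, progTM]
        try rfl
      · simp [stkV, hv, progTM]
    · simp [stkV, T0, progTM]
  exact (congrArg (fun c => Reach (TM2.step (progTM M p vin vout).m) n c
    (cfgAt M (Sum.inr ()) (update (fun _ => []) vout y))) e1).mp hreach |>.trans
      (Reach.single e2)

end

end Pool.Agent.Helper22
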