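import Mathlib
import Pool.Agent.Helper22.PT

set_option autoImplicit false

/-!
# Macros for stack programs and basic closure properties of `PT`
-/

namespace Pool.Agent.Helper22

open Turing Function

section macros

variable {V ι : Type} [DecidableEq V] {R : ι → List Bool → List Bool → Prop} {C : ℕ → ℕ}

/-- running within a time bound -/
def RunsIn (R : ι → List Bool → List Bool → Prop) (C : ℕ → ℕ) (p : Prog V ι)
    (S S' : V → List Bool) (T : ℕ) : Prop := ∃ t ≤ T, Run R C p S S' t

theorem Run.runsIn {p : Prog V ι} {S S' : V → List Bool} {t : ℕ} (h : Run R C p S S' t) :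
    RunsIn R C p S S' t := ⟨t, le_rfl, h⟩

theorem RunsIn.mono {p : Prog V ι} {S S' : V → List Bool} {t t' : ℕ}
    (h : RunsIn R C p S S' t) (ht : t ≤ t') : RunsIn R C p S S' t' := by
  obtain ⟨s, hs, h⟩ := h
  exact ⟨s, hs.trans ht, h⟩

theorem RunsIn.seq {p q : Prog V ι} {S S' S'' : V → List Bool} {t t' : ℕ}
    (h : RunsIn R C p S S' t) (h' : RunsIn R C q S' S'' t') :
    RunsIn R C (.seq p q) S S'' (t + t') := by
  obtain ⟨s, hs, h⟩ := h
  obtain ⟨s', hs', h'⟩ := h'
  exact ⟨s + s', by omega, .seq h h'⟩

theorem RunsIn.congr {p : Prog V ι} {S S' S'' : V → List Bool} {t : ℕ}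
    (h : RunsIn R C p S S' t) (hS : S' = S'') : RunsIn R C p S S'' t := hS ▸ h

theorem RunsIn.loopStep {c : Option Bool → Bool} {v : V} {p : Prog V ι}
    {S S' S'' : V → List Bool} {t t' : ℕ} (hc : c (S v).head? = true)
    (h : RunsIn R C p S S' t) (h' : RunsIn R C (.loop c v p) S' S'' t') :
    RunsIn R C (.loop c v p) S S'' (t + t' + 1) := by
  obtain ⟨s, hs, h⟩ := h
  obtain ⟨s', hs', h'⟩ := h'
  exact ⟨s + s' + 1, by omega, .loopStep hc h h'⟩

theorem RunsIn.loopStop {c : Option Bool → Bool} {v : V} {p : Prog V ι}
    {S : V → List Bool} (hc : c (S v).head? = false) :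
    RunsIn R C (.loop c v p) S S 1 := (Run.loopStop hc).runsIn

theorem RunsIn.caseN {v : V} {pn pf pt : Prog V ι} {S S' : V → List Bool} {t : ℕ}
    (hv : S v = []) (h : RunsIn R C pn S S' t) : RunsIn R C (.case v pn pf pt) S S' (t + 1) := by
  obtain ⟨s, hs, h⟩ := h
  exact ⟨s + 1, by omega, .caseN hv h⟩

theorem RunsIn.caseF {v : V} {pn pf pt : Prog V ι} {S S' : V → List Bool} {t : ℕ}
    {l : List Bool} (hv : S v = false :: l) (h : RunsIn R C pf S S' t) :
    RunsIn R C (.case v pn pf pt) S S' (t + 1) := by
  obtain ⟨s, hs, h⟩ := h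
  exact ⟨s + 1, by omega, .caseF hv h⟩

theorem RunsIn.caseT {v : V} {pn pf pt : Prog V ι} {S S' : V → List Bool} {t : ℕ}
    {l : List Bool} (hv : S v = true :: l) (h : RunsIn R C pt S S' t) :
    RunsIn R C (.case v pn pf pt) S S' (t + 1) := by
  obtain ⟨s, hs, h⟩ := h
  exact ⟨s + 1, by omega, .caseT hv h⟩

theorem run_pop (a : V) (S : V → List Bool) :
    RunsIn R C (.pop a : Prog V ι) S (update S a (S a).tail) 1 := (Run.pop a S).runsIn

theorem run_push (a : V) (b : Bool) (S : V → List Bool) :
    RunsIn R C (.push a b : Prog V ι) S (update S a (b :: S a)) 1 := (Run.push a b S).runsIn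

theorem run_call {i : ι} {a b : V} {S : V → List Bool} {y : List Bool}
    (h : R i (S a).reverse y) :
    RunsIn R C (.call i a b) S (update (update S a []) b (y.reverse ++ (update S a []) b))
        ((S a).length + C (S a).length + y.length + 2) := (Run.call h).runsIn

/-- a loop, given by its sequence of states -/
theorem runsIn_loop {c : Option Bool → Bool} {v : V} {p : Prog V ι} (n : ℕ)
    (F : ℕ → V → List Bool) (T : ℕ) (hstop : c (F n v).head? = false)
    (hgo : ∀ i < n, c (F i v).head? = true)
    (hstep : ∀ i < n, RunsIn R C p (F i) (F (i + 1)) T) :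
    RunsIn R C (.loop c v p) (F 0) (F n) (n * (T + 1) + 1) := by
  induction n generalizing F with
  | zero => simpa using (Run.loopStop hstop).runsIn
  | succ n ih =>
    have h1 := hstep 0 (Nat.succ_pos n)
    have h2 := ih (fun i => F (i + 1)) hstop
      (fun i hi => hgo (i + 1) (by omega)) (fun i hi => hstep (i + 1) (by omega))
    refine (RunsIn.loopStep (hgo 0 (Nat.succ_pos n)) h1 h2).mono ?_
    have : (n + 1) * (T + 1) = n * (T + 1) + (T + 1) := by ring
    omega

/-- move the head of `a` to `b` -/
def mv1 (a b : V) : Prog V ι :=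
  .case a .skip (.seq (.pop a) (.push b false)) (.seq (.pop a) (.push b true))

/-- move the head of `a` to `b` and `c` -/
def mv2 (a b c : V) : Prog V ι :=
  .case a .skip (.seq (.pop a) (.seq (.push b false) (.push c false)))
    (.seq (.pop a) (.seq (.push b true) (.push c true)))

theorem run_mv1 {a b : V} {S : V → List Bool} {x : Bool} {l : List Bool} (h : S a = x :: l) :
    RunsIn R C (mv1 a b) S (update (update S a l) b (x :: (update S a l) b)) 3 := by
  have h1 : Run R C (.pop a) S (update S a l) 1 := by
    have := Run.pop (R := R) (C := C) a S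
    rwa [h] at this
  cases x
  · exact ⟨3, le_rfl, .caseF h (.seq h1 (.push _ _ _))⟩
  · exact ⟨3, le_rfl, .caseT h (.seq h1 (.push _ _ _))⟩

theorem run_mv2 {a b c : V} {S : V → List Bool} {x : Bool} {l : List Bool} (h : S a = x :: l) :
    RunsIn R C (mv2 a b c) S
      (update (update (update S a l) b (x :: (update S a l) b)) c
        (x :: (update (update S a l) b (x :: (update S a l) b)) c)) 4 := by
  have h1 : Run R C (.pop a) S (update S a l) 1 := by
    have := Run.pop (R := R) (C := C) a S
    rwa [h] at this
  cases x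
  · exact ⟨4, le_rfl, .caseF h (.seq h1 (.seq (.push _ _ _) (.push _ _ _)))⟩
  · exact ⟨4, le_rfl, .caseT h (.seq h1 (.seq (.push _ _ _) (.push _ _ _)))⟩

/-- move all of `a` to `b`, reversing it -/
def mv (a b : V) : Prog V ι := .loop Option.isSome a (mv1 a b)

/-- move all of `a` to `b` and `c`, reversing it -/
def mvd (a b c : V) : Prog V ι := .loop Option.isSome a (mv2 a b c)

/-- clear `a` -/
def clr (a : V) : Prog V ι := .loop Option.isSome a (.pop a)

theorem run_mv {a b : V} (hab : a ≠ b) (S : V → List Bool) :
    RunsIn R C (mv a b) S (update (update S a []) b ((S a).reverse ++ S b))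
      ((S a).length * 4 + 1) := by
  obtain ⟨x, hx⟩ : ∃ x, S a = x := ⟨_, rfl⟩
  rw [hx]
  induction x generalizing S with
  | nil =>
    refine ((RunsIn.loopStop (by simp [hx])).mono (by simp)).congr ?_
    funext v
    by_cases hv : v = b
    · subst hv; simp
    · by_cases hv' : v = a
      · subst hv'; simp [hv, hx]
      · simp [hv, hv']
  | cons c x ih =>
    refine ((RunsIn.loopStep (by simp [hx]) (run_mv1 hx) (ih _ (by simp [hab]))).mono
      (by simp; omega)).congr ?_
    funext v
    by_cases hv : v = b
    · subst hv; simp [hab.symm]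
    · by_cases hv' : v = a
      · subst hv'; simp [hv]
      · simp [hv, hv']

theorem run_mvd {a b c : V} (hab : a ≠ b) (hac : a ≠ c) (hbc : b ≠ c) (S : V → List Bool) :
    RunsIn R C (mvd a b c) S
      (update (update (update S a []) b ((S a).reverse ++ S b)) c ((S a).reverse ++ S c))
      ((S a).length * 5 + 1) := by
  obtain ⟨x, hx⟩ : ∃ x, S a = x := ⟨_, rfl⟩
  rw [hx]
  induction x generalizing S with
  | nil =>
    refine ((RunsIn.loopStop (by simp [hx])).mono (by simp)).congr ?_
    funext v
    by_cases hv : v = b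
    · subst hv; simp [hbc]
    · by_cases hv' : v = a
      · subst hv'; simp [hv, hac, hx]
      · by_cases hv'' : v = c
        · subst hv''; simp [hv, hv']
        · simp [hv, hv', hv'']
  | cons d x ih =>
    refine ((RunsIn.loopStep (by simp [hx]) (run_mv2 hx) (ih _ (by simp [hab, hac]))).mono
      (by simp; omega)).congr ?_
    funext v
    by_cases hv : v = b
    · subst hv; simp [hab.symm, hbc]
    · by_cases hv' : v = a
      · subst hv'; simp [hv, hac]
      · by_cases hv'' : v = c
        · subst hv''; simp [hv, hv']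
        · simp [hv, hv', hv'']

theorem run_clr (a : V) (S : V → List Bool) :
    RunsIn R C (clr a : Prog V ι) S (update S a []) ((S a).length * 2 + 1) := by
  obtain ⟨x, hx⟩ : ∃ x, S a = x := ⟨_, rfl⟩
  rw [hx]
  induction x generalizing S with
  | nil =>
    refine ((RunsIn.loopStop (by simp [hx])).mono (by simp)).congr ?_
    rw [← hx, update_eq_self]
  | cons d x ih =>
    refine ((RunsIn.loopStep (by simp [hx]) (run_pop a S) (ih _ (by simp [hx]))).mono
      (by simp; omega)).congr ?_
    simp

end macros

/-! ## Four stacks -/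

/-- a state of five stacks -/
def st (a b c d e : List Bool) : Fin 5 → List Bool := ![a, b, c, d, e]

section st

variable (a b c d e x : List Bool)

@[simp] theorem st_0 : st a b c d e 0 = a := rfl
@[simp] theorem st_1 : st a b c d e 1 = b := rfl
@[simp] theorem st_2 : st a b c d e 2 = c := rfl
@[simp] theorem st_3 : st a b c d e 3 = d := rfl
@[simp] theorem st_4 : st a b c d e 4 = e := rfl
@[simp] theorem update_st_0 : update (st a b c d e) 0 x = st x b c d e := by
  funext i; fin_cases i <;> simp [update, st]
@[simp] theorem update_st_1 : update (st a b c d e) 1 x = st a x c d e := by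
  funext i; fin_cases i <;> simp [update, st]
@[simp] theorem update_st_2 : update (st a b c d e) 2 x = st a b x d e := by
  funext i; fin_cases i <;> simp [update, st]
@[simp] theorem update_st_3 : update (st a b c d e) 3 x = st a b c x e := by
  funext i; fin_cases i <;> simp [update, st]
@[simp] theorem update_st_4 : update (st a b c d e) 4 x = st a b c d x := by
  funext i; fin_cases i <;> simp [update, st]
theorem st_init : update (fun _ => []) 0 x = st x [] [] [] [] := by
  funext i; fin_cases i <;> simp [update, st]

end st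

end Pool.Agent.Helper22
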