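import Mathlib
import Pool.Agent.Helper22.Macros
import Pool.Prelude.Def_H_3587d628

set_option autoImplicit false

/-!
# Closure properties of polynomial time relations
-/

namespace Pool.Agent.Helper22

open Turing Function N487b59b3

attribute [fun_prop] PB PB.const PB.id PB.add PB.mul PB.comp

theorem PB.app {f g : ℕ → ℕ} (hf : PB f) (hg : PB g) : PB fun n => f (g n) := hf.comp hg

/-- the two-element family of relations -/
def two (R₁ R₂ : List Bool → List Bool → Prop) : Bool → List Bool → List Bool → Prop
  | false => R₁
  | true => R₂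

theorem two_PT {R₁ R₂ : List Bool → List Bool → Prop} (h₁ : PT R₁) (h₂ : PT R₂) :
    ∀ i, PT (two R₁ R₂ i)
  | false => h₁
  | true => h₂

/-! ## Composition -/

theorem PT.comp {R₁ R₂ : List Bool → List Bool → Prop} (h₁ : PT R₁) (h₂ : PT R₂) :
    PT fun x z => ∃ y, R₁ x y ∧ R₂ y z := by
  refine PT.of_prog (V := Fin 5) (two_PT h₁ h₂)
    (.seq (mv 0 1) (.seq (.call false 1 1) (.seq (.call true 1 1) (mv 1 0)))) 0 0 ?_
  intro C hC hCm hlen
  refine ⟨fun n => (n * 4 + 1) + ((n + C n + C n + 2) + ((C n + C (C n) + C (C n) + 2) +
    (C (C n) * 4 + 1))), by fun_prop, ?_⟩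
  rintro x z ⟨y, hxy, hyz⟩
  have hy := hlen false x y hxy
  have hz := hlen true y z hyz
  have hCy := hCm hy
  rw [st_init, st_init]
  have s1 := run_mv (R := two R₁ R₂) (C := C) (a := (0 : Fin 5)) (b := 1) (by decide)
    (st x [] [] [] [])
  simp only [st_0, update_st_0, st_1, List.append_nil, update_st_1] at s1
  have s2 := run_call (R := two R₁ R₂) (C := C) (i := false) (a := (1 : Fin 5)) (b := 1)
    (S := st [] x.reverse [] [] []) (y := y) (by simpa [two] using hxy)
  simp only [st_1, update_st_1, List.append_nil, List.length_reverse] at s2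
  have s3 := run_call (R := two R₁ R₂) (C := C) (i := true) (a := (1 : Fin 5)) (b := 1)
    (S := st [] y.reverse [] [] []) (y := z) (by simpa [two] using hyz)
  simp only [st_1, update_st_1, List.append_nil, List.length_reverse] at s3
  have s4 := run_mv (R := two R₁ R₂) (C := C) (a := (1 : Fin 5)) (b := 0) (by decide)
    (st [] z.reverse [] [] [])
  simp only [st_0, update_st_0, st_1, List.append_nil, update_st_1, List.reverse_reverse,
    List.length_reverse] at s4
  exact (s1.seq (s2.seq (s3.seq s4))).mono (by beta_reduce; omega)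

/-! ## Pairing -/

/-- the doubled word -/
def dl (l : List Bool) : List Bool := l.flatMap fun b => [true, b]

theorem delimit_eq (l : List Bool) : delimit l = dl l ++ [false] := by
  induction l with
  | nil => rfl
  | cons b l ih => simp [delimit, dl, ih]

theorem dl_length (l : List Bool) : (dl l).length = 2 * l.length := by
  induction l with
  | nil => rfl
  | cons b l ih => simp [dl] at ih ⊢; omega

theorem run_dl {ι : Type} {R : ι → List Bool → List Bool → Prop} {C : ℕ → ℕ}
    (l b c d e : List Bool) :
    RunsIn R C (.loop Option.isSome 0 (.seq (mv1 0 3) (.push 3 true))) (st l b c d e)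
      (st [] b c (dl l.reverse ++ d) e) (l.length * 5 + 1) := by
  induction l generalizing d with
  | nil => exact (RunsIn.loopStop (by simp)).mono (by simp)
  | cons x l ih =>
    have s1 := run_mv1 (R := R) (C := C) (a := (0 : Fin 5)) (b := 3)
      (S := st (x :: l) b c d e) (x := x) (l := l) (by simp)
    simp only [update_st_0, st_3, update_st_3] at s1
    have s2 := run_push (R := R) (C := C) (3 : Fin 5) true (st l b c (x :: d) e)
    simp only [st_3, update_st_3] at s2
    refine ((RunsIn.loopStep (by simp) (s1.seq s2) (ih _)).mono (by simp; omega)).congr ?_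
    simp [dl]

theorem PT.pair {R₁ R₂ : List Bool → List Bool → Prop} (h₁ : PT R₁) (h₂ : PT R₂) :
    PT fun x z => ∃ y₁ y₂, R₁ x y₁ ∧ R₂ x y₂ ∧ z = delimit y₁ ++ y₂ := by
  refine PT.of_prog (V := Fin 5) (two_PT h₁ h₂)
    (.seq (mv 0 1) (.seq (mvd 1 0 2) (.seq (mv 0 1) (.seq (.call false 1 0)
      (.seq (mv 2 1) (.seq (.call true 1 2) (.seq (mv 2 3) (.seq (.push 3 false)
        (.loop Option.isSome 0 (.seq (mv1 0 3) (.push 3 true))))))))))) 0 3 ?_
  intro C hC hCm hlen
  refine ⟨fun n => (n * 4 + 1) + ((n * 5 + 1) + ((n * 4 + 1) + ((n + C n + C n + 2) +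
    ((n * 4 + 1) + ((n + C n + C n + 2) + ((C n * 4 + 1) + (1 +
    (C n * 5 + 1)))))))), by fun_prop, ?_⟩
  rintro x z ⟨y₁, y₂, hxy, hyz, rfl⟩
  have hy := hlen false x y₁ hxy
  have hz := hlen true x y₂ hyz
  have e3 : update (fun _ => []) (3 : Fin 5) (delimit y₁ ++ y₂) =
      st [] [] [] (delimit y₁ ++ y₂) [] := by
    funext i; fin_cases i <;> simp [update, st]
  rw [st_init, e3]
  have s1 := run_mv (R := two R₁ R₂) (C := C) (a := (0 : Fin 5)) (b := 1) (by decide)
    (st x [] [] [] [])
  simp only [st_0, update_st_0, st_1, List.append_nil, update_st_1] at s1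
  have s2 := run_mvd (R := two R₁ R₂) (C := C) (a := (1 : Fin 5)) (b := 0) (c := 2) (by decide)
    (by decide) (by decide) (st [] x.reverse [] [] [])
  simp only [st_0, update_st_0, st_1, List.append_nil, update_st_1, st_2, update_st_2,
    List.reverse_reverse, List.length_reverse] at s2
  have s3 := run_mv (R := two R₁ R₂) (C := C) (a := (0 : Fin 5)) (b := 1) (by decide)
    (st x [] x [] [])
  simp only [st_0, update_st_0, st_1, List.append_nil, update_st_1] at s3
  have s4 := run_call (R := two R₁ R₂) (C := C) (i := false) (a := (1 : Fin 5)) (b := 0)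
    (S := st [] x.reverse x [] []) (y := y₁) (by simpa [two] using hxy)
  simp only [st_1, update_st_1, List.append_nil, st_0, update_st_0, List.length_reverse] at s4
  have s5 := run_mv (R := two R₁ R₂) (C := C) (a := (2 : Fin 5)) (b := 1) (by decide)
    (st y₁.reverse [] x [] [])
  simp only [st_2, update_st_2, st_1, List.append_nil, update_st_1] at s5
  have s6 := run_call (R := two R₁ R₂) (C := C) (i := true) (a := (1 : Fin 5)) (b := 2)
    (S := st y₁.reverse x.reverse [] [] []) (y := y₂) (by simpa [two] using hyz)
  simp only [st_1, update_st_1, List.append_nil, st_2, update_st_2, List.length_reverse] at s6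
  have s7 := run_mv (R := two R₁ R₂) (C := C) (a := (2 : Fin 5)) (b := 3) (by decide)
    (st y₁.reverse [] y₂.reverse [] [])
  simp only [st_2, update_st_2, st_3, List.append_nil, update_st_3, List.reverse_reverse,
    List.length_reverse] at s7
  have s8 := run_push (R := two R₁ R₂) (C := C) (3 : Fin 5) false
    (st y₁.reverse [] [] y₂ [])
  simp only [st_3, update_st_3] at s8
  have s9 := run_dl (R := two R₁ R₂) (C := C) y₁.reverse [] [] (false :: y₂) []
  simp only [List.reverse_reverse, List.length_reverse] at s9
  refine ((s1.seq (s2.seq (s3.seq (s4.seq (s5.seq (s6.seq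
    (s7.seq (s8.seq s9)))))))).mono (by beta_reduce; omega)).congr ?_
  simp [delimit_eq]

/-! ## Projections -/

/-- the empty family of relations -/
def noR : Empty → List Bool → List Bool → Prop := fun e => e.elim

theorem run_undl {ι : Type} {R : ι → List Bool → List Bool → Prop} {C : ℕ → ℕ}
    (l r b c d e : List Bool) :
    RunsIn R C (.loop (fun o => o == some true) 0 (.seq (.pop 0) (mv1 0 1)))
      (st (dl l ++ false :: r) b c d e)
      (st (false :: r) (l.reverse ++ b) c d e) (l.length * 5 + 1) := by
  induction l generalizing b with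
  | nil => exact (RunsIn.loopStop (by simp [dl])).mono (by simp)
  | cons x l ih =>
    have s1 := run_pop (R := R) (C := C) (0 : Fin 5) (st (dl (x :: l) ++ false :: r) b c d e)
    have e1 : (dl (x :: l) ++ false :: r).tail = x :: (dl l ++ false :: r) := by simp [dl]
    simp only [st_0, update_st_0, e1] at s1
    have s2 := run_mv1 (R := R) (C := C) (a := (0 : Fin 5)) (b := 1)
      (S := st (x :: (dl l ++ false :: r)) b c d e) (x := x) (l := dl l ++ false :: r) (by simp)
    simp only [update_st_0, st_1, update_st_1] at s2
    refine ((RunsIn.loopStep (by simp [dl]) (s1.seq s2) (ih _)).mono (by simp; omega)).congr ?_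
    simp

theorem PT.fst : PT fun x z => ∃ y₂, x = delimit z ++ y₂ := by
  refine PT.of_prog (V := Fin 5) (R := noR) (fun i => i.elim)
    (.seq (.loop (fun o => o == some true) 0 (.seq (.pop 0) (mv1 0 1)))
      (.seq (clr 0) (mv 1 0))) 0 0 ?_
  intro C hC hCm hlen
  refine ⟨fun n => (n * 5 + 1) + ((n * 2 + 1) + (n * 4 + 1)), by fun_prop, ?_⟩
  rintro x z ⟨y₂, rfl⟩
  rw [st_init, st_init, delimit_eq]
  have s1 := run_undl (R := noR) (C := C) z y₂ [] [] [] []
  have s2 := run_clr (R := noR) (C := C) (0 : Fin 5) (st (false :: y₂) (z.reverse ++ []) [] [] [])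
  simp only [st_0, update_st_0, List.append_nil] at s2
  have s3 := run_mv (R := noR) (C := C) (a := (1 : Fin 5)) (b := 0) (by decide)
    (st [] z.reverse [] [] [])
  simp only [st_1, st_0, update_st_0, update_st_1, List.append_nil, List.reverse_reverse,
    List.length_reverse] at s3
  simp only [List.append_nil] at s1
  have h := s1.seq (s2.seq s3)
  refine RunsIn.mono (by simpa using h) ?_
  simp only [List.length_append, dl_length, List.length_cons, List.length_nil]
  omega

theorem run_undl' {ι : Type} {R : ι → List Bool → List Bool → Prop} {C : ℕ → ℕ}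
    (l r b c d e : List Bool) :
    RunsIn R C (.loop (fun o => o == some true) 0 (.seq (.pop 0) (.pop 0)))
      (st (dl l ++ false :: r) b c d e)
      (st (false :: r) b c d e) (l.length * 3 + 1) := by
  induction l with
  | nil => exact (RunsIn.loopStop (by simp [dl])).mono (by simp)
  | cons x l ih =>
    have s1 := run_pop (R := R) (C := C) (0 : Fin 5) (st (dl (x :: l) ++ false :: r) b c d e)
    have e1 : (dl (x :: l) ++ false :: r).tail = x :: (dl l ++ false :: r) := by simp [dl]
    simp only [st_0, update_st_0, e1] at s1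
    have s2 := run_pop (R := R) (C := C) (0 : Fin 5) (st (x :: (dl l ++ false :: r)) b c d e)
    simp only [st_0, update_st_0, List.tail_cons] at s2
    exact ((RunsIn.loopStep (by simp [dl]) (s1.seq s2) ih).mono (by simp; omega))

theorem PT.snd : PT fun x z => ∃ y₁, x = delimit y₁ ++ z := by
  refine PT.of_prog (V := Fin 5) (R := noR) (fun i => i.elim)
    (.seq (.loop (fun o => o == some true) 0 (.seq (.pop 0) (.pop 0))) (.pop 0)) 0 0 ?_
  intro C hC hCm hlen
  refine ⟨fun n => (n * 3 + 1) + 1, by fun_prop, ?_⟩
  rintro x z ⟨y₁, rfl⟩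
  rw [st_init, st_init, delimit_eq]
  have s1 := run_undl' (R := noR) (C := C) y₁ z [] [] [] []
  have s2 := run_pop (R := noR) (C := C) (0 : Fin 5) (st (false :: z) [] [] [] [])
  simp only [st_0, update_st_0, List.tail_cons] at s2
  have h := s1.seq s2
  refine RunsIn.mono (by simpa using h) ?_
  simp only [List.length_append, dl_length, List.length_cons, List.length_nil]
  omega

/-! ## Identity, constants, emptiness test -/

theorem PT.id : PT fun x z => x = z := by
  refine PT.of_prog (V := Fin 5) (R := noR) (fun i => i.elim) .skip 0 0 ?_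
  intro C hC hCm hlen
  refine ⟨fun n => 1, by fun_prop, ?_⟩
  rintro x z rfl
  exact (Run.skip _).runsIn

/-- push a word on stack `0` -/
def pushAll {ι : Type} : List Bool → Prog (Fin 5) ι
  | [] => .skip
  | b :: l => .seq (pushAll l) (.push 0 b)

theorem run_pushAll {ι : Type} {R : ι → List Bool → List Bool → Prop} {C : ℕ → ℕ}
    (l a b c d e : List Bool) :
    RunsIn R C (pushAll l) (st a b c d e) (st (l ++ a) b c d e) (l.length + 1) := by
  induction l with
  | nil => exact (Run.skip _).runsIn.mono (by simp)
  | cons x l ih =>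
    have s2 := run_push (R := R) (C := C) (0 : Fin 5) x (st (l ++ a) b c d e)
    simp only [st_0, update_st_0] at s2
    exact (ih.seq s2).mono (by simp)

theorem PT.const (w : List Bool) : PT fun _ z => z = w := by
  refine PT.of_prog (V := Fin 5) (R := noR) (fun i => i.elim)
    (.seq (clr 0) (pushAll w)) 0 0 ?_
  intro C hC hCm hlen
  refine ⟨fun n => (n * 2 + 1) + (w.length + 1), by fun_prop, ?_⟩
  rintro x z rfl
  rw [st_init, st_init]
  have s1 := run_clr (R := noR) (C := C) (0 : Fin 5) (st x [] [] [] [])
  simp only [st_0, update_st_0] at s1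
  have s2 := run_pushAll (R := noR) (C := C) z [] [] [] [] []
  exact (s1.seq s2).congr (by simp)

theorem PT.isNil : PT fun x z => z = [x.isEmpty] := by
  refine PT.of_prog (V := Fin 5) (R := noR) (fun i => i.elim)
    (.case 0 (.push 0 true) (.seq (clr 0) (.push 0 false)) (.seq (clr 0) (.push 0 false))) 0 0 ?_
  intro C hC hCm hlen
  refine ⟨fun n => (n * 2 + 1) + 1 + 1, by fun_prop, ?_⟩
  rintro x z rfl
  rw [st_init, st_init]
  have s1 := run_clr (R := noR) (C := C) (0 : Fin 5) (st x [] [] [] [])
  simp only [st_0, update_st_0] at s1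
  have s2 := run_push (R := noR) (C := C) (0 : Fin 5) false (st [] [] [] [] [])
  simp only [st_0, update_st_0] at s2
  have s3 := run_push (R := noR) (C := C) (0 : Fin 5) true (st [] [] [] [] [])
  simp only [st_0, update_st_0] at s3
  cases x with
  | nil => exact (RunsIn.caseN rfl s3).mono (by simp)
  | cons b l =>
    cases b
    · exact RunsIn.caseF rfl (s1.seq s2)
    · exact RunsIn.caseT rfl (s1.seq s2)

/-! ## Conditionals -/

/-- the three-element family of relations -/
def three (R₁ R₂ R₃ : List Bool → List Bool → Prop) : Fin 3 → List Bool → List Bool → Prop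
  | 0 => R₁
  | 1 => R₂
  | 2 => R₃

theorem three_PT {R₁ R₂ R₃ : List Bool → List Bool → Prop} (h₁ : PT R₁) (h₂ : PT R₂)
    (h₃ : PT R₃) : ∀ i, PT (three R₁ R₂ R₃ i)
  | 0 => h₁
  | 1 => h₂
  | 2 => h₃

theorem PT.ite {Rc R₁ R₂ : List Bool → List Bool → Prop} (hc : PT Rc) (h₁ : PT R₁)
    (h₂ : PT R₂) : PT fun x z => (Rc x [true] ∧ R₁ x z) ∨ (Rc x [false] ∧ R₂ x z) := by
  refine PT.of_prog (V := Fin 5) (three_PT hc h₁ h₂)
    (.seq (mv 0 1) (.seq (mvd 1 0 2) (.seq (mv 0 1) (.seq (.call 0 1 3)
      (.seq (mv 2 1) (.case 3 .skip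
        (.seq (.pop 3) (.seq (.call 2 1 1) (mv 1 0)))
        (.seq (.pop 3) (.seq (.call 1 1 1) (mv 1 0))))))))) 0 0 ?_
  intro C hC hCm hlen
  refine ⟨fun n => (n * 4 + 1) + ((n * 5 + 1) + ((n * 4 + 1) + ((n + C n + 1 + 2) +
    ((n * 4 + 1) + (1 + ((n + C n + C n + 2) + (C n * 4 + 1)) + 1))))), by fun_prop, ?_⟩
  intro x z hxz
  rw [st_init, st_init]
  have s1 := run_mv (R := three Rc R₁ R₂) (C := C) (a := (0 : Fin 5)) (b := 1) (by decide)
    (st x [] [] [] [])
  simp only [st_0, update_st_0, st_1, List.append_nil, update_st_1] at s1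
  have s2 := run_mvd (R := three Rc R₁ R₂) (C := C) (a := (1 : Fin 5)) (b := 0) (c := 2)
    (by decide) (by decide) (by decide) (st [] x.reverse [] [] [])
  simp only [st_0, update_st_0, st_1, List.append_nil, update_st_1, st_2, update_st_2,
    List.reverse_reverse, List.length_reverse] at s2
  have s3 := run_mv (R := three Rc R₁ R₂) (C := C) (a := (0 : Fin 5)) (b := 1) (by decide)
    (st x [] x [] [])
  simp only [st_0, update_st_0, st_1, List.append_nil, update_st_1] at s3
  rcases hxz with ⟨hc', hz⟩ | ⟨hc', hz⟩
  · have s4 := run_call (R := three Rc R₁ R₂) (C := C) (i := 0) (a := (1 : Fin 5)) (b := 3)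
      (S := st [] x.reverse x [] []) (y := [true]) (by simpa [three] using hc')
    simp only [st_1, update_st_1, List.append_nil, st_3, update_st_3, List.length_reverse,
      List.reverse_singleton, List.length_singleton] at s4
    have s5 := run_mv (R := three Rc R₁ R₂) (C := C) (a := (2 : Fin 5)) (b := 1) (by decide)
      (st [] [] x [true] [])
    simp only [st_2, update_st_2, st_1, List.append_nil, update_st_1] at s5
    have s6 := run_pop (R := three Rc R₁ R₂) (C := C) (3 : Fin 5) (st [] x.reverse [] [true] [])
    simp only [st_3, List.tail_cons, update_st_3] at s6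
    have s7 := run_call (R := three Rc R₁ R₂) (C := C) (i := 1) (a := (1 : Fin 5)) (b := 1)
      (S := st [] x.reverse [] [] []) (y := z) (by simpa [three] using hz)
    simp only [st_1, update_st_1, List.append_nil, List.length_reverse] at s7
    have s8 := run_mv (R := three Rc R₁ R₂) (C := C) (a := (1 : Fin 5)) (b := 0) (by decide)
      (st [] z.reverse [] [] [])
    simp only [st_0, update_st_0, st_1, List.append_nil, update_st_1, List.reverse_reverse,
      List.length_reverse] at s8
    have hz' := hlen 1 x z hz
    exact (s1.seq (s2.seq (s3.seq (s4.seq (s5.seq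
      (RunsIn.caseT (l := []) rfl (s6.seq (s7.seq s8)))))))).mono (by beta_reduce; omega)
  · have s4 := run_call (R := three Rc R₁ R₂) (C := C) (i := 0) (a := (1 : Fin 5)) (b := 3)
      (S := st [] x.reverse x [] []) (y := [false]) (by simpa [three] using hc')
    simp only [st_1, update_st_1, List.append_nil, st_3, update_st_3, List.length_reverse,
      List.reverse_singleton, List.length_singleton] at s4
    have s5 := run_mv (R := three Rc R₁ R₂) (C := C) (a := (2 : Fin 5)) (b := 1) (by decide)
      (st [] [] x [false] [])
    simp only [st_2, update_st_2, st_1, List.append_nil, update_st_1] at s5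
    have s6 := run_pop (R := three Rc R₁ R₂) (C := C) (3 : Fin 5) (st [] x.reverse [] [false] [])
    simp only [st_3, List.tail_cons, update_st_3] at s6
    have s7 := run_call (R := three Rc R₁ R₂) (C := C) (i := 2) (a := (1 : Fin 5)) (b := 1)
      (S := st [] x.reverse [] [] []) (y := z) (by simpa [three] using hz)
    simp only [st_1, update_st_1, List.append_nil, List.length_reverse] at s7
    have s8 := run_mv (R := three Rc R₁ R₂) (C := C) (a := (1 : Fin 5)) (b := 0) (by decide)
      (st [] z.reverse [] [] [])
    simp only [st_0, update_st_0, st_1, List.append_nil, update_st_1, List.reverse_reverse,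
      List.length_reverse] at s8
    have hz' := hlen 2 x z hz
    exact (s1.seq (s2.seq (s3.seq (s4.seq (s5.seq
      (RunsIn.caseF (l := []) rfl (s6.seq (s7.seq s8)))))))).mono (by beta_reduce; omega)

/-! ## Iteration -/

/-- the one-element family of relations -/
def one (R₁ : List Bool → List Bool → Prop) : Unit → List Bool → List Bool → Prop
  | _ => R₁

/-- Iterating a polynomial time step `|x|` times, along a chain of polynomially long words. -/
theorem PT.iter {R : List Bool → List Bool → Prop} (h : PT R) {B : ℕ → ℕ} (hB : PB B) :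
    PT fun x z => ∃ F : ℕ → List Bool, F 0 = x ∧ F x.length = z ∧
      (∀ i < x.length, R (F i) (F (i + 1))) ∧ ∀ i ≤ x.length, (F i).length ≤ B x.length := by
  refine PT.of_prog (V := Fin 5) (R := one R) (fun _ => h)
    (.seq (mv 0 1) (.seq (mvd 1 0 2) (.seq (mv 0 1) (.seq
      (.loop Option.isSome 2 (.seq (.pop 2) (.call () 1 1))) (mv 1 0))))) 0 0 ?_
  intro C hC hCm hlen
  refine ⟨fun n => (n * 4 + 1) + ((n * 5 + 1) + ((n * 4 + 1) +
    ((n * ((1 + (B n + C (B n) + B n + 2)) + 1) + 1) + (B n * 4 + 1)))), by fun_prop, ?_⟩
  rintro x z ⟨F, rfl, rfl, hR, hlenF⟩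
  rw [st_init, st_init]
  have s1 := run_mv (R := one R) (C := C) (a := (0 : Fin 5)) (b := 1) (by decide)
    (st (F 0) [] [] [] [])
  simp only [st_0, update_st_0, st_1, List.append_nil, update_st_1] at s1
  have s2 := run_mvd (R := one R) (C := C) (a := (1 : Fin 5)) (b := 0) (c := 2) (by decide)
    (by decide) (by decide) (st [] (F 0).reverse [] [] [])
  simp only [st_0, update_st_0, st_1, List.append_nil, update_st_1, st_2, update_st_2,
    List.reverse_reverse, List.length_reverse] at s2
  have s3 := run_mv (R := one R) (C := C) (a := (0 : Fin 5)) (b := 1) (by decide)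
    (st (F 0) [] (F 0) [] [])
  simp only [st_0, update_st_0, st_1, List.append_nil, update_st_1] at s3
  have s4 := runsIn_loop (R := one R) (C := C) (c := Option.isSome) (v := (2 : Fin 5))
    (p := .seq (.pop 2) (.call () 1 1)) (F 0).length
    (fun i => st [] (F i).reverse ((F 0).drop i) [] [])
    (1 + (B (F 0).length + C (B (F 0).length) + B (F 0).length + 2))
    (by simp) (by simp) (by
      intro i hi
      have t1 := run_pop (R := one R) (C := C) (2 : Fin 5)
        (st [] (F i).reverse ((F 0).drop i) [] [])
      simp only [st_2, update_st_2, List.tail_drop] at t1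
      have t2 := run_call (R := one R) (C := C) (i := ()) (a := (1 : Fin 5)) (b := 1)
        (S := st [] (F i).reverse ((F 0).drop (i + 1)) [] []) (y := F (i + 1))
        (by simpa [one] using hR i hi)
      simp only [st_1, update_st_1, List.append_nil, List.length_reverse] at t2
      have h1 := hlenF i hi.le
      have h2 := hlenF (i + 1) hi
      have h3 := hCm h1
      exact (t1.seq t2).mono (by omega))
  simp only [List.drop_zero, List.drop_length] at s4
  have s5 := run_mv (R := one R) (C := C) (a := (1 : Fin 5)) (b := 0) (by decide)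
    (st [] (F (F 0).length).reverse [] [] [])
  simp only [st_0, update_st_0, st_1, List.append_nil, update_st_1, List.reverse_reverse,
    List.length_reverse] at s5
  have h6 := hlenF (F 0).length le_rfl
  exact (s1.seq (s2.seq (s3.seq (s4.seq s5)))).mono (by beta_reduce; omega)

/-! ## Quoting -/

/-- the encoding of a word as a list of bits -/
def quote (l : List Bool) : List Bool := l.flatMap fun b => [true, b, false]

theorem quote_length (l : List Bool) : (quote l).length = 3 * l.length := by
  induction l with
  | nil => rfl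
  | cons b l ih => simp [quote] at ih ⊢; omega

theorem PT.quote : PT fun x z => z = quote x := by
  refine PT.of_prog (V := Fin 5) (R := noR) (fun i => i.elim)
    (.seq (mv 0 1) (.loop Option.isSome 1 (.seq (.push 0 false) (.seq (mv1 1 0)
      (.push 0 true))))) 0 0 ?_
  intro C hC hCm hlen
  refine ⟨fun n => (n * 4 + 1) + (n * 6 + 1), by fun_prop, ?_⟩
  rintro x z rfl
  rw [st_init, st_init]
  have s1 := run_mv (R := noR) (C := C) (a := (0 : Fin 5)) (b := 1) (by decide)
    (st x [] [] [] [])
  simp only [st_0, update_st_0, st_1, List.append_nil, update_st_1] at s1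
  have key : ∀ l a : List Bool, RunsIn noR C (.loop Option.isSome 1 (.seq (.push 0 false)
      (.seq (mv1 1 0) (.push 0 true)))) (st a l [] [] [])
      (st (Helper22.quote l.reverse ++ a) [] [] [] []) (l.length * 6 + 1) := by
    intro l
    induction l with
    | nil => intro a; exact (RunsIn.loopStop (by simp)).mono (by simp)
    | cons b l ih =>
      intro a
      have t1 := run_push (R := noR) (C := C) (0 : Fin 5) false (st a (b :: l) [] [] [])
      simp only [st_0, update_st_0] at t1
      have t2 := run_mv1 (R := noR) (C := C) (a := (1 : Fin 5)) (b := 0)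
        (S := st (false :: a) (b :: l) [] [] []) (x := b) (l := l) (by simp)
      simp only [update_st_0, st_0, update_st_1] at t2
      have t3 := run_push (R := noR) (C := C) (0 : Fin 5) true (st (b :: false :: a) l [] [] [])
      simp only [st_0, update_st_0] at t3
      refine ((RunsIn.loopStep (by simp) (t1.seq (t2.seq t3)) (ih _)).mono
        (by simp; omega)).congr ?_
      simp [Helper22.quote]
  have s2 := key x.reverse []
  exact (s1.seq (s2.congr (by simp))).mono (by simp)

theorem PT.unquote : PT fun x z => x = Helper22.quote z := by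
  refine PT.of_prog (V := Fin 5) (R := noR) (fun i => i.elim)
    (.seq (.loop Option.isSome 0 (.seq (.pop 0) (.seq (mv1 0 1) (.pop 0)))) (mv 1 0)) 0 0 ?_
  intro C hC hCm hlen
  refine ⟨fun n => (n * 6 + 1) + (n * 4 + 1), by fun_prop, ?_⟩
  rintro x z rfl
  rw [st_init, st_init]
  have key : ∀ l a : List Bool, RunsIn noR C (.loop Option.isSome 0 (.seq (.pop 0)
      (.seq (mv1 0 1) (.pop 0)))) (st (Helper22.quote l) a [] [] [])
      (st [] (l.reverse ++ a) [] [] []) (l.length * 6 + 1) := by
    intro l
    induction l with
    | nil => intro a; exact (RunsIn.loopStop (by simp [Helper22.quote])).mono (by simp)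
    | cons b l ih =>
      intro a
      have e1 : Helper22.quote (b :: l) = true :: b :: false :: Helper22.quote l := by
        simp [Helper22.quote]
      rw [e1]
      have t1 := run_pop (R := noR) (C := C) (0 : Fin 5)
        (st (true :: b :: false :: Helper22.quote l) a [] [] [])
      simp only [st_0, update_st_0, List.tail_cons] at t1
      have t2 := run_mv1 (R := noR) (C := C) (a := (0 : Fin 5)) (b := 1)
        (S := st (b :: false :: Helper22.quote l) a [] [] []) (x := b)
        (l := false :: Helper22.quote l) (by simp)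
      simp only [update_st_0, st_1, update_st_1] at t2
      have t3 := run_pop (R := noR) (C := C) (0 : Fin 5)
        (st (false :: Helper22.quote l) (b :: a) [] [] [])
      simp only [st_0, update_st_0, List.tail_cons] at t3
      refine ((RunsIn.loopStep (by simp) (t1.seq (t2.seq t3)) (ih _)).mono
        (by simp; omega)).congr ?_
      simp
  have s1 := key z []
  have s2 := run_mv (R := noR) (C := C) (a := (1 : Fin 5)) (b := 0) (by decide)
    (st [] z.reverse [] [] [])
  simp only [st_0, update_st_0, st_1, List.append_nil, update_st_1, List.reverse_reverse,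
    List.length_reverse] at s2
  refine ((s1.congr (by simp)).seq s2).mono ?_
  simp only [quote_length]
  omega

end Pool.Agent.Helper22
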