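import Mathlib
import Pool.Agent.Helper22.Closure

set_option autoImplicit false

/-!
# Polynomial time functions between encoded types

`FP f` is equivalent to the frozen `IsPolyTime f` (`isPolyTime_iff`).
-/

namespace Pool.Agent.Helper22

open Turing Function N487b59b3 N68a2faeb

/-- polynomial time functions between encoded types -/
def FP {α β : Type} [N487b59b3 α] [N487b59b3 β] (f : α → β) : Prop :=
  PT fun x z => ∃ a, x = bitEncode a ∧ z = bitEncode (f a)

theorem isPolyTime_iff {α β : Type} [N487b59b3 α] [N487b59b3 β] (f : α → β) :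
    IsPolyTime f ↔ FP f := by
  constructor
  · rintro ⟨M⟩
    refine ⟨M.toTM2ComputableAux, fun n => M.time.eval n, PB.poly _, ?_⟩
    rintro x z ⟨a, rfl, rfl⟩
    have h := M.outputsFun a
    refine ⟨h.steps, h.steps_le_m, ?_⟩
    rw [reach_iff]
    exact h.evals_in_steps
  · rintro ⟨M, C, ⟨p, hp⟩, hM⟩
    refine ⟨⟨M, p, fun a => ?_⟩⟩
    have h := hM (bitEncode a) (bitEncode (f a)) ⟨a, rfl, rfl⟩
    refine ⟨⟨h.choose, ?_⟩, h.choose_spec.1.trans (hp _)⟩
    exact reach_iff.1 h.choose_spec.2

/-- length of the code of an object -/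
def sz {α : Type} [N487b59b3 α] (a : α) : ℕ := (bitEncode a).length

section

variable {α β γ δ : Type} [N487b59b3 α] [N487b59b3 β] [N487b59b3 γ] [N487b59b3 δ]

theorem enc_pair (a : α) (b : β) : bitEncode (a, b) = delimit (bitEncode a) ++ bitEncode b := rfl

theorem enc_nil : bitEncode ([] : List α) = [] := rfl

theorem enc_cons (a : α) (l : List α) :
    bitEncode (a :: l) = delimit (bitEncode a) ++ bitEncode l := rfl

theorem enc_bool (b : Bool) : bitEncode b = [b] := rfl

theorem enc_bits (l : List Bool) : bitEncode l = quote l := by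
  induction l with
  | nil => rfl
  | cons b l ih => rw [enc_cons, ih]; simp [enc_bool, delimit, quote]

@[simp] theorem sz_pair (a : α) (b : β) : sz (a, b) = 2 * sz a + 1 + sz b := by
  simp [sz, enc_pair]

@[simp] theorem sz_nil : sz ([] : List α) = 0 := rfl

@[simp] theorem sz_cons (a : α) (l : List α) : sz (a :: l) = 2 * sz a + 1 + sz l := by
  simp [sz, enc_cons]

@[simp] theorem sz_bool (b : Bool) : sz b = 1 := rfl

@[simp] theorem sz_bits (l : List Bool) : sz l = 3 * l.length := by
  simp [sz, enc_bits, quote_length]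

theorem length_le_sz (l : List α) : l.length ≤ sz l := by
  induction l with
  | nil => simp
  | cons a l ih => simp; omega

theorem FP.bound {f : α → β} (h : FP f) : ∃ B, PB B ∧ Monotone B ∧ ∀ a, sz (f a) ≤ B (sz a) := by
  obtain ⟨M, C, hC, hCm, hM⟩ := PT.exists_bound h
  exact ⟨C, hC, hCm, fun a => (hM _ _ ⟨a, rfl, rfl⟩).1⟩

theorem FP.id : FP fun a : α => a :=
  PT.id.mono (by rintro x y ⟨a, rfl, rfl⟩; rfl)

theorem FP.comp {g : β → γ} {f : α → β} (hg : FP g) (hf : FP f) : FP fun a => g (f a) :=
  (PT.comp hf hg).mono (by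
    rintro x y ⟨a, rfl, rfl⟩
    exact ⟨bitEncode (f a), ⟨a, rfl, rfl⟩, ⟨f a, rfl, rfl⟩⟩)

theorem FP.const (b : β) : FP fun _ : α => b :=
  (PT.const (bitEncode b)).mono (by rintro x y ⟨a, rfl, rfl⟩; rfl)

theorem FP.pair {f : α → β} {g : α → γ} (hf : FP f) (hg : FP g) : FP fun a => (f a, g a) :=
  (PT.pair hf hg).mono (by
    rintro x y ⟨a, rfl, rfl⟩
    exact ⟨bitEncode (f a), bitEncode (g a), ⟨a, rfl, rfl⟩, ⟨a, rfl, rfl⟩, rfl⟩)

theorem FP.fst : FP fun p : α × β => p.1 :=
  PT.fst.mono (by
    rintro x y ⟨⟨a, b⟩, rfl, rfl⟩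
    exact ⟨bitEncode b, rfl⟩)

theorem FP.snd : FP fun p : α × β => p.2 :=
  PT.snd.mono (by
    rintro x y ⟨⟨a, b⟩, rfl, rfl⟩
    exact ⟨bitEncode a, rfl⟩)

theorem FP.fst' {f : α → β × γ} (hf : FP f) : FP fun a => (f a).1 := FP.fst.comp hf

theorem FP.snd' {f : α → β × γ} (hf : FP f) : FP fun a => (f a).2 := FP.snd.comp hf

theorem FP.ite {c : α → Bool} {f g : α → β} (hc : FP c) (hf : FP f) (hg : FP g) :
    FP fun a => if c a then f a else g a :=
  (PT.ite hc hf hg).mono (by
    rintro x y ⟨a, rfl, rfl⟩
    cases h : c a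
    · exact Or.inr ⟨⟨a, rfl, by rw [h, enc_bool]⟩, ⟨a, rfl, by simp [h]⟩⟩
    · exact Or.inl ⟨⟨a, rfl, by rw [h, enc_bool]⟩, ⟨a, rfl, by simp [h]⟩⟩)

theorem FP.not {c : α → Bool} (hc : FP c) : FP fun a => !(c a) := by
  have := hc.ite (FP.const (α := α) false) (FP.const true)
  refine (congrArg FP (funext fun a => ?_)).mp this
  cases c a <;> simp

theorem FP.and {c d : α → Bool} (hc : FP c) (hd : FP d) : FP fun a => c a && d a := by
  have := hc.ite hd (FP.const false)
  refine (congrArg FP (funext fun a => ?_)).mp this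
  cases c a <;> simp

theorem FP.or {c d : α → Bool} (hc : FP c) (hd : FP d) : FP fun a => c a || d a := by
  have := hc.ite (FP.const true) hd
  refine (congrArg FP (funext fun a => ?_)).mp this
  cases c a <;> simp

theorem FP.beq {c d : α → Bool} (hc : FP c) (hd : FP d) : FP fun a => c a == d a := by
  have := hc.ite hd hd.not
  refine (congrArg FP (funext fun a => ?_)).mp this
  cases c a <;> cases d a <;> simp

/-! ## Lists -/

theorem FP.cons {f : α → β} {g : α → List β} (hf : FP f) (hg : FP g) :
    FP fun a => f a :: g a := hf.pair hg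

theorem FP.isEmpty {f : α → List β} (hf : FP f) : FP fun a => (f a).isEmpty := by
  have h : FP fun l : List β => l.isEmpty := by
    refine PT.isNil.mono ?_
    rintro x y ⟨l, rfl, rfl⟩
    cases l with
    | nil => rfl
    | cons a l =>
      rw [enc_cons, enc_bool]
      have : (delimit (bitEncode a) ++ bitEncode l).isEmpty = false := by
        rw [delimit_eq]; simp
      rw [this]; rfl
  exact h.comp hf

theorem FP.tail {f : α → List β} (hf : FP f) : FP fun a => (f a).tail := by
  have h : FP fun l : List β => l.tail := by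
    refine (PT.ite PT.isNil (PT.const []) PT.snd).mono ?_
    rintro x y ⟨l, rfl, rfl⟩
    cases l with
    | nil => exact Or.inl ⟨rfl, rfl⟩
    | cons a l =>
      refine Or.inr ⟨?_, bitEncode a, rfl⟩
      rw [enc_cons, delimit_eq]; simp
  exact h.comp hf

theorem FP.headD {f : α → List β} (hf : FP f) (d : β) : FP fun a => (f a).headD d := by
  have h : FP fun l : List β => l.headD d := by
    refine (PT.ite PT.isNil (PT.const (bitEncode d)) PT.fst).mono ?_
    rintro x y ⟨l, rfl, rfl⟩
    cases l with
    | nil => exact Or.inl ⟨rfl, rfl⟩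
    | cons a l =>
      refine Or.inr ⟨?_, bitEncode l, rfl⟩
      rw [enc_cons, delimit_eq]; simp
  exact h.comp hf

/-! ## Iteration -/

theorem FP.iter {f : α → α} (hf : FP f) {B : ℕ → ℕ} (hB : PB B)
    (hsz : ∀ a, ∀ i ≤ sz a, sz (f^[i] a) ≤ B (sz a)) : FP fun a => f^[sz a] a := by
  refine (PT.iter hf hB).mono ?_
  rintro x y ⟨a, rfl, rfl⟩
  refine ⟨fun i => bitEncode (f^[i] a), rfl, rfl, fun i _ => ⟨f^[i] a, rfl, ?_⟩, fun i hi =>
    hsz a i hi⟩
  change bitEncode (f^[i + 1] a) = _
  rw [Function.iterate_succ_apply']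

/-- iterate a step as long as a list is nonempty, popping it -/
theorem iter_pop {f : List β × α → α} (l : List β) (a : α) (n : ℕ) (hn : l.length ≤ n) :
    (fun p : List β × α => if p.1.isEmpty then p else (p.1.tail, f p))^[n] (l, a) =
    (fun p : List β × α => (p.1.tail, f p))^[l.length] (l, a) := by
  induction l generalizing a n with
  | nil =>
    simp only [List.length_nil, Function.iterate_zero, id]
    exact Function.iterate_fixed (by simp) n
  | cons b l ih =>
    cases n with
    | zero => simp at hn
    | succ n =>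
      rw [List.length_cons, Function.iterate_succ_apply, Function.iterate_succ_apply]
      simp only [List.isEmpty_cons, Bool.false_eq_true, if_false, List.tail_cons]
      exact ih _ _ (by simpa using hn)

/-- the fold of a step function along a list, the step seeing the whole remaining list -/
def loopList (f : List β × α → α) : List β → α → α
  | [], a => a
  | b :: l, a => loopList f l (f (b :: l, a))

theorem iter_pop_eq {f : List β × α → α} (l : List β) (a : α) :
    (fun p : List β × α => (p.1.tail, f p))^[l.length] (l, a) = ([], loopList f l a) := by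
  induction l generalizing a with
  | nil => rfl
  | cons b l ih =>
    rw [List.length_cons, Function.iterate_succ_apply]
    simpa [loopList] using ih (f (b :: l, a))

theorem FP.loopList {f : List β × α → α} (hf : FP f) {B : ℕ → ℕ} (hB : PB B)
    (hsz : ∀ l a, ∀ i ≤ List.length l,
      sz ((fun p : List β × α => (p.1.tail, f p))^[i] (l, a)).2 ≤ B (sz (l, a))) :
    FP fun p : List β × α => Helper22.loopList f p.1 p.2 := by
  have hstep : FP fun p : List β × α => if p.1.isEmpty then p else (p.1.tail, f p) :=
    FP.ite (FP.isEmpty FP.fst) FP.id (FP.pair (FP.tail FP.fst) hf)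
  have key : ∀ (l : List β) (a : α) (i : ℕ),
      ∃ j ≤ l.length, (fun p : List β × α => if p.1.isEmpty then p else (p.1.tail, f p))^[i] (l, a)
        = (fun p : List β × α => (p.1.tail, f p))^[j] (l, a) := by
    intro l a i
    rcases le_total l.length i with h | h
    · exact ⟨l.length, le_rfl, iter_pop l a i h⟩
    · refine ⟨i, h, ?_⟩
      induction i generalizing l a with
      | zero => rfl
      | succ i ih =>
        cases l with
        | nil => simp at h
        | cons b l =>
          rw [Function.iterate_succ_apply, Function.iterate_succ_apply]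
          simp only [List.isEmpty_cons, Bool.false_eq_true, if_false, List.tail_cons]
          exact ih _ _ (by simpa using h)
  have hfst : ∀ (l : List β) (a : α) (j : ℕ),
      ((fun p : List β × α => (p.1.tail, f p))^[j] (l, a)).1 = l.drop j := by
    intro l a j
    induction j generalizing l a with
    | zero => rfl
    | succ j ih =>
      rw [Function.iterate_succ_apply, ih]
      simp
  have hdrop : ∀ (l : List β) (j : ℕ), sz (l.drop j) ≤ sz l := by
    intro l
    induction l with
    | nil => intro j; simp
    | cons b l ih =>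
      intro j
      cases j with
      | zero => simp
      | succ j => simp only [List.drop_succ_cons, sz_cons]; have := ih j; omega
  have h := FP.iter hstep (B := fun n => 2 * n + 1 + B n) (by fun_prop) (by
    rintro ⟨l, a⟩ i -
    obtain ⟨j, hj, e⟩ := key l a i
    rw [e]
    have h1 := hsz l a j hj
    have h2 := hfst l a j
    have h3 := hdrop l j
    rcases hq : (fun p : List β × α => (p.1.tail, f p))^[j] (l, a) with ⟨l', a'⟩
    rw [hq] at h1 h2
    simp only [sz_pair] at *
    subst h2
    omega)
  refine (congrArg FP (funext fun p => ?_)).mp (FP.snd.comp h)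
  obtain ⟨l, a⟩ := p
  have h1 : l.length ≤ sz (l, a) := by
    have := length_le_sz l
    simp only [sz_pair]; omega
  simp only [iter_pop l a _ h1, iter_pop_eq]

end

end Pool.Agent.Helper22
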