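import Mathlib
import Pool.Agent.Helper22.Typed

set_option autoImplicit false

/-!
# More polynomial time functions
-/

namespace Pool.Agent.Helper22

open Turing Function N487b59b3 N68a2faeb

attribute [fun_prop] FP FP.id FP.const FP.comp FP.pair FP.fst' FP.snd' FP.ite FP.not FP.and FP.or
  FP.beq FP.cons FP.isEmpty FP.tail FP.headD

section

variable {α β γ δ : Type} [N487b59b3 α] [N487b59b3 β] [N487b59b3 γ] [N487b59b3 δ]

/-! ## Iteration with a clock, folds -/

theorem loopList_const (f : α → α) (l : List β) (a : α) :
    loopList (fun p : List β × α => f p.2) l a = f^[l.length] a := by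
  induction l generalizing a with
  | nil => rfl
  | cons b l ih => rw [loopList, ih, List.length_cons, Function.iterate_succ_apply]

theorem iter_snd (f : α → α) (l : List β) (a : α) (i : ℕ) :
    ((fun p : List β × α => (p.1.tail, f p.2))^[i] (l, a)).2 = f^[i] a := by
  induction i generalizing l a with
  | zero => rfl
  | succ i ih => rw [Function.iterate_succ_apply, ih, ← Function.iterate_succ_apply (f := f)]

/-- iterate `f` as many times as the length of the clock -/
theorem FP.iterate {f : α → α} (hf : FP f) {B : ℕ → ℕ} (hB : PB B)
    (hsz : ∀ (l : List β) (a : α), ∀ i ≤ l.length, sz (f^[i] a) ≤ B (sz l + sz a)) :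
    FP fun p : List β × α => f^[p.1.length] p.2 := by
  obtain ⟨B', hB', hm, hle⟩ := hB.exists_mono
  have h := FP.loopList (β := β) (f := fun p : List β × α => f p.2) (by fun_prop) hB' (by
    intro l a i hi
    rw [iter_snd]
    refine (hsz l a i hi).trans ((hle _).trans (hm ?_))
    simp only [sz_pair]; omega)
  simpa only [loopList_const] using h

theorem loopList_foldl (g : α → β → α) (d : β) (l : List β) (a : α) :
    loopList (fun p : List β × α => g p.2 (p.1.headD d)) l a = l.foldl g a := by
  induction l generalizing a with
  | nil => rfl
  | cons b l ih => rw [loopList, ih]; rfl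

theorem iter_foldl (g : α → β → α) (d : β) (l : List β) (a : α) (i : ℕ) (hi : i ≤ l.length) :
    ((fun p : List β × α => (p.1.tail, g p.2 (p.1.headD d)))^[i] (l, a)).2 =
      (l.take i).foldl g a := by
  induction i generalizing l a with
  | zero => rfl
  | succ i ih =>
    cases l with
    | nil => simp at hi
    | cons b l =>
      rw [Function.iterate_succ_apply]
      simpa using ih l (g a b) (by simpa using hi)

theorem sz_take (l : List β) (i : ℕ) : sz (l.take i) ≤ sz l := by
  induction l generalizing i with
  | nil => simp
  | cons b l ih =>
    cases i with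
    | zero => simp
    | succ i => simp only [List.take_succ_cons, sz_cons]; have := ih i; omega

theorem sz_drop (l : List β) (i : ℕ) : sz (l.drop i) ≤ sz l := by
  induction l generalizing i with
  | nil => simp
  | cons b l ih =>
    cases i with
    | zero => simp
    | succ i => simp only [List.drop_succ_cons, sz_cons]; have := ih i; omega

theorem FP.foldl [Inhabited β] {g : α → β → α} (hg : FP fun p : α × β => g p.1 p.2) {B : ℕ → ℕ}
    (hB : PB B) (hsz : ∀ (l : List β) (a : α), sz (l.foldl g a) ≤ B (sz l + sz a)) :
    FP fun p : List β × α => p.1.foldl g p.2 := by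
  obtain ⟨B', hB', hm, hle⟩ := hB.exists_mono
  have h := FP.loopList (β := β) (f := fun p : List β × α => g p.2 (p.1.headD default))
    (hg.comp (FP.pair (by fun_prop) (FP.headD (by fun_prop) _))) hB' (by
    intro l a i hi
    rw [iter_foldl g default l a i hi]
    refine (hsz (l.take i) a).trans ((hle _).trans (hm ?_))
    have := sz_take l i
    simp only [sz_pair]; omega)
  simpa only [loopList_foldl] using h

/-! ## Append -/

theorem PT.append : PT fun x z => ∃ a b, x = delimit a ++ b ∧ z = a ++ b := by
  refine PT.of_prog (V := Fin 5) (R := noR) (fun i => i.elim)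
    (.seq (.loop (fun o => o == some true) 0 (.seq (.pop 0) (mv1 0 1)))
      (.seq (.pop 0) (mv 1 0))) 0 0 ?_
  intro C hC hCm hlen
  refine ⟨fun n => (n * 5 + 1) + (1 + (n * 4 + 1)), by fun_prop, ?_⟩
  rintro x z ⟨a, b, rfl, rfl⟩
  rw [st_init, st_init, delimit_eq]
  have s1 := run_undl (R := noR) (C := C) a b [] [] [] []
  have s2 := run_pop (R := noR) (C := C) (0 : Fin 5) (st (false :: b) (a.reverse ++ []) [] [] [])
  simp only [st_0, update_st_0, List.append_nil, List.tail_cons] at s2
  have s3 := run_mv (R := noR) (C := C) (a := (1 : Fin 5)) (b := 0) (by decide)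
    (st b a.reverse [] [] [])
  simp only [st_1, st_0, update_st_0, update_st_1, List.reverse_reverse,
    List.length_reverse] at s3
  simp only [List.append_nil] at s1
  have h := s1.seq (s2.seq s3)
  refine RunsIn.mono (by simpa using h) ?_
  simp only [List.length_append, dl_length, List.length_cons, List.length_nil]
  omega

theorem enc_append (l l' : List α) : bitEncode (l ++ l') = bitEncode l ++ bitEncode l' := by
  induction l with
  | nil => rfl
  | cons a l ih => rw [List.cons_append, enc_cons, enc_cons, ih, List.append_assoc]

@[simp] theorem sz_append (l l' : List α) : sz (l ++ l') = sz l + sz l' := by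
  simp [sz, enc_append]

@[fun_prop]
theorem FP.append {f g : α → List β} (hf : FP f) (hg : FP g) : FP fun a => f a ++ g a := by
  have h : FP fun p : List β × List β => p.1 ++ p.2 := by
    refine PT.append.mono ?_
    rintro x y ⟨⟨l, l'⟩, rfl, rfl⟩
    exact ⟨bitEncode l, bitEncode l', rfl, enc_append l l'⟩
  exact h.comp (hf.pair hg)

/-! ## Lengths -/

theorem tail_iterate (l : List α) (n : ℕ) : List.tail^[n] l = l.drop n := by
  induction n generalizing l with
  | zero => rfl
  | succ n ih => rw [Function.iterate_succ_apply, ih, List.drop_tail]

@[fun_prop]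
theorem FP.drop {f : α → List β} {g : α → List γ} (hf : FP f) (hg : FP g) :
    FP fun a => (f a).drop (g a).length := by
  have h : FP fun p : List γ × List β => List.tail^[p.1.length] p.2 :=
    FP.iterate (f := List.tail) (by fun_prop) (B := fun n => n) (by fun_prop) (by
      intro l a i _
      rw [tail_iterate]
      have := sz_drop a i
      omega)
  simp only [tail_iterate] at h
  exact h.comp (hg.pair hf)

@[fun_prop]
theorem FP.length_le {f : α → List β} {g : α → List γ} (hf : FP f) (hg : FP g) :
    FP fun a => decide ((f a).length ≤ (g a).length) := by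
  have h : FP fun a => ((f a).drop (g a).length).isEmpty := by fun_prop
  refine (congrArg FP (funext fun a => ?_)).mp h
  rw [Bool.eq_iff_iff]
  simp

/-- unary number -/
def un (n : ℕ) : List Bool := List.replicate n true

@[simp] theorem un_length (n : ℕ) : (un n).length = n := by simp [un]

theorem un_add (m n : ℕ) : un (m + n) = un m ++ un n := by
  rw [un, List.replicate_add]; rfl

theorem FP.unMul {f g : α → List Bool} (hf : FP f) (hg : FP g) :
    FP fun a => un ((f a).length * (g a).length) := by
  have h : FP fun p : List Bool × (List Bool × List Bool) =>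
      ((fun q : List Bool × List Bool => (q.1, q.1 ++ q.2))^[p.1.length] p.2).2 := by
    refine FP.snd.comp (FP.iterate (f := fun q : List Bool × List Bool => (q.1, q.1 ++ q.2))
      (by fun_prop) (B := fun n => n * n + 2 * n + 1) (by fun_prop) ?_)
    intro l a i hi
    obtain ⟨x, y⟩ := a
    have key : ∀ i, (fun q : List Bool × List Bool => (q.1, q.1 ++ q.2))^[i] (x, y) =
        (x, (List.replicate i x).flatten ++ y) := by
      intro i
      induction i with
      | zero => rfl
      | succ i ih =>
        rw [Function.iterate_succ_apply', ih]
        simp [List.replicate_succ]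
    rw [key]
    simp only [sz_pair, sz_bits, List.length_append, List.length_flatten, List.map_replicate,
      List.sum_replicate, smul_eq_mul]
    have h1 : i * x.length ≤ l.length * x.length := Nat.mul_le_mul_right _ hi
    have h2 : 3 * (l.length * x.length) ≤ (3 * l.length) * (2 * (3 * x.length)) := by nlinarith
    nlinarith
  have h2 := h.comp (hg.pair (FP.pair
    (g := fun _ => ([] : List Bool)) (f := fun a => (un (f a).length)) ?_ (by fun_prop)))
  · refine (congrArg FP (funext fun a => ?_)).mp h2
    have key : ∀ (i : ℕ) (x : List Bool),
        ((fun q : List Bool × List Bool => (q.1, q.1 ++ q.2))^[i] (x, [])) =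
        (x, (List.replicate i x).flatten) := by
      intro i x
      induction i with
      | zero => rfl
      | succ i ih =>
        rw [Function.iterate_succ_apply', ih]
        simp [List.replicate_succ]
    simp only [key]
    have h5 : ∀ m n : ℕ, (List.replicate m (un n)).flatten = un (n * m) := by
      intro m n
      induction m with
      | zero => rfl
      | succ m ih => rw [List.replicate_succ, List.flatten_cons, ih, ← un_add]; congr 1; ring
    exact h5 _ _
  · have h3 : FP fun p : List Bool × List Bool =>
        (fun q : List Bool => true :: q)^[p.1.length] p.2 := by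
      refine FP.iterate (f := fun q : List Bool => true :: q)
        (by fun_prop) (B := fun n => 3 * n) (by fun_prop) ?_
      intro l a i hi
      have : ((fun q : List Bool => true :: q)^[i] a).length = i + a.length := by
        induction i with
        | zero => simp
        | succ i ih =>
          rw [Function.iterate_succ_apply', List.length_cons, ih (by omega)]; omega
      simp only [sz_bits, this]
      omega
    have h4 := h3.comp (hf.pair (FP.const ([] : List Bool)))
    refine (congrArg FP (funext fun a => ?_)).mp h4
    simp only
    generalize (f a).length = n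
    induction n with
    | zero => rfl
    | succ n ih => rw [Function.iterate_succ_apply', ih]; rfl

@[fun_prop]
theorem FP.un_length {f : α → List β} (hf : FP f) : FP fun a => un (f a).length := by
  have h3 : FP fun p : List β × List Bool => (fun q : List Bool => true :: q)^[p.1.length] p.2 := by
    refine FP.iterate (f := fun q : List Bool => true :: q)
      (by fun_prop) (B := fun n => 3 * n) (by fun_prop) ?_
    intro l a i hi
    have : ((fun q : List Bool => true :: q)^[i] a).length = i + a.length := by
      clear hi
      induction i with
      | zero => simp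
      | succ i ih => rw [Function.iterate_succ_apply', List.length_cons, ih]; omega
    have := length_le_sz l
    simp only [sz_bits, *]
    omega
  have h4 := h3.comp (hf.pair (FP.const ([] : List Bool)))
  refine (congrArg FP (funext fun a => ?_)).mp h4
  simp only
  generalize (f a).length = n
  induction n with
  | zero => rfl
  | succ n ih => rw [Function.iterate_succ_apply', ih]; rfl

theorem FP.un_poly {f : α → List β} (hf : FP f) (p : Polynomial ℕ) :
    FP fun a => un (p.eval (f a).length) := by
  induction p using Polynomial.induction_on' with
  | add p q hp hq =>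
    simp only [Polynomial.eval_add, un_add]
    exact hp.append hq
  | monomial n c =>
    simp only [Polynomial.eval_monomial]
    induction n with
    | zero => simpa using FP.const (un c)
    | succ n ih =>
      have := FP.unMul ih (FP.un_length hf)
      simp only [Helper22.un_length] at this
      refine (congrArg FP (funext fun a => ?_)).mp this
      congr 1
      ring

/-! ## Coding pairs of words as words -/

/-- pairing of words -/
def cd (a b : List Bool) : List Bool := delimit a ++ b

/-- first component of a coded pair -/
def cf : List Bool → List Bool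
  | true :: b :: l => b :: cf l
  | _ => []

/-- second component of a coded pair -/
def cs : List Bool → List Bool
  | true :: _ :: l => cs l
  | [true] => []
  | false :: l => l
  | [] => []

@[simp] theorem cf_cd (a b : List Bool) : cf (cd a b) = a := by
  induction a with
  | nil => simp [cd, delimit, cf]
  | cons x a ih => simpa [cd, delimit, cf] using ih

@[simp] theorem cs_cd (a b : List Bool) : cs (cd a b) = b := by
  induction a with
  | nil => simp [cd, delimit, cs]
  | cons x a ih => simpa [cd, delimit, cs] using ih

theorem cd_length (a b : List Bool) : (cd a b).length = 2 * a.length + 1 + b.length := by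
  simp [cd]

/-- functions on raw words -/
theorem FP.of_raw {g : List Bool → List Bool} (h : PT fun x z => z = g x) : FP g := by
  have := (PT.comp PT.unquote (PT.comp h PT.quote))
  refine this.mono ?_
  rintro x z ⟨a, rfl, rfl⟩
  exact ⟨a, enc_bits a, g a, rfl, enc_bits _⟩

theorem FP.to_raw {g : List Bool → List Bool} (h : FP g) : PT fun x z => z = g x := by
  have := (PT.comp PT.quote (PT.comp h PT.unquote))
  refine this.mono ?_
  rintro x z rfl
  exact ⟨bitEncode x, enc_bits x, bitEncode (g x), ⟨x, rfl, rfl⟩, enc_bits _⟩

theorem FP.cf' : FP cf := by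
  refine FP.of_raw ?_
  refine PT.of_prog (V := Fin 5) (R := noR) (fun i => i.elim)
    (.seq (.loop (fun o => o == some true) 0 (.seq (.pop 0) (mv1 0 1)))
      (.seq (clr 0) (mv 1 0))) 0 0 ?_
  intro C hC hCm hlen
  refine ⟨fun n => (n * 5 + 1) + ((n * 2 + 1) + (n * 4 + 1)), by fun_prop, ?_⟩
  rintro x z rfl
  rw [st_init, st_init]
  have key : ∀ n : ℕ, ∀ x a : List Bool, x.length ≤ n →
      ∃ y : List Bool, y.length ≤ x.length ∧ RunsIn noR C
      (.loop (fun o => o == some true) 0 (.seq (.pop 0) (mv1 0 1)))
      (st x a [] [] []) (st y ((cf x).reverse ++ a) [] [] []) (x.length * 5 + 1) ∧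
      (cf x).length ≤ x.length := by
    intro n
    induction n with
    | zero =>
      intro x a hx
      have : x = [] := List.eq_nil_of_length_eq_zero (by omega)
      subst this
      exact ⟨[], le_rfl, (RunsIn.loopStop (by simp)).mono (by simp), by simp [cf]⟩
    | succ n ih =>
      intro x a hx
      match x, hx with
      | [], _ => exact ⟨[], le_rfl, (RunsIn.loopStop (by simp)).mono (by simp), by simp [cf]⟩
      | false :: l, _ =>
        exact ⟨false :: l, le_rfl, ((RunsIn.loopStop (by simp)).mono (by simp)), by simp [cf]⟩
      | [true], _ =>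
        refine ⟨[], by simp, ?_, by simp [cf]⟩
        have t1 := run_pop (R := noR) (C := C) (0 : Fin 5) (st [true] a [] [] [])
        simp only [st_0, update_st_0, List.tail_cons] at t1
        have t2 : RunsIn noR C (mv1 0 1) (st [] a [] [] []) (st [] a [] [] []) 2 :=
          (RunsIn.caseN rfl (Run.skip _).runsIn)
        have t3 : RunsIn noR C (.loop (fun o => o == some true) 0 (.seq (.pop 0) (mv1 0 1)))
          (st [] a [] [] []) (st [] a [] [] []) 1 := RunsIn.loopStop (by simp)
        exact ((RunsIn.loopStep (by simp) (t1.seq t2) t3).mono (by simp)).congr (by simp [cf])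
      | true :: b :: l, hx =>
        obtain ⟨y, hy, hr, hl⟩ := ih l (b :: a) (by simp at hx; omega)
        refine ⟨y, by simp; omega, ?_, by simp [cf]; omega⟩
        have t1 := run_pop (R := noR) (C := C) (0 : Fin 5) (st (true :: b :: l) a [] [] [])
        simp only [st_0, update_st_0, List.tail_cons] at t1
        have t2 := run_mv1 (R := noR) (C := C) (a := (0 : Fin 5)) (b := 1)
          (S := st (b :: l) a [] [] []) (x := b) (l := l) (by simp)
        simp only [update_st_0, st_1, update_st_1] at t2
        refine ((RunsIn.loopStep (by simp) (t1.seq t2) hr).mono (by simp; omega)).congr ?_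
        simp [cf]
  obtain ⟨y, hy, hr, hl⟩ := key x.length x [] le_rfl
  have s2 := run_clr (R := noR) (C := C) (0 : Fin 5) (st y ((cf x).reverse ++ []) [] [] [])
  simp only [st_0, update_st_0] at s2
  have s3 := run_mv (R := noR) (C := C) (a := (1 : Fin 5)) (b := 0) (by decide)
    (st [] ((cf x).reverse ++ []) [] [] [])
  simp only [st_1, st_0, update_st_0, update_st_1, List.append_nil, List.reverse_reverse,
    List.length_reverse] at s3
  simp only [List.append_nil] at hr s2
  exact (hr.seq (s2.seq s3)).mono (by beta_reduce; omega)

theorem FP.cs' : FP cs := by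
  refine FP.of_raw ?_
  refine PT.of_prog (V := Fin 5) (R := noR) (fun i => i.elim)
    (.seq (.loop (fun o => o == some true) 0 (.seq (.pop 0) (.pop 0))) (.pop 0)) 0 0 ?_
  intro C hC hCm hlen
  refine ⟨fun n => (n * 3 + 1) + 1, by fun_prop, ?_⟩
  rintro x z rfl
  rw [st_init, st_init]
  have key : ∀ n : ℕ, ∀ x : List Bool, x.length ≤ n →
      ∃ y : List Bool, y.tail = cs x ∧ RunsIn noR C
      (.loop (fun o => o == some true) 0 (.seq (.pop 0) (.pop 0)))
      (st x [] [] [] []) (st y [] [] [] []) (x.length * 3 + 1) := by
    intro n
    induction n with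
    | zero =>
      intro x hx
      have : x = [] := List.eq_nil_of_length_eq_zero (by omega)
      subst this
      exact ⟨[], by simp [cs], (RunsIn.loopStop (by simp)).mono (by simp)⟩
    | succ n ih =>
      intro x hx
      match x, hx with
      | [], _ => exact ⟨[], by simp [cs], (RunsIn.loopStop (by simp)).mono (by simp)⟩
      | false :: l, _ =>
        exact ⟨false :: l, by simp [cs], ((RunsIn.loopStop (by simp)).mono (by simp))⟩
      | [true], _ =>
        refine ⟨[], by simp [cs], ?_⟩
        have t1 := run_pop (R := noR) (C := C) (0 : Fin 5) (st [true] [] [] [] [])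
        simp only [st_0, update_st_0, List.tail_cons] at t1
        have t2 := run_pop (R := noR) (C := C) (0 : Fin 5) (st [] [] [] [] [])
        simp only [st_0, update_st_0, List.tail_nil] at t2
        have t3 : RunsIn noR C (.loop (fun o => o == some true) 0 (.seq (.pop 0) (.pop 0)))
          (st [] [] [] [] []) (st [] [] [] [] []) 1 := RunsIn.loopStop (by simp)
        exact ((RunsIn.loopStep (by simp) (t1.seq t2) t3).mono (by simp))
      | true :: b :: l, hx =>
        obtain ⟨y, hy, hr⟩ := ih l (by simp at hx; omega)
        refine ⟨y, by simp [cs, hy], ?_⟩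
        have t1 := run_pop (R := noR) (C := C) (0 : Fin 5) (st (true :: b :: l) [] [] [] [])
        simp only [st_0, update_st_0, List.tail_cons] at t1
        have t2 := run_pop (R := noR) (C := C) (0 : Fin 5) (st (b :: l) [] [] [] [])
        simp only [st_0, update_st_0, List.tail_cons] at t2
        exact ((RunsIn.loopStep (by simp) (t1.seq t2) hr).mono (by simp; omega))
  obtain ⟨y, hy, hr⟩ := key x.length x le_rfl
  have s2 := run_pop (R := noR) (C := C) (0 : Fin 5) (st y [] [] [] [])
  simp only [st_0, update_st_0, hy] at s2
  exact (hr.seq s2).mono (by simp)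

@[fun_prop]
theorem FP.cf {f : α → List Bool} (hf : FP f) : FP fun a => Helper22.cf (f a) := FP.cf'.comp hf

@[fun_prop]
theorem FP.cs {f : α → List Bool} (hf : FP f) : FP fun a => Helper22.cs (f a) := FP.cs'.comp hf

@[fun_prop]
theorem FP.cd {f g : α → List Bool} (hf : FP f) (hg : FP g) :
    FP fun a => Helper22.cd (f a) (g a) := by
  have h1 : FP fun p : List Bool × List Bool => Helper22.cd p.1 p.2 := by
    have hp := PT.comp (PT.pair (PT.comp PT.fst PT.unquote) (PT.comp PT.snd PT.unquote)) PT.quote
    refine hp.mono ?_
    rintro x z ⟨⟨a, b⟩, rfl, rfl⟩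
    exact ⟨delimit a ++ b, ⟨a, b, ⟨_, ⟨_, rfl⟩, enc_bits a⟩, ⟨_, ⟨_, rfl⟩, enc_bits b⟩, rfl⟩,
      enc_bits _⟩
  exact h1.comp (hf.pair hg)

end

end Pool.Agent.Helper22
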