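import Mathlib
import Pool.Agent.Helper22.Tools

set_option autoImplicit false

/-!
# More list operations in polynomial time
-/

namespace Pool.Agent.Helper22

open Turing Function N487b59b3 N68a2faeb

section

variable {α β γ δ : Type} [N487b59b3 α] [N487b59b3 β] [N487b59b3 γ] [N487b59b3 δ]

/-- one step of the computation of `take` -/
def takeStep (s : List β × List β) (d : β) : List β × List β :=
  if s.2.isEmpty then s else (s.1 ++ [s.2.headD d], s.2.tail)

theorem takeStep_iter (d : β) (l a : List β) (n : ℕ) :
    (fun s => takeStep s d)^[n] (a, l) = (a ++ l.take n, l.drop n) := by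
  induction n generalizing a l with
  | zero => simp
  | succ n ih =>
    rw [Function.iterate_succ_apply]
    cases l with
    | nil =>
      have h : takeStep (a, ([] : List β)) d = (a, []) := by simp [takeStep]
      simp only [h, ih, List.take_nil, List.drop_nil]
    | cons b l =>
      have h : takeStep (a, b :: l) d = (a ++ [b], l) := by simp [takeStep]
      simp only [h, ih, List.take_succ_cons, List.drop_succ_cons, List.append_assoc,
        List.singleton_append]

@[fun_prop]
theorem FP.take [Inhabited β] {f : α → List β} {g : α → List γ} (hf : FP f) (hg : FP g) :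
    FP fun a => (f a).take (g a).length := by
  have h : FP fun p : List γ × (List β × List β) =>
      (fun s => takeStep s default)^[p.1.length] p.2 := by
    refine FP.iterate (f := fun s : List β × List β => takeStep s default) ?_
      (B := fun n => 3 * n + 1) (by fun_prop) ?_
    · unfold takeStep
      have h1 : FP fun s : List β × List β => s.2.headD default := FP.headD (by fun_prop) _
      fun_prop
    · rintro l ⟨a, b⟩ i -
      rw [takeStep_iter]
      have h1 := sz_take b i
      have h2 := sz_drop b i
      simp only [sz_pair, sz_append]
      omega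
  have h2 := FP.fst.comp (h.comp (hg.pair (FP.pair (FP.const ([] : List β)) hf)))
  simp only [takeStep_iter, List.nil_append] at h2
  exact h2

theorem foldl_map_ctx (h : γ × β → δ) (l : List β) (c : γ) (acc : List δ) :
    l.foldl (fun (s : γ × List δ) (b : β) => (s.1, s.2 ++ [h (s.1, b)])) (c, acc) =
      (c, acc ++ l.map fun b => h (c, b)) := by
  induction l generalizing acc with
  | nil => simp
  | cons b l ih => simp [ih]

theorem sz_mem_le {l : List β} {b : β} (h : b ∈ l) : sz b ≤ sz l := by
  induction l with
  | nil => simp at h
  | cons a l ih =>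
    rcases List.mem_cons.1 h with rfl | h
    · simp only [sz_cons]; omega
    · have := ih h
      simp only [sz_cons]; omega

theorem sz_map_le (f : β → δ) (l : List β) (C : ℕ) (h : ∀ b ∈ l, sz (f b) ≤ C) :
    sz (l.map f) ≤ l.length * (2 * C + 1) := by
  induction l with
  | nil => simp
  | cons a l ih =>
    have h1 := h a (by simp)
    have h2 := ih fun b hb => h b (by simp [hb])
    simp only [List.map_cons, sz_cons, List.length_cons]
    have h3 : (l.length + 1) * (2 * C + 1) = l.length * (2 * C + 1) + (2 * C + 1) := by ring
    omega

theorem FP.map_ctx [Inhabited β] {h : γ × β → δ} (hh : FP h) :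
    FP fun p : γ × List β => p.2.map fun b => h (p.1, b) := by
  obtain ⟨B, hB, hBm, hBle⟩ := hh.bound
  have h1 : FP fun p : List β × (γ × List δ) =>
      p.1.foldl (fun (s : γ × List δ) (b : β) => (s.1, s.2 ++ [h (s.1, b)])) p.2 := by
    refine FP.foldl (g := fun (s : γ × List δ) (b : β) => (s.1, s.2 ++ [h (s.1, b)])) ?_
      (B := fun n => 2 * n + 1 + (n + n * (2 * B (3 * n + 1) + 1))) (by fun_prop) ?_
    · have h2 : FP fun p : (γ × List δ) × β => h (p.1.1, p.2) := hh.comp (by fun_prop)
      have h3 : FP fun p : (γ × List δ) × β => [h (p.1.1, p.2)] := h2.cons (FP.const [])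
      fun_prop
    · rintro l ⟨c, acc⟩
      rw [foldl_map_ctx]
      have h4 := sz_map_le (fun b => h (c, b)) l (B (3 * (sz l + sz (c, acc)) + 1)) (by
        intro b hb
        refine (hBle _).trans (hBm ?_)
        have := sz_mem_le hb
        simp only [sz_pair]; omega)
      have h5 : l.length ≤ sz l + sz (c, acc) := by
        have := length_le_sz l
        omega
      have h6 := Nat.mul_le_mul_right (2 * B (3 * (sz l + sz (c, acc)) + 1) + 1) h5
      have h7 : 2 * sz c + 1 + sz acc ≤ sz l + sz (c, acc) := by
        simp only [sz_pair]; omega
      rw [sz_pair, sz_append]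
      generalize sz (c, acc) = N at *
      omega
  have h2 := FP.snd.comp (h1.comp (FP.pair (f := fun p : γ × List β => p.2) (by fun_prop)
    (FP.pair (f := fun p : γ × List β => p.1) (by fun_prop) (FP.const ([] : List δ)))))
  simp only [foldl_map_ctx, List.nil_append] at h2
  exact h2

theorem FP.map [Inhabited β] {f : β → δ} (hf : FP f) {g : α → List β} (hg : FP g) :
    FP fun a => (g a).map f := by
  have h1 : FP fun p : Bool × List β => p.2.map fun b => (fun q : Bool × β => f q.2) (p.1, b) :=
    FP.map_ctx (h := fun q : Bool × β => f q.2) (hf.comp (by fun_prop))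
  exact h1.comp (FP.pair (FP.const true) hg)

end

end Pool.Agent.Helper22
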