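import Mathlib
import Pool.Agent.Helper22.Lists

set_option autoImplicit false

/-!
# A universal table machine running in polynomial time under a clock
-/

namespace Pool.Agent.Helper22

open Turing Function N487b59b3 N68a2faeb

/-- a stack of symbols, a symbol being a unary number -/
abbrev Stk := List (List Bool)

/-- the stacks -/
abbrev Stks := List Stk

/-- control state and stacks -/
abbrev Conf := List Bool × Stks

/-- a table entry `((q, k), (a, (b, q')))`: in state `q`, if stack `k` has top `a`, replace it by the
word `b` and go to state `q'` -/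
abbrev Ent := (List Bool × List Bool) × (List Bool × (Stk × List Bool))

/-- a machine: `(table, (initial stacks, ((kin, kout), ((q₀, o₁), (s₀, s₁)))))` -/
abbrev Code := List Ent × (Stks × ((List Bool × List Bool) ×
  ((List Bool × List Bool) × (List Bool × List Bool))))

/-- equality of unary numbers -/
def leneq (a b : List Bool) : Bool :=
  decide (a.length ≤ b.length) && decide (b.length ≤ a.length)

theorem leneq_iff (a b : List Bool) : leneq a b = true ↔ a.length = b.length := by
  simp only [leneq, Bool.and_eq_true, decide_eq_true_eq]; omega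

/-- the top symbol of a stack -/
def topAt (S : Stks) (k : List Bool) : List Bool := ((S.drop k.length).headD []).headD []

/-- whether a table entry applies -/
def matchE (c : Conf) (e : Ent) : Bool := leneq c.1 e.1.1 && leneq (topAt c.2 e.1.2) e.2.1

/-- replace the top of stack `k` -/
def upd (S : Stks) (k : List Bool) (b : Stk) : Stks :=
  S.take k.length ++ (b ++ ((S.drop k.length).headD []).tail) :: (S.drop k.length).tail

/-- the effect of a table entry -/
def applyE (c : Conf) (e : Ent) : Conf := (e.2.2.2, upd c.2 e.1.2 e.2.2.1)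

/-- search for the first applicable entry -/
def search (s : Bool × Conf) (e : Ent) : Bool × Conf :=
  if !s.1 && matchE s.2 e then (true, applyE s.2 e) else s

/-- one step of the table machine -/
def ustep (T : List Ent) (c : Conf) : Conf := (T.foldl search (false, c)).2

/-- the result of the machine with code `c` on input `x` after `t` steps -/
def U (p : Code × (List Bool × List Bool)) : List Bool :=
  (((((ustep p.1.1)^[p.2.2.length]
    (p.1.2.2.2.1.1, upd p.1.2.1 p.1.2.2.1.1
      (p.2.1.map fun b => if b then p.1.2.2.2.2.2 else p.1.2.2.2.2.1))).2.drop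
        p.1.2.2.1.2.length).headD []).map fun y => leneq y p.1.2.2.2.1.2)

section

variable {α β γ δ : Type} [N487b59b3 α] [N487b59b3 β] [N487b59b3 γ] [N487b59b3 δ]

@[fun_prop]
theorem FP.leneq {f g : α → List Bool} (hf : FP f) (hg : FP g) :
    FP fun a => Helper22.leneq (f a) (g a) := by
  unfold Helper22.leneq
  fun_prop

@[fun_prop]
theorem FP.topAt {f : α → Stks} {g : α → List Bool} (hf : FP f) (hg : FP g) :
    FP fun a => Helper22.topAt (f a) (g a) := by
  have h1 : FP fun a => ((f a).drop (g a).length).headD [] := FP.headD (by fun_prop) _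
  exact FP.headD h1 _

@[fun_prop]
theorem FP.upd {f : α → Stks} {g : α → List Bool} {h : α → Stk} (hf : FP f) (hg : FP g)
    (hh : FP h) : FP fun a => Helper22.upd (f a) (g a) (h a) := by
  have h1 : FP fun a => ((f a).drop (g a).length).headD [] := FP.headD (by fun_prop) _
  unfold Helper22.upd
  fun_prop

@[fun_prop]
theorem FP.applyE {f : α → Conf} {g : α → Ent} (hf : FP f) (hg : FP g) :
    FP fun a => Helper22.applyE (f a) (g a) := by
  unfold Helper22.applyE
  fun_prop

@[fun_prop]
theorem FP.matchE {f : α → Conf} {g : α → Ent} (hf : FP f) (hg : FP g) :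
    FP fun a => Helper22.matchE (f a) (g a) := by
  unfold Helper22.matchE
  fun_prop

theorem sz_headD_tail (l : Stks) : 2 * sz (l.headD []) + 1 + sz l.tail ≤ sz l + 1 := by
  cases l with
  | nil => simp
  | cons a l => simp

theorem sz_tail (l : List β) : sz l.tail ≤ sz l := by
  cases l with
  | nil => simp
  | cons a l => simp only [List.tail_cons, sz_cons]; omega

theorem sz_take_drop (l : List β) (n : ℕ) : sz (l.take n) + sz (l.drop n) = sz l := by
  rw [← sz_append, List.take_append_drop]

theorem sz_upd (S : Stks) (k : List Bool) (b : Stk) : sz (Helper22.upd S k b) ≤ sz S + 2 * sz b + 1 := by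
  unfold Helper22.upd
  have h1 := sz_take_drop S k.length
  have h2 := sz_headD_tail (S.drop k.length)
  have h3 := sz_tail ((S.drop k.length).headD [])
  simp only [sz_append, sz_cons]
  omega

theorem sz_search (s : Bool × Conf) (e : Ent) : sz (search s e) ≤ sz s + 2 * (2 * sz e + 1) := by
  unfold search
  split
  · obtain ⟨f, q, S⟩ := s
    obtain ⟨⟨q', k⟩, a, b, q''⟩ := e
    have := sz_upd S k b
    simp only [Helper22.applyE, sz_pair, sz_bool]
    omega
  · omega

theorem sz_foldl_search (T : List Ent) (s : Bool × Conf) :
    sz (T.foldl search s) ≤ sz s + 2 * sz T := by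
  induction T generalizing s with
  | nil => simp
  | cons e T ih =>
    have h1 := ih (search s e)
    have h2 := sz_search s e
    simp only [List.foldl_cons, sz_cons]
    omega

theorem search_FP : FP fun p : (Bool × Conf) × Ent => search p.1 p.2 := by
  unfold search
  fun_prop

theorem foldl_search_FP : FP fun p : List Ent × (Bool × Conf) => p.1.foldl search p.2 := by
  refine FP.foldl (g := search) search_FP (B := fun n => 2 * n) (by fun_prop) ?_
  intro l a
  have := sz_foldl_search l a
  omega

theorem ustep_FP : FP fun p : List Ent × Conf => ustep p.1 p.2 := by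
  have h := foldl_search_FP.comp (FP.pair (f := fun p : List Ent × Conf => p.1)
    (g := fun p : List Ent × Conf => (false, p.2)) (by fun_prop) (by fun_prop))
  exact h.snd'

theorem sz_ustep (T : List Ent) (c : Conf) : sz (ustep T c) ≤ sz c + 2 * sz T := by
  have h := sz_foldl_search T (false, c)
  unfold ustep
  rcases hq : T.foldl search (false, c) with ⟨f, c'⟩
  rw [hq] at h
  simp only [sz_pair, sz_bool] at h ⊢
  omega

theorem sz_ustep_iter (T : List Ent) (c : Conf) (i : ℕ) :
    sz ((ustep T)^[i] c) ≤ sz c + i * (2 * sz T) := by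
  induction i with
  | zero => simp
  | succ i ih =>
    rw [Function.iterate_succ_apply']
    have := sz_ustep T ((ustep T)^[i] c)
    have h : (i + 1) * (2 * sz T) = i * (2 * sz T) + 2 * sz T := by ring
    omega

theorem iter_pair (T : List Ent) (c : Conf) (i : ℕ) :
    (fun s : List Ent × Conf => (s.1, ustep s.1 s.2))^[i] (T, c) = (T, (ustep T)^[i] c) := by
  induction i with
  | zero => rfl
  | succ i ih => rw [Function.iterate_succ_apply', ih, Function.iterate_succ_apply']

theorem ustep_iter_FP : FP fun p : List Bool × (List Ent × Conf) =>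
    (ustep p.2.1)^[p.1.length] p.2.2 := by
  have h : FP fun p : List Bool × (List Ent × Conf) =>
      (fun s : List Ent × Conf => (s.1, ustep s.1 s.2))^[p.1.length] p.2 := by
    refine FP.iterate (f := fun s : List Ent × Conf => (s.1, ustep s.1 s.2)) ?_
      (B := fun n => 3 * n + n * (2 * n) + 1) (by fun_prop) ?_
    · exact FP.pair (by fun_prop) ustep_FP
    · rintro l ⟨T, c⟩ i hi
      rw [iter_pair]
      have h1 := sz_ustep_iter T c i
      have h2 : i ≤ sz l + sz (T, c) := by
        have := length_le_sz l; omega
      have h3 : 2 * sz T ≤ 2 * (sz l + sz (T, c)) := by simp only [sz_pair]; omega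
      have h4 := Nat.mul_le_mul h2 h3
      simp only [sz_pair] at h1 h4 ⊢
      omega
  refine (congrArg FP (funext fun p => ?_)).mp h.snd'
  obtain ⟨l, T, c⟩ := p
  simp only [iter_pair]

theorem U_FP : FP U := by
  have h1 : FP fun p : Code × (List Bool × List Bool) => p.2.1.map fun b =>
      if b then p.1.2.2.2.2.2 else p.1.2.2.2.2.1 := by
    have h := FP.map_ctx (γ := Code) (β := Bool) (δ := List Bool)
      (h := fun q : Code × Bool => if q.2 then q.1.2.2.2.2.2 else q.1.2.2.2.2.1) (by fun_prop)
    exact h.comp (FP.pair (f := fun p : Code × (List Bool × List Bool) => p.1)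
      (g := fun p : Code × (List Bool × List Bool) => p.2.1) (by fun_prop) (by fun_prop))
  have h2 : FP fun p : Code × (List Bool × List Bool) => upd p.1.2.1 p.1.2.2.1.1
      (p.2.1.map fun b => if b then p.1.2.2.2.2.2 else p.1.2.2.2.2.1) := by fun_prop
  have h3 : FP fun p : Code × (List Bool × List Bool) => (ustep p.1.1)^[p.2.2.length]
    (p.1.2.2.2.1.1, upd p.1.2.1 p.1.2.2.1.1
      (p.2.1.map fun b => if b then p.1.2.2.2.2.2 else p.1.2.2.2.2.1)) :=
    ustep_iter_FP.comp (FP.pair (f := fun p : Code × (List Bool × List Bool) => p.2.2)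
      (g := fun p : Code × (List Bool × List Bool) => (p.1.1, (p.1.2.2.2.1.1, upd p.1.2.1
      p.1.2.2.1.1 (p.2.1.map fun b => if b then p.1.2.2.2.2.2 else p.1.2.2.2.2.1))))
      (by fun_prop) (by fun_prop))
  have h4 : FP fun p : Code × (List Bool × List Bool) => (((ustep p.1.1)^[p.2.2.length]
    (p.1.2.2.2.1.1, upd p.1.2.1 p.1.2.2.1.1
      (p.2.1.map fun b => if b then p.1.2.2.2.2.2 else p.1.2.2.2.2.1))).2.drop
        p.1.2.2.1.2.length).headD [] := FP.headD (FP.drop h3.snd' (by fun_prop)) _
  have h5 := FP.map_ctx (γ := List Bool) (β := List Bool) (δ := Bool)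
      (h := fun q : List Bool × List Bool => leneq q.2 q.1) (by fun_prop)
  exact h5.comp (FP.pair (f := fun p : Code × (List Bool × List Bool) => p.1.2.2.2.1.2)
    (by fun_prop) h4)

end

end Pool.Agent.Helper22
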