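import Mathlib
import Pool.Agent.Helper22.Univ

set_option autoImplicit false

/-!
# The table machine simulates every `TM2` machine
-/

namespace Pool.Agent.Helper22

open Turing Function N487b59b3 N68a2faeb

/-! ## Micro steps of a `TM2` machine -/

section micro

variable {K : Type} [DecidableEq K] {Γ : K → Type} {Λ σ : Type} (k₀ : K)
  (m : Λ → TM2.Stmt Γ Λ σ)

/-- the stack looked at by a statement -/
def mstk : TM2.Stmt Γ Λ σ → K
  | .push k _ _ => k
  | .peek k _ _ => k
  | .pop k _ _ => k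
  | _ => k₀

/-- the action of the first instruction of a statement -/
def mact : (q : TM2.Stmt Γ Λ σ) → σ → Option (Γ (mstk k₀ q)) →
    List (Γ (mstk k₀ q)) × (TM2.Stmt Γ Λ σ × σ)
  | .push _ f q, v, o => (f v :: o.toList, (q, v))
  | .peek _ f q, v, o => (o.toList, (q, f v o))
  | .pop _ f q, v, o => ([], (q, f v o))
  | .load f q, v, o => (o.toList, (q, f v))
  | .branch f q₁ q₂, v, o => (o.toList, (cond (f v) q₁ q₂, v))
  | .goto f, v, o => (o.toList, (m (f v), v))
  | .halt, v, o => (o.toList, (.halt, v))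

/-- micro configurations -/
abbrev MC (Γ : K → Type) (Λ σ : Type) := (TM2.Stmt Γ Λ σ × σ) × (∀ k, List (Γ k))

/-- the micro step -/
def mstep (c : MC Γ Λ σ) : MC Γ Λ σ :=
  ((mact k₀ m c.1.1 c.1.2 (c.2 (mstk k₀ c.1.1)).head?).2,
    update c.2 (mstk k₀ c.1.1) ((mact k₀ m c.1.1 c.1.2 (c.2 (mstk k₀ c.1.1)).head?).1 ++
      (c.2 (mstk k₀ c.1.1)).tail))

/-- configurations as micro configurations -/
def toM : TM2.Cfg Γ Λ σ → MC Γ Λ σ
  | ⟨some l, v, S⟩ => ((m l, v), S)
  | ⟨none, v, S⟩ => ((.halt, v), S)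

theorem head_tail {α : Type} (l : List α) : l.head?.toList ++ l.tail = l := by
  cases l <;> simp

/-- bound on the number of micro steps -/
def depth : TM2.Stmt Γ Λ σ → ℕ
  | .push _ _ q => depth q + 1
  | .peek _ _ q => depth q + 1
  | .pop _ _ q => depth q + 1
  | .load _ q => depth q + 1
  | .branch _ q₁ q₂ => max (depth q₁) (depth q₂) + 1
  | .goto _ => 1
  | .halt => 0

theorem mstep_push (k : K) (f : σ → Γ k) (q : TM2.Stmt Γ Λ σ) (v : σ) (S : ∀ k, List (Γ k)) :
    mstep k₀ m ((.push k f q, v), S) = ((q, v), update S k (f v :: S k)) := by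
  refine Prod.ext rfl ?_
  change update S k ((f v :: (S k).head?.toList) ++ (S k).tail) = _
  rw [List.cons_append, head_tail]

theorem mstep_peek (k : K) (f : σ → Option (Γ k) → σ) (q : TM2.Stmt Γ Λ σ) (v : σ)
    (S : ∀ k, List (Γ k)) :
    mstep k₀ m ((.peek k f q, v), S) = ((q, f v (S k).head?), S) := by
  refine Prod.ext rfl ?_
  change update S k ((S k).head?.toList ++ (S k).tail) = _
  rw [head_tail, update_eq_self]

theorem mstep_pop (k : K) (f : σ → Option (Γ k) → σ) (q : TM2.Stmt Γ Λ σ) (v : σ)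
    (S : ∀ k, List (Γ k)) :
    mstep k₀ m ((.pop k f q, v), S) = ((q, f v (S k).head?), update S k (S k).tail) := rfl

theorem mstep_load (f : σ → σ) (q : TM2.Stmt Γ Λ σ) (v : σ) (S : ∀ k, List (Γ k)) :
    mstep k₀ m ((.load f q, v), S) = ((q, f v), S) := by
  refine Prod.ext rfl ?_
  change update S k₀ ((S k₀).head?.toList ++ (S k₀).tail) = _
  rw [head_tail, update_eq_self]

theorem mstep_branch (f : σ → Bool) (q₁ q₂ : TM2.Stmt Γ Λ σ) (v : σ) (S : ∀ k, List (Γ k)) :
    mstep k₀ m ((.branch f q₁ q₂, v), S) = ((cond (f v) q₁ q₂, v), S) := by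
  refine Prod.ext rfl ?_
  change update S k₀ ((S k₀).head?.toList ++ (S k₀).tail) = _
  rw [head_tail, update_eq_self]

theorem mstep_goto (f : σ → Λ) (v : σ) (S : ∀ k, List (Γ k)) :
    mstep k₀ m ((.goto f, v), S) = ((m (f v), v), S) := by
  refine Prod.ext rfl ?_
  change update S k₀ ((S k₀).head?.toList ++ (S k₀).tail) = _
  rw [head_tail, update_eq_self]

theorem mstep_halt (v : σ) (S : ∀ k, List (Γ k)) :
    mstep k₀ m ((.halt, v), S) = ((.halt, v), S) := by
  refine Prod.ext rfl ?_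
  change update S k₀ ((S k₀).head?.toList ++ (S k₀).tail) = _
  rw [head_tail, update_eq_self]

theorem mstep_aux (q : TM2.Stmt Γ Λ σ) (v : σ) (S : ∀ k, List (Γ k)) :
    ∃ n ≤ depth q, (mstep k₀ m)^[n] ((q, v), S) = toM m (TM2.stepAux q v S) := by
  induction q generalizing v S with
  | push k f q ih =>
    obtain ⟨n, hn, h⟩ := ih v (update S k (f v :: S k))
    refine ⟨n + 1, by simp only [depth]; omega, ?_⟩
    rw [Function.iterate_succ_apply, mstep_push, h]; rfl
  | peek k f q ih =>
    obtain ⟨n, hn, h⟩ := ih (f v (S k).head?) S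
    refine ⟨n + 1, by simp only [depth]; omega, ?_⟩
    rw [Function.iterate_succ_apply, mstep_peek, h]; rfl
  | pop k f q ih =>
    obtain ⟨n, hn, h⟩ := ih (f v (S k).head?) (update S k (S k).tail)
    refine ⟨n + 1, by simp only [depth]; omega, ?_⟩
    rw [Function.iterate_succ_apply, mstep_pop, h]; rfl
  | load f q ih =>
    obtain ⟨n, hn, h⟩ := ih (f v) S
    refine ⟨n + 1, by simp only [depth]; omega, ?_⟩
    rw [Function.iterate_succ_apply, mstep_load, h]; rfl
  | branch f q₁ q₂ ih₁ ih₂ =>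
    cases hf : f v
    · obtain ⟨n, hn, h⟩ := ih₂ v S
      refine ⟨n + 1, by simp only [depth]; omega, ?_⟩
      rw [Function.iterate_succ_apply, mstep_branch, hf, cond_false, h]
      simp [TM2.stepAux, hf]
    · obtain ⟨n, hn, h⟩ := ih₁ v S
      refine ⟨n + 1, by simp only [depth]; omega, ?_⟩
      rw [Function.iterate_succ_apply, mstep_branch, hf, cond_true, h]
      simp [TM2.stepAux, hf]
  | goto f =>
    refine ⟨1, by simp [depth], ?_⟩
    rw [Function.iterate_one, mstep_goto]; rfl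
  | halt => exact ⟨0, by simp [depth], rfl⟩

theorem mstep_reach {D : ℕ} (hD : ∀ l, depth (m l) ≤ D) {n : ℕ} {c c' : TM2.Cfg Γ Λ σ}
    (h : Reach (TM2.step m) n c c') : ∃ N ≤ n * D, (mstep k₀ m)^[N] (toM m c) = toM m c' := by
  induction h with
  | refl a => exact ⟨0, by simp, rfl⟩
  | @step n a b c hs _ ih =>
    obtain ⟨N, hN, h1⟩ := ih
    obtain ⟨l, v, S⟩ := a
    cases l with
    | none => simp [TM2.step] at hs
    | some l =>
      simp only [TM2.step, Option.some.injEq] at hs
      subst hs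
      obtain ⟨N', hN', h2⟩ := mstep_aux k₀ m (m l) v S
      refine ⟨N + N', ?_, ?_⟩
      · have := hD l
        have h3 : (n + 1) * D = n * D + D := by ring
        omega
      · rw [Function.iterate_add_apply, toM, h2, h1]

/-! ## Finiteness -/

/-- the reachable control states -/
def QQ : Set (TM2.Stmt Γ Λ σ × σ) := {x | x.1 = .halt ∨ ∃ l, x.1 ∈ TM2.stmts₁ (m l)}

theorem QQ_finite [Finite Λ] [Finite σ] : (QQ m).Finite := by
  have h1 : (insert (TM2.Stmt.halt) (⋃ l, (TM2.stmts₁ (m l) : Set (TM2.Stmt Γ Λ σ)))).Finite :=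
    (Set.finite_iUnion fun l => Finset.finite_toSet _).insert _
  refine (h1.prod (Set.finite_univ (α := σ))).subset ?_
  rintro ⟨q, v⟩ h
  simpa [QQ] using h

theorem QQ_next {x : TM2.Stmt Γ Λ σ × σ} (hx : x ∈ QQ m) (o : Option (Γ (mstk k₀ x.1))) :
    (mact k₀ m x.1 x.2 o).2 ∈ QQ m := by
  obtain ⟨q, v⟩ := x
  have key : ∀ q' v', q' ∈ TM2.stmts₁ q → q ≠ .halt → (q', v') ∈ QQ m := by
    intro q' v' h1 h2
    rcases hx with hx | ⟨l, hl⟩
    · exact absurd hx h2
    · exact Or.inr ⟨l, TM2.stmts₁_trans hl h1⟩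
  cases q with
  | push k f q => exact key _ _ (by simp [TM2.stmts₁, TM2.stmts₁_self]) (by simp)
  | peek k f q => exact key _ _ (by simp [TM2.stmts₁, TM2.stmts₁_self]) (by simp)
  | pop k f q => exact key _ _ (by simp [TM2.stmts₁, TM2.stmts₁_self]) (by simp)
  | load f q => exact key _ _ (by simp [TM2.stmts₁, TM2.stmts₁_self]) (by simp)
  | branch f q₁ q₂ =>
    refine key _ _ ?_ (by simp)
    cases f v <;> simp [TM2.stmts₁, TM2.stmts₁_self]
  | goto f => exact Or.inr ⟨f v, TM2.stmts₁_self⟩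
  | halt => exact Or.inl rfl

/-- the symbol pushed -/
def pushed : TM2.Stmt Γ Λ σ → σ → Option (Σ k, Γ k)
  | .push k f _, v => some ⟨k, f v⟩
  | _, _ => none

/-- the symbols which can appear on the stacks -/
def AA : Set (Σ k, Γ k) := {a | (∃ x ∈ QQ m, pushed x.1 x.2 = some a) ∨ a.1 = k₀}

theorem AA_finite [Finite Λ] [Finite σ] [Finite (Γ k₀)] : (AA k₀ m).Finite := by
  have h1 : {a : Σ k, Γ k | ∃ x ∈ QQ m, pushed x.1 x.2 = some a}.Finite := by
    have h2 : ((fun x : TM2.Stmt Γ Λ σ × σ => pushed x.1 x.2) '' QQ m).Finite :=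
      (QQ_finite m).image _
    have h3 := h2.preimage (f := fun a : (Σ k, Γ k) => some a)
      (fun a _ b _ h => Option.some.inj h)
    refine h3.subset ?_
    rintro a ⟨x, hx, h⟩
    exact ⟨x, hx, h⟩
  have h4 : {a : Σ k, Γ k | a.1 = k₀}.Finite := by
    refine (Set.finite_range fun b : Γ k₀ => (⟨k₀, b⟩ : Σ k, Γ k)).subset ?_
    rintro ⟨k, a⟩ h
    simp only [Set.mem_ofPred_eq] at h
    subst h
    exact ⟨a, rfl⟩
  exact (h1.union h4).subset fun a h => h

theorem AA_next {x : TM2.Stmt Γ Λ σ × σ} (hx : x ∈ QQ m) (o : Option (Γ (mstk k₀ x.1)))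
    (ho : ∀ a ∈ o, (⟨_, a⟩ : Σ k, Γ k) ∈ AA k₀ m) :
    ∀ a ∈ (mact k₀ m x.1 x.2 o).1, (⟨_, a⟩ : Σ k, Γ k) ∈ AA k₀ m := by
  obtain ⟨q, v⟩ := x
  cases q with
  | push k f q =>
    intro a ha
    simp only [mact, List.mem_cons, Option.mem_toList] at ha
    rcases ha with rfl | ha
    · exact Or.inl ⟨_, hx, rfl⟩
    · exact ho a ha
  | peek k f q => intro a ha; exact ho a (by simpa [mact] using ha)
  | pop k f q => intro a ha; simp [mact] at ha
  | load f q => intro a ha; exact ho a (by simpa [mact] using ha)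
  | branch f q₁ q₂ => intro a ha; exact ho a (by simpa [mact] using ha)
  | goto f => intro a ha; exact ho a (by simpa [mact] using ha)
  | halt => intro a ha; exact ho a (by simpa [mact] using ha)

/-- the micro configurations built from reachable states and symbols -/
def Good (c : MC Γ Λ σ) : Prop :=
  c.1 ∈ QQ m ∧ ∀ k, ∀ a ∈ c.2 k, (⟨k, a⟩ : Σ k, Γ k) ∈ AA k₀ m

theorem Good.mstep {c : MC Γ Λ σ} (h : Good k₀ m c) : Good k₀ m (Helper22.mstep k₀ m c) := by
  refine ⟨QQ_next k₀ m h.1 _, ?_⟩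
  intro k a ha
  simp only [Helper22.mstep] at ha
  by_cases hk : k = mstk k₀ c.1.1
  · subst hk
    rw [update_self, List.mem_append] at ha
    rcases ha with ha | ha
    · refine AA_next k₀ m h.1 _ ?_ a ha
      intro b hb
      exact h.2 _ b (List.mem_of_mem_head? hb)
    · exact h.2 _ a (List.mem_of_mem_tail ha)
  · rw [update_of_ne hk] at ha
    exact h.2 _ a ha

theorem Good.iter {c : MC Γ Λ σ} (h : Good k₀ m c) (n : ℕ) :
    Good k₀ m ((Helper22.mstep k₀ m)^[n] c) := by
  induction n with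
  | zero => exact h
  | succ n ih => rw [Function.iterate_succ_apply']; exact ih.mstep

/-! ## Coding -/

variable (cq : TM2.Stmt Γ Λ σ × σ → ℕ) (cs : (Σ k, Γ k) → ℕ) {N : ℕ} (e : K ≃ Fin N)

/-- code of a symbol -/
def sym (k : K) (a : Γ k) : List Bool := un (cs ⟨k, a⟩ + 1)

/-- code of a possible top symbol -/
def osym (k : K) : Option (Γ k) → List Bool
  | none => []
  | some a => sym cs k a

/-- code of a word -/
def encw (k : K) (w : List (Γ k)) : Stk := w.map (sym cs k)

/-- code of the stacks -/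
def encS (S : ∀ k, List (Γ k)) : Stks :=
  List.ofFn fun i : Fin N => encw cs (e.symm i) (S (e.symm i))

/-- code of a micro configuration -/
def encC (c : MC Γ Λ σ) : Conf := (un (cq c.1), encS cs e c.2)

/-- table entry -/
def uentry (x : TM2.Stmt Γ Λ σ × σ) (o : Option (Γ (mstk k₀ x.1))) : Ent :=
  ((un (cq x), un (e (mstk k₀ x.1))), (osym cs _ o,
    (encw cs _ (mact k₀ m x.1 x.2 o).1, un (cq (mact k₀ m x.1 x.2 o).2))))

/-- the table -/
def TT : Set Ent :=
  {t | ∃ x ∈ QQ m, ∃ o : Option (Γ (mstk k₀ x.1)),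
    (∀ a ∈ o, (⟨_, a⟩ : Σ k, Γ k) ∈ AA k₀ m) ∧ t = uentry k₀ m cq cs e x o}

theorem TT_finite [Finite Λ] [Finite σ] [Finite (Γ k₀)] : (TT k₀ m cq cs e).Finite := by
  have h1 : ∀ k, {o : Option (Γ k) | ∀ a ∈ o, (⟨_, a⟩ : Σ k, Γ k) ∈ AA k₀ m}.Finite := by
    intro k
    have h2 : {a : Γ k | (⟨_, a⟩ : Σ k, Γ k) ∈ AA k₀ m}.Finite :=
      (AA_finite k₀ m).preimage (f := fun a : Γ k => (⟨k, a⟩ : Σ k, Γ k))
        (fun a _ b _ h => by simpa using h)
    refine ((h2.image some).insert none).subset ?_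
    intro o ho
    cases o with
    | none => exact Set.mem_insert _ _
    | some a => exact Set.mem_insert_of_mem _ ⟨a, ho a rfl, rfl⟩
  refine ((QQ_finite m).biUnion (t := fun x => (fun o => uentry k₀ m cq cs e x o) ''
    {o : Option (Γ (mstk k₀ x.1)) | ∀ a ∈ o, (⟨_, a⟩ : Σ k, Γ k) ∈ AA k₀ m})
    (fun x _ => (h1 _).image _)).subset ?_
  rintro t ⟨x, hx, o, ho, rfl⟩
  exact Set.mem_biUnion hx ⟨o, ho, rfl⟩

theorem getElem?_encS (S : ∀ k, List (Γ k)) (k : K) :
    (encS cs e S)[(e k : ℕ)]? = some (encw cs k (S k)) := by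
  have h : (e k : ℕ) < (encS cs e S).length := by
    simp [encS]
  rw [List.getElem?_eq_getElem h]
  simp only [encS, List.getElem_ofFn, Fin.eta]
  change some ((fun i => encw cs i (S i)) (e.symm (e k))) = _
  rw [Equiv.symm_apply_apply]

theorem drop_encS (S : ∀ k, List (Γ k)) (k : K) :
    ((encS cs e S).drop (un (e k)).length).headD [] = encw cs k (S k) := by
  rw [List.headD_eq_head?_getD, List.head?_drop, un_length, getElem?_encS]
  rfl

theorem topAt_encS (S : ∀ k, List (Γ k)) (k : K) :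
    topAt (encS cs e S) (un (e k)) = osym cs k (S k).head? := by
  rw [topAt, drop_encS]
  cases S k with
  | nil => rfl
  | cons a l => rfl

theorem upd_encS (S : ∀ k, List (Γ k)) (k : K) (w : List (Γ k)) :
    upd (encS cs e S) (un (e k)) (encw cs k w) = encS cs e (update S k (w ++ (S k).tail)) := by
  have h : (e k : ℕ) < (encS cs e S).length := by simp [encS]
  have hset := List.set_eq_take_append_cons_drop (l := encS cs e S) (i := (e k : ℕ))
    (a := encw cs k w ++ (encw cs k (S k)).tail)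
  rw [if_pos h] at hset
  rw [upd, drop_encS, List.tail_drop, un_length, ← hset]
  apply List.ext_getElem
  · simp [encS]
  · intro i h1 h2
    have hi : i < N := by simpa [encS] using h2
    rw [List.getElem_set]
    simp only [encS, List.getElem_ofFn]
    by_cases hik : (e k : ℕ) = i
    · rw [if_pos hik]
      have : e.symm ⟨i, hi⟩ = k := by
        rw [Equiv.symm_apply_eq]; exact Fin.ext hik.symm
      rw [this]
      simp [encw]
    · rw [if_neg hik]
      have : e.symm ⟨i, hi⟩ ≠ k := by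
        intro h3
        apply hik
        rw [← h3]; simp
      rw [update_of_ne this]

theorem foldl_search_true (T : List Ent) (c : Conf) : T.foldl search (true, c) = (true, c) := by
  induction T with
  | nil => rfl
  | cons t T ih => simpa [search] using ih

theorem ustep_spec (T : List Ent) (c : Conf) (h : ∃ t ∈ T, matchE c t = true) :
    ∃ t ∈ T, matchE c t = true ∧ ustep T c = applyE c t := by
  unfold ustep
  induction T with
  | nil => simp at h
  | cons t T ih =>
    by_cases ht : matchE c t = true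
    · refine ⟨t, by simp, ht, ?_⟩
      rw [List.foldl_cons]
      simp only [search, Bool.not_false, ht, Bool.and_self, if_true]
      rw [foldl_search_true]
    · obtain ⟨t', h1, h2⟩ := h
      have h3 : t' ∈ T := by
        rcases List.mem_cons.1 h1 with rfl | h1
        · exact absurd h2 ht
        · exact h1
      obtain ⟨s, hs, h4, h5⟩ := ih ⟨t', h3, h2⟩
      refine ⟨s, by simp [hs], h4, ?_⟩
      rw [List.foldl_cons]
      simp only [search, Bool.not_false, ht, Bool.and_false, Bool.false_eq_true, if_false]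
      exact h5

theorem un_inj {a b : ℕ} (h : (un a).length = (un b).length) : a = b := by simpa using h

theorem ustep_encC (hq : Set.InjOn cq (QQ m)) (hs : Set.InjOn cs (AA k₀ m)) (T : List Ent)
    (hT : ∀ t, t ∈ T ↔ t ∈ TT k₀ m cq cs e) {c : MC Γ Λ σ} (hc : Good k₀ m c) :
    ustep T (encC cq cs e c) = encC cq cs e (mstep k₀ m c) := by
  obtain ⟨x, S⟩ := c
  have ho : ∀ a ∈ (S (mstk k₀ x.1)).head?, (⟨_, a⟩ : Σ k, Γ k) ∈ AA k₀ m := by
    intro a ha
    exact hc.2 _ a (List.mem_of_mem_head? ha)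
  have hex : ∃ t ∈ T, matchE (encC cq cs e (x, S)) t = true := by
    refine ⟨uentry k₀ m cq cs e x (S (mstk k₀ x.1)).head?, (hT _).2 ⟨x, hc.1, _, ho, rfl⟩, ?_⟩
    simp only [matchE, uentry, encC, topAt_encS, Bool.and_eq_true, leneq_iff, and_self]
  obtain ⟨t, ht, hm, he⟩ := ustep_spec T _ hex
  obtain ⟨y, hy, o, ho', rfl⟩ := (hT _).1 ht
  simp only [matchE, uentry, encC, Bool.and_eq_true, leneq_iff] at hm
  obtain ⟨h1, h2⟩ := hm
  have h3 : y = x := hq hy hc.1 (un_inj h1).symm
  subst h3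
  rw [topAt_encS] at h2
  have h4 : o = (S (mstk k₀ y.1)).head? := by
    rcases hh : (S (mstk k₀ y.1)).head? with _ | a
    · rw [hh] at h2
      cases o with
      | none => rfl
      | some b => simp [osym, sym] at h2
    · rw [hh] at h2 ho
      cases o with
      | none => simp [osym, sym] at h2
      | some b =>
        simp only [osym, sym, un_length, Nat.add_right_cancel_iff] at h2
        have h5 := hs (ho a rfl) (ho' b rfl) h2
        simp only [Sigma.mk.injEq, heq_eq_eq, true_and] at h5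
        rw [h5]
  subst h4
  rw [he]
  simp only [applyE, uentry, encC, upd_encS, mstep]

theorem ustep_iter_encC (hq : Set.InjOn cq (QQ m)) (hs : Set.InjOn cs (AA k₀ m)) (T : List Ent)
    (hT : ∀ t, t ∈ T ↔ t ∈ TT k₀ m cq cs e) {c : MC Γ Λ σ} (hc : Good k₀ m c) (n : ℕ) :
    (ustep T)^[n] (encC cq cs e c) = encC cq cs e ((mstep k₀ m)^[n] c) := by
  induction n with
  | zero => rfl
  | succ n ih =>
    rw [Function.iterate_succ_apply', ih, ustep_encC k₀ m cq cs e hq hs T hT (hc.iter k₀ m n),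
      ← Function.iterate_succ_apply' (f := mstep k₀ m)]

end micro

end Pool.Agent.Helper22
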