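import Mathlib
import Pool.Agent.Helper22.UnivSim

set_option autoImplicit false

/-!
# Universality of the table machine
-/

namespace Pool.Agent.Helper22

open Turing Function N487b59b3 N68a2faeb

theorem initList_stk (tm : FinTM2) (w : List (tm.Γ tm.k₀)) :
    (initList tm w).stk = update (fun _ => []) tm.k₀ w := by
  funext k
  by_cases hk : k = tm.k₀
  · subst hk
    simp [initList]
  · simp [initList, hk]

theorem haltList_stk (tm : FinTM2) (w : List (tm.Γ tm.k₁)) :
    (haltList tm w).stk = update (fun _ => []) tm.k₁ w := by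
  funext k
  by_cases hk : k = tm.k₁
  · subst hk
    simp [haltList]
  · simp [haltList, hk]

/-- Every polynomial time relation is computed by the universal function `U` from some
code, with a polynomial clock. -/
theorem universal_PT {R : List Bool → List Bool → Prop} (hR : PT R) :
    ∃ (c : Code) (p : Polynomial ℕ), ∀ x z, R x z → ∀ t : List Bool,
      p.eval x.length ≤ t.length → U (c, (x, t)) = z := by
  obtain ⟨M, C, hC, hM⟩ := hR
  let _ := M.tm.ΛFin
  let _ := M.tm.σFin
  let _ := M.tm.kFin
  let _ := M.tm.Γk₀Fin
  set m := M.tm.m with hm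
  set D := Finset.univ.sup fun l => depth (m l) with hD
  have hD' : ∀ l, depth (m l) ≤ D := fun l =>
    Finset.le_sup (f := fun l => depth (m l)) (Finset.mem_univ l)
  obtain ⟨p, hp⟩ := hC.mul (PB.const D)
  -- coding functions
  obtain ⟨cq, hcq⟩ := Set.countable_iff_exists_injOn.1 (QQ_finite m).countable
  have hfin : (AA M.tm.k₀ m ∪ Set.range fun b : Bool =>
      (⟨M.tm.k₁, M.outputAlphabet.symm b⟩ : Σ k, M.tm.Γ k)).Finite :=
    (AA_finite M.tm.k₀ m).union (Set.finite_range _)
  obtain ⟨cs, hcs'⟩ := Set.countable_iff_exists_injOn.1 hfin.countable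
  have hcs : Set.InjOn cs (AA M.tm.k₀ m) := hcs'.mono Set.subset_union_left
  set e := Fintype.equivFin M.tm.K
  have hTf : (TT M.tm.k₀ m cq cs e).Finite := TT_finite M.tm.k₀ m cq cs e
  set T : List Ent := hTf.toFinset.toList with hTdef
  have hT : ∀ t, t ∈ T ↔ t ∈ TT M.tm.k₀ m cq cs e := by
    intro t
    rw [hTdef, Finset.mem_toList, Set.Finite.mem_toFinset]
  refine ⟨(T, (encS cs e (fun _ => []), ((un (e M.tm.k₀), un (e M.tm.k₁)),
    ((un (cq (m M.tm.main, M.tm.initialState)), sym cs M.tm.k₁ (M.outputAlphabet.symm true)),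
      (sym cs M.tm.k₀ (M.inputAlphabet.symm false),
        sym cs M.tm.k₀ (M.inputAlphabet.symm true)))))), p, ?_⟩
  intro x z hxz t ht
  obtain ⟨n, hn, hr⟩ := hM x z hxz
  obtain ⟨N, hN, hrun⟩ := mstep_reach M.tm.k₀ m hD' hr
  -- the clock is long enough
  have hNt : N ≤ t.length := by
    have h1 := hp x.length
    have h2 : n * D ≤ C x.length * D := Nat.mul_le_mul_right D hn
    simp only at h1
    omega
  have hfix : ∀ j, (mstep M.tm.k₀ m)^[j]
      (toM m (haltList M.tm (z.map M.outputAlphabet.symm))) =
      toM m (haltList M.tm (z.map M.outputAlphabet.symm)) := by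
    intro j
    refine Function.iterate_fixed ?_ j
    exact mstep_halt M.tm.k₀ m _ _
  have hrun' : (mstep M.tm.k₀ m)^[t.length]
      (toM m (initList M.tm (x.map M.inputAlphabet.symm))) =
      toM m (haltList M.tm (z.map M.outputAlphabet.symm)) := by
    obtain ⟨j, hj⟩ := Nat.exists_eq_add_of_le hNt
    rw [hj, add_comm, Function.iterate_add_apply, hrun, hfix]
  -- the initial configuration
  have hinit : toM m (initList M.tm (x.map M.inputAlphabet.symm)) =
      ((m M.tm.main, M.tm.initialState),
        update (fun _ => []) M.tm.k₀ (x.map M.inputAlphabet.symm)) := by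
    rw [← initList_stk]; rfl
  have hgood : Good M.tm.k₀ m (toM m (initList M.tm (x.map M.inputAlphabet.symm))) := by
    rw [hinit]
    refine ⟨Or.inr ⟨M.tm.main, TM2.stmts₁_self⟩, ?_⟩
    intro k a ha
    by_cases hk : k = M.tm.k₀
    · exact Or.inr hk
    · simp [update_of_ne hk] at ha
  have henc0 : (un (cq (m M.tm.main, M.tm.initialState)),
      upd (encS cs e (fun _ => [])) (un (e M.tm.k₀))
        (x.map fun b => if b then sym cs M.tm.k₀ (M.inputAlphabet.symm true)
          else sym cs M.tm.k₀ (M.inputAlphabet.symm false))) =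
      encC cq cs e (toM m (initList M.tm (x.map M.inputAlphabet.symm))) := by
    have h1 : (x.map fun b => if b then sym cs M.tm.k₀ (M.inputAlphabet.symm true)
          else sym cs M.tm.k₀ (M.inputAlphabet.symm false)) =
        encw cs M.tm.k₀ (x.map M.inputAlphabet.symm) := by
      rw [encw, List.map_map]
      refine List.map_congr_left fun b _ => ?_
      cases b <;> simp
    rw [h1, upd_encS, hinit, encC]
    simp
  have hfinal : (ustep T)^[t.length] (un (cq (m M.tm.main, M.tm.initialState)),
      upd (encS cs e (fun _ => [])) (un (e M.tm.k₀))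
        (x.map fun b => if b then sym cs M.tm.k₀ (M.inputAlphabet.symm true)
          else sym cs M.tm.k₀ (M.inputAlphabet.symm false))) =
      encC cq cs e (toM m (haltList M.tm (z.map M.outputAlphabet.symm))) := by
    rw [henc0, ustep_iter_encC M.tm.k₀ m cq cs e hcq hcs T hT hgood, hrun']
  have hstk : (toM m (haltList M.tm (z.map M.outputAlphabet.symm))).2 =
      update (fun _ => []) M.tm.k₁ (z.map M.outputAlphabet.symm) := by
    rw [← haltList_stk]; rfl
  simp only [U]
  rw [hfinal]
  simp only [encC]
  rw [hstk, drop_encS, update_self, encw, List.map_map, List.map_map]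
  conv_rhs => rw [← List.map_id z]
  refine List.map_congr_left fun b _ => ?_
  simp only [Function.comp_apply, id]
  rw [Bool.eq_iff_iff, leneq_iff]
  simp only [sym, un_length, Nat.add_right_cancel_iff]
  constructor
  · intro h
    have h1 := hcs' (Or.inr ⟨b, rfl⟩) (Or.inr ⟨true, rfl⟩) h
    simp only [Sigma.mk.injEq, heq_eq_eq, true_and] at h1
    exact M.outputAlphabet.symm.injective h1
  · intro h
    rw [h]

/-- Every polynomial time function on words is computed by the universal function `U` from some
code, with a polynomial clock. -/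
theorem universal {g : List Bool → List Bool} (hg : FP g) :
    ∃ (c : Code) (p : Polynomial ℕ), ∀ x t : List Bool, p.eval x.length ≤ t.length →
      U (c, (x, t)) = g x := by
  obtain ⟨c, p, h⟩ := universal_PT hg.to_raw
  exact ⟨c, p, fun x t ht => h x _ rfl t ht⟩

end Pool.Agent.Helper22
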