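import Mathlib
import Pool.Agent.Helper22.UnivThm

set_option autoImplicit false

/-!
# Enumerations: all words, all codes; bounded searches
-/

namespace Pool.Agent.Helper22

open Turing Function N487b59b3 N68a2faeb

section

variable {α β γ δ : Type} [N487b59b3 α] [N487b59b3 β] [N487b59b3 γ] [N487b59b3 δ]

/-! ## any, first -/

theorem foldl_or (l : List Bool) (b : Bool) : l.foldl (fun s x => s || x) b = (b || l.any id) := by
  induction l generalizing b with
  | nil => simp
  | cons a l ih => simp [ih, Bool.or_assoc]

theorem FP.any_ctx [Inhabited β] {P : γ × β → Bool} (hP : FP P) :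
    FP fun p : γ × List β => p.2.any fun b => P (p.1, b) := by
  have h1 := FP.map_ctx hP
  have h2 : FP fun p : List Bool × Bool => p.1.foldl (fun s x => s || x) p.2 := by
    refine FP.foldl (g := fun s x : Bool => s || x) (FP.or FP.fst FP.snd)
      (B := fun n => n + 1) (by fun_prop) ?_
    intro l a
    simp
  have h3 := h2.comp (h1.pair (FP.const false))
  refine (congrArg FP (funext fun p => ?_)).mp h3
  simp only [foldl_or, Bool.false_or, List.any_map]
  rfl

/-- the first flagged element of a list -/
def first (l : List (Bool × β)) : Bool × β → Bool × β := fun s =>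
  l.foldl (fun s e => if s.1 then s else e) s

theorem first_FP [Inhabited β] : FP fun p : List (Bool × β) × (Bool × β) => first p.1 p.2 := by
  unfold first
  refine FP.foldl (g := fun s e : Bool × β => if s.1 then s else e) (FP.ite (by fun_prop)
    FP.fst FP.snd) (B := fun n => n) (by fun_prop) ?_
  intro l a
  induction l generalizing a with
  | nil => simp
  | cons e l ih =>
    have h1 := ih (if a.1 then a else e)
    simp only [List.foldl_cons, sz_cons] at h1 ⊢
    split_ifs at h1 ⊢ <;> omega

theorem first_true (l : List (Bool × β)) (b : β) : first l (true, b) = (true, b) := by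
  unfold first
  induction l with
  | nil => rfl
  | cons e l ih => simpa using ih

/-- `first` finds the element after unflagged ones -/
theorem first_spec (l₁ l₂ : List (Bool × β)) (b : β) (s : Bool × β) (hs : s.1 = false)
    (h : ∀ e ∈ l₁, e.1 = false) : first (l₁ ++ (true, b) :: l₂) s = (true, b) := by
  induction l₁ generalizing s with
  | nil =>
    have h1 := first_true l₂ b
    unfold first at h1 ⊢
    simpa [hs] using h1
  | cons e l₁ ih =>
    have h1 := ih e (h e (by simp)) fun e' he' => h e' (by simp [he'])
    unfold first at h1 ⊢
    simpa [hs] using h1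

/-! ## Enumeration of the words -/

/-- successor of a word -/
def nxt : List Bool → List Bool
  | [] => [false]
  | false :: l => true :: l
  | true :: l => false :: nxt l

/-- one step of the computation of `nxt` -/
def nxtStep (s : Bool × List Bool) (b : Bool) : Bool × List Bool :=
  if s.1 then (if b then (true, s.2 ++ [false]) else (false, s.2 ++ [true]))
  else (false, s.2 ++ [b])

theorem nxtStep_false (l a : List Bool) : l.foldl nxtStep (false, a) = (false, a ++ l) := by
  induction l generalizing a with
  | nil => simp
  | cons b l ih =>
    rw [List.foldl_cons]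
    have : nxtStep (false, a) b = (false, a ++ [b]) := by simp [nxtStep]
    rw [this, ih]; simp

theorem nxt_eq (l a : List Bool) :
    (if (l.foldl nxtStep (true, a)).1 then (l.foldl nxtStep (true, a)).2 ++ [false]
      else (l.foldl nxtStep (true, a)).2) = a ++ nxt l := by
  induction l generalizing a with
  | nil => simp [nxt]
  | cons b l ih =>
    rw [List.foldl_cons]
    cases b
    · have : nxtStep (true, a) false = (false, a ++ [true]) := by simp [nxtStep]
      rw [this, nxtStep_false]; simp [nxt]
    · have : nxtStep (true, a) true = (true, a ++ [false]) := by simp [nxtStep]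
      rw [this, ih]; simp [nxt]

theorem nxtStep_length (l : List Bool) (s : Bool × List Bool) :
    (l.foldl nxtStep s).2.length = s.2.length + l.length := by
  induction l generalizing s with
  | nil => simp
  | cons b l ih =>
    rw [List.foldl_cons, ih]
    have : (nxtStep s b).2.length = s.2.length + 1 := by
      unfold nxtStep
      split_ifs <;> simp
    rw [this, List.length_cons]; omega

@[fun_prop]
theorem FP.nxt {f : α → List Bool} (hf : FP f) : FP fun a => Helper22.nxt (f a) := by
  have h1 : FP fun p : List Bool × (Bool × List Bool) => p.1.foldl nxtStep p.2 := by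
    refine FP.foldl (g := nxtStep) ?_ (B := fun n => 2 * n + 3) (by fun_prop) ?_
    · unfold nxtStep
      have : FP fun p : (Bool × List Bool) × Bool => [p.2] := FP.snd.cons (FP.const [])
      fun_prop
    · intro l a
      have := nxtStep_length l a
      rcases h : l.foldl nxtStep a with ⟨b, w⟩
      rw [h] at this
      obtain ⟨b', w'⟩ := a
      simp only [sz_pair, sz_bool, sz_bits] at *
      omega
  have h2 : FP fun l : List Bool => l.foldl nxtStep (true, []) :=
    h1.comp (FP.id.pair (FP.const (true, ([] : List Bool))))
  have h3 : FP fun l : List Bool => if (l.foldl nxtStep (true, [])).1 then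
      (l.foldl nxtStep (true, [])).2 ++ [false] else (l.foldl nxtStep (true, [])).2 := by
    fun_prop
  simp only [nxt_eq, List.nil_append] at h3
  exact h3.comp hf

/-- the `n`-th word -/
def enum (n : ℕ) : List Bool := nxt^[n] []

theorem enum_odd (k : ℕ) : enum (2 * k + 1) = false :: enum k := by
  induction k with
  | zero => rfl
  | succ k ih =>
    have h : 2 * (k + 1) + 1 = 2 * k + 1 + 1 + 1 := by ring
    unfold enum at *
    rw [h, Function.iterate_succ_apply', Function.iterate_succ_apply', ih]
    simp only [nxt, Function.iterate_succ_apply']

theorem enum_even (k : ℕ) : enum (2 * k + 2) = true :: enum k := by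
  have h := enum_odd k
  unfold enum at *
  rw [Function.iterate_succ_apply', h]
  rfl

theorem enum_surj (z : List Bool) : ∃ n, enum n = z := by
  induction z with
  | nil => exact ⟨0, rfl⟩
  | cons b z ih =>
    obtain ⟨n, rfl⟩ := ih
    cases b
    · exact ⟨_, enum_odd n⟩
    · exact ⟨_, enum_even n⟩

/-- the first words -/
def strs (t : List Bool) : List (List Bool) := (List.range t.length).map enum

theorem mem_strs {n : ℕ} {t : List Bool} (h : n < t.length) : enum n ∈ strs t :=
  List.mem_map.2 ⟨n, List.mem_range.2 h, rfl⟩

theorem strs_split {n : ℕ} {t : List Bool} (h : n < t.length) :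
    ∃ l, strs t = (List.range n).map enum ++ enum n :: l := by
  refine ⟨(((List.range t.length).drop (n + 1)).map enum), ?_⟩
  unfold strs
  rw [← List.map_cons, ← List.map_append]
  congr 1
  have h1 : (List.range t.length)[n]'(by simpa using h) = n := by simp
  conv_lhs => rw [← List.take_append_drop n (List.range t.length)]
  congr 1
  · rw [List.take_range]; congr 1; omega
  · rw [List.drop_eq_getElem_cons (by simpa using h), h1]

theorem strs_iter (n : ℕ) : (fun s : List Bool × List (List Bool) => (nxt s.1, s.2 ++ [s.1]))^[n]
    ([], []) = (enum n, (List.range n).map enum) := by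
  induction n with
  | zero => rfl
  | succ n ih =>
    rw [Function.iterate_succ_apply', ih]
    simp only [List.range_succ, List.map_append, List.map_cons, List.map_nil, Prod.mk.injEq,
      and_true]
    rw [enum, enum, Function.iterate_succ_apply']

theorem nxt_length (l : List Bool) : (nxt l).length ≤ l.length + 1 := by
  induction l with
  | nil => simp [nxt]
  | cons b l ih => cases b <;> simp [nxt]; omega

theorem strs_size (s : List Bool × List (List Bool)) (n : ℕ) :
    ((fun s : List Bool × List (List Bool) => (nxt s.1, s.2 ++ [s.1]))^[n] s).1.length ≤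
      s.1.length + n ∧
    sz ((fun s : List Bool × List (List Bool) => (nxt s.1, s.2 ++ [s.1]))^[n] s).2 ≤
      sz s.2 + n * (6 * (s.1.length + n) + 1) := by
  induction n with
  | zero => simp
  | succ n ih =>
    obtain ⟨h1, h2⟩ := ih
    rw [Function.iterate_succ_apply']
    set r := (fun s : List Bool × List (List Bool) => (nxt s.1, s.2 ++ [s.1]))^[n] s with hr
    have h3 := nxt_length r.1
    refine ⟨by simp only; omega, ?_⟩
    simp only [sz_append, sz_cons, sz_nil, sz_bits]
    have h4 : n * (6 * (s.1.length + n) + 1) ≤ n * (6 * (s.1.length + (n + 1)) + 1) :=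
      Nat.mul_le_mul_left _ (by omega)
    have h5 : (n + 1) * (6 * (s.1.length + (n + 1)) + 1) =
      n * (6 * (s.1.length + (n + 1)) + 1) + (6 * (s.1.length + (n + 1)) + 1) := by ring
    omega

@[fun_prop]
theorem FP.strs {f : α → List Bool} (hf : FP f) : FP fun a => Helper22.strs (f a) := by
  have h : FP fun p : List Bool × (List Bool × List (List Bool)) =>
      (fun s : List Bool × List (List Bool) => (Helper22.nxt s.1, s.2 ++ [s.1]))^[p.1.length]
        p.2 := by
    refine FP.iterate
      (f := fun s : List Bool × List (List Bool) => (Helper22.nxt s.1, s.2 ++ [s.1])) ?_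
      (B := fun n => 6 * (n + n) + 1 + (n + n * (6 * (n + n) + 1))) (by fun_prop) ?_
    · have : FP fun s : List Bool × List (List Bool) => [s.1] := FP.fst.cons (FP.const [])
      fun_prop
    · intro l a i hi
      obtain ⟨h1, h2⟩ := strs_size a i
      rcases hr : (fun s : List Bool × List (List Bool) => (Helper22.nxt s.1, s.2 ++ [s.1]))^[i] a
        with ⟨c, o⟩
      rw [hr] at h1 h2
      obtain ⟨c', o'⟩ := a
      simp only [sz_pair, sz_bits] at *
      have h3 : i ≤ 3 * l.length + (2 * (3 * c'.length) + 1 + sz o') := by omega
      have h4 : 6 * (c'.length + i) + 1 ≤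
        6 * ((3 * l.length + (2 * (3 * c'.length) + 1 + sz o')) +
          (3 * l.length + (2 * (3 * c'.length) + 1 + sz o'))) + 1 := by omega
      have h5 := Nat.mul_le_mul h3 h4
      obtain ⟨N, hN⟩ : ∃ N, N = 3 * l.length + (2 * (3 * c'.length) + 1 + sz o') := ⟨_, rfl⟩
      rw [← hN] at h5 ⊢
      omega
  have h2 := (h.comp (hf.pair (FP.const (([] : List Bool), ([] : List (List Bool)))))).snd'
  simp only [strs_iter] at h2
  exact h2

/-! ## Lists of words coded by words -/

/-- decoding a list of words -/
def ldStep (s : List (List Bool) × List Bool) : List (List Bool) × List Bool :=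
  if s.2.isEmpty then s else (s.1 ++ [Helper22.cf s.2], Helper22.cs s.2)

/-- decoding a list of words -/
def ld (s : List Bool) : List (List Bool) := (ldStep^[s.length] ([], s)).1

/-- coding a list of words -/
def lc : List (List Bool) → List Bool
  | [] => []
  | a :: l => Helper22.cd a (lc l)

theorem ldStep_lc (l a : List (List Bool)) (n : ℕ) (h : (lc l).length ≤ n) :
    ldStep^[n] (a, lc l) = (a ++ l, []) := by
  induction l generalizing a n with
  | nil =>
    refine Function.iterate_fixed ?_ n |>.trans (by simp [lc])
    simp [ldStep, lc]
  | cons b l ih =>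
    have h1 : (lc (b :: l)).length = 2 * b.length + 1 + (lc l).length := by
      rw [lc, cd_length]
    obtain ⟨n, rfl⟩ : ∃ k, n = k + 1 := ⟨n - 1, by omega⟩
    rw [Function.iterate_succ_apply]
    have h2 : ldStep (a, lc (b :: l)) = (a ++ [b], lc l) := by
      have h3 : (lc (b :: l)).isEmpty = false := by
        cases h4 : lc (b :: l) with
        | nil => rw [h4, List.length_nil] at h1; omega
        | cons _ _ => rfl
      unfold ldStep
      simp only [h3, Bool.false_eq_true, if_false]
      simp [lc]
    rw [h2, ih _ _ (by omega)]
    simp

theorem ld_lc (l : List (List Bool)) : ld (lc l) = l := by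
  rw [ld, ldStep_lc l [] _ le_rfl]; simp

theorem ldStep_size (s : List (List Bool) × List Bool) (i : ℕ) :
    sz (ldStep^[i] s).1 + 6 * (ldStep^[i] s).2.length ≤ sz s.1 + 6 * s.2.length + i := by
  induction i with
  | zero => simp
  | succ i ih =>
    rw [Function.iterate_succ_apply']
    refine le_trans ?_ (Nat.add_le_add_right ih 1)
    generalize ldStep^[i] s = r
    unfold ldStep
    split_ifs
    · omega
    · have := cfs_length_le' r.2
      simp only [sz_append, sz_cons, sz_nil, sz_bits]
      omega
where
  cfs_length_le' (s : List Bool) : (Helper22.cf s).length + (Helper22.cs s).length ≤ s.length := by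
    induction s using Helper22.cf.induct with
    | case1 b l ih => simp only [Helper22.cf, Helper22.cs, List.length_cons]; omega
    | case2 s h =>
      rcases s with _ | ⟨a, _ | ⟨b, l⟩⟩
      · simp [Helper22.cf, Helper22.cs]
      · cases a <;> simp [Helper22.cf, Helper22.cs]
      · cases a
        · simp [Helper22.cf, Helper22.cs]
        · exact absurd rfl (h b l)

@[fun_prop]
theorem FP.ld {f : α → List Bool} (hf : FP f) : FP fun a => Helper22.ld (f a) := by
  have h : FP fun p : List Bool × (List (List Bool) × List Bool) => ldStep^[p.1.length] p.2 := by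
    refine FP.iterate (f := ldStep) ?_ (B := fun n => 3 * (6 * n + n) + 1) (by fun_prop) ?_
    · unfold ldStep
      have : FP fun s : List (List Bool) × List Bool => [Helper22.cf s.2] :=
        FP.cons (by fun_prop) (FP.const [])
      fun_prop
    · intro l a i hi
      have h1 := ldStep_size a i
      rcases hr : ldStep^[i] a with ⟨c, o⟩
      rw [hr] at h1
      obtain ⟨c', o'⟩ := a
      simp only [sz_pair, sz_bits] at *
      omega
  exact (h.comp (hf.pair (FP.pair (FP.const ([] : List (List Bool))) hf))).fst'

end

end Pool.Agent.Helper22
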