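import Mathlib
import Pool.Agent.Helper22.Enum

set_option autoImplicit false

/-!
# Codes as words, clocks given by exponents
-/

namespace Pool.Agent.Helper22

open Turing Function N487b59b3 N68a2faeb

section

variable {α β γ δ : Type} [N487b59b3 α] [N487b59b3 β] [N487b59b3 γ] [N487b59b3 δ]

/-- decoding a table entry -/
def entDec (s : List Bool) : Ent :=
  ((cf s, cf (cs s)), (cf (cs (cs s)), (ld (cf (cs (cs (cs s)))), cs (cs (cs (cs s))))))

/-- coding a table entry -/
def entCode (e : Ent) : List Bool :=
  cd e.1.1 (cd e.1.2 (cd e.2.1 (cd (lc e.2.2.1) e.2.2.2)))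

theorem entDec_entCode (e : Ent) : entDec (entCode e) = e := by
  simp [entDec, entCode, ld_lc]

/-- decoding a machine -/
def codeDec (s : List Bool) : Code :=
  ((ld (cf s)).map entDec, ((ld (cf (cs s))).map ld,
    ((cf (cs (cs s)), cf (cs (cs (cs s)))),
    ((cf (cs (cs (cs (cs s)))), cf (cs (cs (cs (cs (cs s)))))),
      (cf (cs (cs (cs (cs (cs (cs s)))))), cs (cs (cs (cs (cs (cs (cs s)))))))))))

/-- coding a machine -/
def codeCode (c : Code) : List Bool :=
  cd (lc (c.1.map entCode)) (cd (lc (c.2.1.map lc)) (cd c.2.2.1.1 (cd c.2.2.1.2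
    (cd c.2.2.2.1.1 (cd c.2.2.2.1.2 (cd c.2.2.2.2.1 c.2.2.2.2.2))))))

theorem codeDec_codeCode (c : Code) : codeDec (codeCode c) = c := by
  have h1 : entDec ∘ entCode = id := by funext e; exact entDec_entCode e
  have h2 : ld ∘ lc = id := by funext e; exact ld_lc e
  simp [codeDec, codeCode, ld_lc, h1, h2]

theorem entDec_FP : FP entDec := by
  unfold entDec
  fun_prop

theorem codeDec_FP : FP codeDec := by
  have h1 : FP fun s : List Bool => (ld (cf s)).map entDec := FP.map entDec_FP (by fun_prop)
  have h2 : FP fun s : List Bool => (ld (cf (cs s))).map ld :=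
    FP.map (f := ld) (FP.ld FP.id) (by fun_prop)
  unfold codeDec
  fun_prop

/-- the universal function with codes given by words -/
def US (p : List Bool × (List Bool × List Bool)) : List Bool := U (codeDec p.1, p.2)

theorem US_FP : FP US :=
  U_FP.comp (FP.pair (codeDec_FP.comp FP.fst) FP.snd)

@[fun_prop]
theorem FP.US {f g h : α → List Bool} (hf : FP f) (hg : FP g) (hh : FP h) :
    FP fun a => Helper22.US (f a, (g a, h a)) := US_FP.comp (hf.pair (hg.pair hh))

theorem universalS {g : List Bool → List Bool} (hg : FP g) :
    ∃ (s : List Bool) (p : Polynomial ℕ), ∀ x t : List Bool, p.eval x.length ≤ t.length →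
      US (s, (x, t)) = g x := by
  obtain ⟨c, p, h⟩ := universal hg
  refine ⟨codeCode c, p, fun x t ht => ?_⟩
  rw [US, codeDec_codeCode]
  exact h x t ht

/-! ## Polynomials and powers -/

theorem poly_le_pow (p : Polynomial ℕ) : ∃ e : ℕ, ∀ n, p.eval n ≤ n ^ e + e := by
  have key : ∃ C d : ℕ, ∀ n, p.eval n ≤ C * n ^ d + C := by
    induction p using Polynomial.induction_on' with
    | add p q hp hq =>
      obtain ⟨C, d, h1⟩ := hp
      obtain ⟨C', d', h2⟩ := hq
      refine ⟨2 * (C + C'), d + d', fun n => ?_⟩
      have h3 := h1 n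
      have h4 := h2 n
      rw [Polynomial.eval_add]
      rcases Nat.eq_zero_or_pos n with rfl | hn
      · have : ∀ k : ℕ, (0 : ℕ) ^ k ≤ 1 := fun k => by
          rcases k with _ | k <;> simp
        have h5 := Nat.mul_le_mul_left C (this d)
        have h6 := Nat.mul_le_mul_left C' (this d')
        omega
      · have h5 : C * n ^ d ≤ C * n ^ (d + d') :=
          Nat.mul_le_mul_left _ (Nat.pow_le_pow_right hn (by omega))
        have h6 : C' * n ^ d' ≤ C' * n ^ (d + d') :=
          Nat.mul_le_mul_left _ (Nat.pow_le_pow_right hn (by omega))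
        have h7 : 2 * (C + C') * n ^ (d + d') = 2 * (C * n ^ (d + d')) + 2 * (C' * n ^ (d + d')) :=
          by ring
        omega
    | monomial m c =>
      refine ⟨c, m, fun n => ?_⟩
      rw [Polynomial.eval_monomial]; omega
  obtain ⟨C, d, h⟩ := key
  refine ⟨d + 2 * C, fun n => (h n).trans ?_⟩
  rcases Nat.lt_or_ge n 2 with hn | hn
  · have h1 : n ^ d ≤ 1 := by
      interval_cases n
      · rcases d with _ | d <;> simp
      · simp
    have := Nat.mul_le_mul_left C h1
    omega
  · have h1 : C ≤ n ^ (2 * C) := by
      calc C ≤ 2 ^ C := Nat.lt_two_pow_self.le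
        _ ≤ n ^ C := Nat.pow_le_pow_left hn C
        _ ≤ n ^ (2 * C) := Nat.pow_le_pow_right (by omega) (by omega)
    have h2 : C * n ^ d ≤ n ^ (d + 2 * C) := by
      rw [pow_add, mul_comm]
      exact Nat.mul_le_mul_left _ h1
    omega

/-- one multiplication, truncated -/
def pwStep (s : List Bool × (List Bool × List Bool)) : List Bool × (List Bool × List Bool) :=
  ((un (s.1.length * s.2.1.length)).take (true :: s.2.2).length, s.2)

/-- `|y| ^ |e|` in unary, truncated at `|t| + 1` -/
def pw (y e t : List Bool) : List Bool := (pwStep^[e.length] ([true], (y, t))).1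

theorem pwStep_iter (y t : List Bool) (k : ℕ) :
    pwStep^[k] ([true], (y, t)) = (un (min (y.length ^ k) (t.length + 1)), (y, t)) := by
  induction k with
  | zero => simp [un]
  | succ k ih =>
    rw [Function.iterate_succ_apply', ih]
    simp only [pwStep, un_length, List.length_cons, Prod.mk.injEq, and_true]
    simp only [un, List.take_replicate]
    congr 1
    rw [pow_succ]
    generalize y.length ^ k = a
    generalize y.length = b
    generalize t.length + 1 = T
    rcases Nat.eq_zero_or_pos b with rfl | hb
    · simp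
    · rcases Nat.le_total a T with h | h
      · rw [min_eq_left h, min_comm]
      · have h1 : T ≤ T * b := Nat.le_mul_of_pos_right _ hb
        have h2 : T ≤ a * b := h1.trans (Nat.mul_le_mul_right b h)
        rw [min_eq_right h, min_eq_left h1, min_eq_right h2]

theorem pw_eq (y e t : List Bool) : pw y e t = un (min (y.length ^ e.length) (t.length + 1)) := by
  rw [pw, pwStep_iter]

@[fun_prop]
theorem FP.pw {f g h : α → List Bool} (hf : FP f) (hg : FP g) (hh : FP h) :
    FP fun a => Helper22.pw (f a) (g a) (h a) := by
  have h1 : FP fun p : List Bool × (List Bool × (List Bool × List Bool)) =>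
      pwStep^[p.1.length] p.2 := by
    refine FP.iterate (f := pwStep) ?_ (B := fun n => 2 * (n + 3) + 1 + n) (by fun_prop) ?_
    · unfold pwStep
      have h2 : FP fun s : List Bool × (List Bool × List Bool) =>
        un (s.1.length * s.2.1.length) := FP.unMul (by fun_prop) (by fun_prop)
      have h3 : FP fun s : List Bool × (List Bool × List Bool) => true :: s.2.2 := by fun_prop
      exact (FP.take h2 h3).pair (by fun_prop)
    · intro l a i _
      have key : ∀ i, (pwStep^[i] a).2 = a.2 ∧ sz (pwStep^[i] a).1 ≤ sz a.1 + sz a.2 + 3 := by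
        intro i
        induction i with
        | zero =>
          refine ⟨rfl, ?_⟩
          rw [Function.iterate_zero, _root_.id]
          omega
        | succ i ih =>
          rw [Function.iterate_succ_apply']
          obtain ⟨e1, -⟩ := ih
          refine ⟨by rw [← e1]; rfl, ?_⟩
          have h3 : sz (pwStep (pwStep^[i] a)).1 ≤ 3 * (a.2.2.length + 1) := by
            simp only [pwStep, sz_bits, List.length_take, List.length_cons, e1]
            omega
          obtain ⟨a1, a2, a3⟩ := a
          simp only [sz_pair, sz_bits] at *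
          omega
      obtain ⟨e1, e2⟩ := key i
      rcases hr : pwStep^[i] a with ⟨c, o⟩
      rw [hr] at e1 e2
      obtain ⟨a1, a2⟩ := a
      simp only [sz_pair] at *
      subst e1
      omega
  exact (h1.comp (hg.pair (FP.pair (FP.const [true]) (hf.pair hh)))).fst'

/-! ## Functions with codes `j` -/

/-- the function with code `j` -/
def fj (j y : List Bool) : List Bool :=
  US (cf j, (y, un (y.length ^ (cs j).length) ++ cs j))

/-- the function with code `j`, under a clock -/
def fjt (j y t : List Bool) : List Bool := US (cf j, (y, pw y (cs j) t ++ cs j))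

theorem fjt_eq (j y t : List Bool) (h : y.length ^ (cs j).length ≤ t.length) :
    fjt j y t = fj j y := by
  rw [fjt, fj, pw_eq, min_eq_left (by omega)]

@[fun_prop]
theorem FP.fjt {f g h : α → List Bool} (hf : FP f) (hg : FP g) (hh : FP h) :
    FP fun a => Helper22.fjt (f a) (g a) (h a) := by
  unfold Helper22.fjt
  fun_prop

theorem exists_fj {g : List Bool → List Bool} (hg : FP g) : ∃ j, ∀ y, fj j y = g y := by
  obtain ⟨s, p, h⟩ := universalS hg
  obtain ⟨e, he⟩ := poly_le_pow p
  refine ⟨cd s (un e), fun y => ?_⟩
  rw [fj, cf_cd, cs_cd]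
  refine h _ _ ((he _).trans ?_)
  simp

end

end Pool.Agent.Helper22
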