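import Mathlib
import Pool.Agent.Helper22.Codes

set_option autoImplicit false

/-!
# There are countably many polynomial time functions
-/

namespace Pool.Agent.Helper22

open Turing Function N487b59b3 N68a2faeb

/-- There are only countably many polynomial time functions. -/
theorem countable_FP (α β : Type) [N487b59b3 α] [N487b59b3 β] :
    {g : α → β | FP g}.Countable := by
  have h : ∀ g : {g : α → β | FP g}, ∃ c : Code × ℕ, ∀ a t,
      List.length t = (bitEncode a).length ^ c.2 + c.2 →
        U (c.1, (bitEncode a, t)) = bitEncode (g.1 a) := by
    rintro ⟨g, hg⟩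
    obtain ⟨c, p, h⟩ := universal_PT hg
    obtain ⟨e, he⟩ := poly_le_pow p
    refine ⟨(c, e), fun a t ht => h _ _ ⟨a, rfl, rfl⟩ t ?_⟩
    rw [ht]
    exact he _
  choose c hc using h
  have hinj : Function.Injective c := by
    intro g g' hgg
    apply Subtype.ext
    funext a
    have h1 := hc g a (un ((bitEncode a).length ^ (c g).2 + (c g).2)) (by simp)
    have h2 := hc g' a (un ((bitEncode a).length ^ (c g).2 + (c g).2)) (by rw [hgg]; simp)
    rw [← hgg, h1] at h2
    exact (N487b59b3.toEncoding (α := β)).encode_injective h2
  have hcount : Countable (Code × ℕ) := by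
    unfold Code
    infer_instance
  exact Set.countable_coe_iff.1 hinj.countable

end Pool.Agent.Helper22
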