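import Mathlib
import Pool.Prelude.Def_F_458e953d

set_option autoImplicit false

/-!
# Families of pairs of NP predicates, uniformly complete languages for NP ∩ coNP
-/

namespace Pool.Agent.Helper22

open N68a2faeb N793a5b8e N487b59b3

/-- A uniform family of pairs of NP predicates: the index is `i`, the instance is `x`. -/
structure PairFamily where
  /-- verifier of the positive answers: `((index, instance), witness)` -/
  R₁ : (List Bool × List Bool) × List Bool → Bool
  /-- verifier of the negative answers -/
  R₀ : (List Bool × List Bool) × List Bool → Bool
  /-- bound on the witness length -/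
  q : Polynomial ℕ
  poly₁ : IsPolyTime R₁
  poly₀ : IsPolyTime R₀

/-- instance `x` of index `i` has a positive witness -/
def PairFamily.Yes (F : PairFamily) (i x : List Bool) : Prop :=
  ∃ w : List Bool, w.length ≤ F.q.eval (i.length + x.length) ∧ F.R₁ ((i, x), w) = true

/-- instance `x` of index `i` has a negative witness -/
def PairFamily.No (F : PairFamily) (i x : List Bool) : Prop :=
  ∃ w : List Bool, w.length ≤ F.q.eval (i.length + x.length) ∧ F.R₀ ((i, x), w) = true

/-- The index `i` is valid if its two NP predicates are complementary, that is, if it presents a
language of `NP ∩ coNP`. -/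
def PairFamily.Valid (F : PairFamily) (i : List Bool) : Prop :=
  ∀ x, F.Yes i x ↔ ¬ F.No i x

/-- `L` lies in `NP ∩ coNP`, and for every uniform family one polynomial time function reduces,
for all valid indices, the languages presented by them to `L`. -/
def UniformlyComplete (L : DecisionProblem) : Prop :=
  L ∈ NP ∩ coNP ∧ ∀ F : PairFamily, ∃ f : List Bool × List Bool → List Bool, IsPolyTime f ∧
    ∀ i, F.Valid i → ∀ x, (F.Yes i x ↔ L (f (i, x)) = true)

/-- For every uniform family there is a total NP search problem from whose solutions the valid
instances of the family can be decided. -/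
def SolvedByTFNP : Prop :=
  ∀ F : PairFamily, ∃ (T : TFNPProblem) (f : List Bool × List Bool → List Bool)
    (g : (List Bool × List Bool) × List Bool → Bool), IsPolyTime f ∧ IsPolyTime g ∧
    ∀ i, F.Valid i → ∀ x y, y.length ≤ T.p.eval (f (i, x)).length → T.R (f (i, x), y) = true →
      (F.Yes i x ↔ g ((i, x), y) = true)

end Pool.Agent.Helper22
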