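import Mathlib
import Pool.Agent.Helper22.PairDefs

set_option autoImplicit false

/-!
# Effectively complete languages for NP ∩ coNP
-/

namespace Pool.Agent.Helper22

open N68a2faeb N793a5b8e N487b59b3

/-- `L` lies in `NP ∩ coNP`, and for every uniform family of pairs of NP predicates one
polynomial time function `f`, which sees only the index `i`, the instance `x` and a padding `t`,
reduces the language presented by any valid index `i` to `L`, as soon as the padding is longer than
some polynomial in `|x|` (which may depend on `i`). -/
def EffectivelyComplete (L : DecisionProblem) : Prop :=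
  L ∈ NP ∩ coNP ∧ ∀ F : PairFamily,
    ∃ f : (List Bool × List Bool) × List Bool → List Bool, IsPolyTime f ∧
      ∀ i, F.Valid i → ∃ p : Polynomial ℕ, ∀ x t : List Bool,
        p.eval x.length ≤ t.length → (F.Yes i x ↔ L (f ((i, x), t)) = true)

/-- The same with a single polynomial for all valid indices, in the lengths of index and
instance. -/
def UniformlyEffectivelyComplete (L : DecisionProblem) : Prop :=
  L ∈ NP ∩ coNP ∧ ∀ F : PairFamily,
    ∃ f : (List Bool × List Bool) × List Bool → List Bool, IsPolyTime f ∧
      ∃ p : Polynomial ℕ, ∀ i, F.Valid i → ∀ x t : List Bool,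
        p.eval (i.length + x.length) ≤ t.length → (F.Yes i x ↔ L (f ((i, x), t)) = true)

end Pool.Agent.Helper22
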