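import Mathlib
import Pool.Prelude.Def_F_458e953d
import Pool.Agent.Helper22.Tools
import Pool.Agent.Helper22.PairDefs

set_option autoImplicit false

/-!
# Uniformly complete languages for NP ∩ coNP
-/

namespace Pool.Agent.Helper22

open N68a2faeb N793a5b8e N487b59b3

theorem exists_poly {f : ℕ → ℕ} (h : PB f) : ∃ p : Polynomial ℕ, ∀ n, f n ≤ p.eval n := h

theorem cf_length_le (s : List Bool) : (cf s).length ≤ s.length := by
  induction s using cf.induct with
  | case1 b l ih => simp only [cf, List.length_cons]; omega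
  | case2 s h => 
    rcases s with _ | ⟨a, _ | ⟨b, l⟩⟩
    · simp [cf]
    · cases a <;> simp [cf]
    · cases a
      · simp [cf]
      · exact absurd rfl (h b l)

theorem cfs_length_le (s : List Bool) : (cf s).length + (cs s).length ≤ s.length := by
  induction s using cf.induct with
  | case1 b l ih => simp only [cf, cs, List.length_cons]; omega
  | case2 s h => 
    rcases s with _ | ⟨a, _ | ⟨b, l⟩⟩
    · simp [cf, cs]
    · cases a <;> simp [cf, cs]
    · cases a
      · simp [cf, cs]
      · exact absurd rfl (h b l)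

section key

variable (p : Polynomial ℕ) (R : List Bool × List Bool → Bool)

/-- some witness for `y` extends `v` -/
def Below (y v : List Bool) : Prop :=
  ∃ u : List Bool, (v ++ u).length ≤ p.eval y.length ∧ R (y, v ++ u) = true

theorem below_iff (y v : List Bool) (hv : R (y, v) = false) :
    Below p R y v ↔ Below p R y (v ++ [true]) ∨ Below p R y (v ++ [false]) := by
  constructor
  · rintro ⟨u, hu, hR⟩
    rcases u with _ | ⟨b, u⟩
    · simp [hv] at hR
    · cases b
      · exact Or.inr ⟨u, by simpa using hu, by simpa using hR⟩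
      · exact Or.inl ⟨u, by simpa using hu, by simpa using hR⟩
  · rintro (⟨u, hu, hR⟩ | ⟨u, hu, hR⟩)
    · exact ⟨true :: u, by simpa using hu, by simpa using hR⟩
    · exact ⟨false :: u, by simpa using hu, by simpa using hR⟩

/-- the verifier of one branch -/
def branchR (b : Bool) (a : (List Bool × List Bool) × List Bool) : Bool :=
  R (cf a.1.1, cs a.1.1 ++ b :: a.2) &&
    decide ((cs a.1.1 ++ b :: a.2).length ≤ (un (p.eval (cf a.1.1).length)).length)

theorem branchR_FP (hR : FP R) (b : Bool) : FP (branchR p R b) := by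
  have h1 : FP fun a : (List Bool × List Bool) × List Bool => un (p.eval (cf a.1.1).length) :=
    FP.un_poly (by fun_prop) p
  have h2 : FP fun a : (List Bool × List Bool) × List Bool =>
      R (cf a.1.1, cs a.1.1 ++ b :: a.2) := hR.comp (by fun_prop)
  have h3 : FP fun a : (List Bool × List Bool) × List Bool =>
      decide ((cs a.1.1 ++ b :: a.2).length ≤ (un (p.eval (cf a.1.1).length)).length) := by
    fun_prop
  exact h2.and h3

/-- the family of comparisons of the two branches at a node of the search tree -/
def branchFamily (hR : FP R) : PairFamily where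
  R₁ := branchR p R true
  R₀ := branchR p R false
  q := p
  poly₁ := (isPolyTime_iff _).2 (branchR_FP p R hR true)
  poly₀ := (isPolyTime_iff _).2 (branchR_FP p R hR false)

theorem branch_iff (b : Bool) (y v x : List Bool) :
    (∃ w : List Bool, w.length ≤ p.eval ((cd y v).length + x.length) ∧
      branchR p R b ((cd y v, x), w) = true) ↔ Below p R y (v ++ [b]) := by
  constructor
  · rintro ⟨w, _, h⟩
    simp only [branchR, cf_cd, cs_cd, Bool.and_eq_true, decide_eq_true_eq, un_length] at h
    exact ⟨w, by simpa using h.2, by simpa using h.1⟩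
  · rintro ⟨u, hu, hR⟩
    refine ⟨u, ?_, ?_⟩
    · have h1 : u.length ≤ p.eval y.length := by
        simp only [List.length_append] at hu; omega
      refine h1.trans (poly_mono p ?_)
      rw [cd_length]; omega
    · simp only [branchR, cf_cd, cs_cd, Bool.and_eq_true, decide_eq_true_eq, un_length]
      exact ⟨by simpa using hR, by simpa using hu⟩

variable (T : TFNPProblem) (f : List Bool × List Bool → List Bool)
  (g : (List Bool × List Bool) × List Bool → Bool)

/-- one step of the verification of a certificate of non-membership;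
the state is `((y, v), (certificate, ok))` -/
def vstep (s : (List Bool × List Bool) × (List Bool × Bool)) :
    (List Bool × List Bool) × (List Bool × Bool) :=
  ((s.1.1, s.1.2 ++ [g ((cd s.1.1 s.1.2, []), cf s.2.1)]),
    (cs s.2.1, (s.2.2 && !(R (s.1.1, s.1.2))) &&
      (T.R (f (cd s.1.1 s.1.2, []), cf s.2.1) &&
        decide ((cf s.2.1).length ≤ (un (T.p.eval (f (cd s.1.1 s.1.2, [])).length)).length))))

theorem vstep_FP (hR : FP R) (hT : FP T.R) (hf : FP f) (hg : FP g) : FP (vstep R T f g) := by
  have hf' : FP fun s : (List Bool × List Bool) × (List Bool × Bool) =>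
      f (cd s.1.1 s.1.2, []) := hf.comp (by fun_prop)
  have hg' : FP fun s : (List Bool × List Bool) × (List Bool × Bool) =>
      g ((cd s.1.1 s.1.2, []), cf s.2.1) := hg.comp (by fun_prop)
  have hR' : FP fun s : (List Bool × List Bool) × (List Bool × Bool) =>
      R (s.1.1, s.1.2) := hR.comp (by fun_prop)
  have hT' : FP fun s : (List Bool × List Bool) × (List Bool × Bool) =>
      T.R (f (cd s.1.1 s.1.2, []), cf s.2.1) := hT.comp (by fun_prop)
  have hu : FP fun s : (List Bool × List Bool) × (List Bool × Bool) =>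
      un (T.p.eval (f (cd s.1.1 s.1.2, [])).length) := FP.un_poly hf' _
  have hl : FP fun s : (List Bool × List Bool) × (List Bool × Bool) =>
      decide ((cf s.2.1).length ≤ (un (T.p.eval (f (cd s.1.1 s.1.2, [])).length)).length) := by
    fun_prop
  unfold vstep
  exact FP.pair (FP.pair (by fun_prop) (FP.append (by fun_prop) (FP.cons hg' (FP.const []))))
    (FP.pair (by fun_prop) (FP.and (FP.and (by fun_prop) hR'.not) (hT'.and hl)))

theorem sz_vstep (s : (List Bool × List Bool) × (List Bool × Bool)) :
    sz (vstep R T f g s) ≤ sz s + 6 := by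
  obtain ⟨⟨y, v⟩, c, ok⟩ := s
  have := cfs_length_le c
  simp only [vstep, sz_pair, sz_bits, sz_bool, List.length_append, List.length_singleton]
  omega

theorem sz_vstep_iter (s : (List Bool × List Bool) × (List Bool × Bool)) (i : ℕ) :
    sz ((vstep R T f g)^[i] s) ≤ sz s + 6 * i := by
  induction i generalizing s with
  | zero => simp
  | succ i ih =>
    rw [Function.iterate_succ_apply]
    have h1 := ih (vstep R T f g s)
    have h2 := sz_vstep R T f g s
    omega

/-- the verifier of non-membership -/
def verify (a : List Bool × List Bool) : Bool :=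
  ((vstep R T f g)^[(un (p.eval a.1.length)).length] ((a.1, []), (a.2, true))).2.2 &&
    !(R (a.1, ((vstep R T f g)^[(un (p.eval a.1.length)).length]
      ((a.1, []), (a.2, true))).1.2))

theorem verify_FP (hR : FP R) (hT : FP T.R) (hf : FP f) (hg : FP g) : FP (verify p R T f g) := by
  have h0 := FP.iterate (β := Bool) (vstep_FP R T f g hR hT hf hg) (B := fun n => 7 * n)
    (by fun_prop) (by
      intro l a i hi
      have h1 := sz_vstep_iter R T f g a i
      have h2 := length_le_sz l
      omega)
  have h1 : FP fun a : List Bool × List Bool =>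
      (vstep R T f g)^[(un (p.eval a.1.length)).length] ((a.1, []), (a.2, true)) :=
    h0.comp (FP.pair (FP.un_poly (by fun_prop) p) (by fun_prop))
  have h2 : FP fun a : List Bool × List Bool =>
      R (a.1, ((vstep R T f g)^[(un (p.eval a.1.length)).length]
      ((a.1, []), (a.2, true))).1.2) := hR.comp (FP.pair (by fun_prop) (by fun_prop))
  exact FP.and (by fun_prop) h2.not

theorem vstep_fst (s : (List Bool × List Bool) × (List Bool × Bool)) (i : ℕ) :
    ((vstep R T f g)^[i] s).1.1 = s.1.1 ∧
    ((vstep R T f g)^[i] s).1.2.length = s.1.2.length + i := by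
  induction i generalizing s with
  | zero => simp
  | succ i ih =>
    rw [Function.iterate_succ_apply]
    obtain ⟨h1, h2⟩ := ih (vstep R T f g s)
    rw [h1, h2]
    simp only [vstep, List.length_append, List.length_singleton]
    exact ⟨trivial, by omega⟩

variable {p R T f g}

theorem vstep_sound (hR : FP R)
    (hfam : ∀ i, (branchFamily p R hR).Valid i → ∀ x y,
      y.length ≤ T.p.eval (f (i, x)).length → T.R (f (i, x), y) = true →
      ((branchFamily p R hR).Yes i x ↔ g ((i, x), y) = true))
    (s : (List Bool × List Bool) × (List Bool × Bool)) (hs : Below p R s.1.1 s.1.2)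
    (hok : (vstep R T f g s).2.2 = true) :
    s.2.2 = true ∧ Below p R (vstep R T f g s).1.1 (vstep R T f g s).1.2 := by
  obtain ⟨⟨y, v⟩, c, ok⟩ := s
  simp only [vstep, Bool.and_eq_true, Bool.not_eq_true', decide_eq_true_eq, un_length] at hok hs ⊢
  obtain ⟨⟨hok1, hRv⟩, hT, hlen⟩ := hok
  refine ⟨hok1, ?_⟩
  have hb := (below_iff p R y v hRv).1 hs
  by_cases h1 : Below p R y (v ++ [true])
  · by_cases h0 : Below p R y (v ++ [false])
    · cases g ((cd y v, []), cf c)
      · exact h0
      · exact h1
    · have hval : (branchFamily p R hR).Valid (cd y v) := by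
        intro x
        have e1 : (branchFamily p R hR).Yes (cd y v) x ↔ Below p R y (v ++ [true]) :=
          branch_iff p R true y v x
        have e0 : (branchFamily p R hR).No (cd y v) x ↔ Below p R y (v ++ [false]) :=
          branch_iff p R false y v x
        rw [e1, e0]
        exact ⟨fun _ => h0, fun _ => h1⟩
      have h := hfam (cd y v) hval [] (cf c) hlen hT
      have e1 : (branchFamily p R hR).Yes (cd y v) [] ↔ Below p R y (v ++ [true]) :=
          branch_iff p R true y v []
      rw [e1] at h
      rw [h.1 h1]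
      exact h1
  · have h0 : Below p R y (v ++ [false]) := hb.resolve_left h1
    have hval : (branchFamily p R hR).Valid (cd y v) := by
      intro x
      have e1 : (branchFamily p R hR).Yes (cd y v) x ↔ Below p R y (v ++ [true]) :=
        branch_iff p R true y v x
      have e0 : (branchFamily p R hR).No (cd y v) x ↔ Below p R y (v ++ [false]) :=
        branch_iff p R false y v x
      rw [e1, e0]
      exact ⟨fun h => absurd h h1, fun h => absurd h0 h⟩
    have h := hfam (cd y v) hval [] (cf c) hlen hT
    have e1 : (branchFamily p R hR).Yes (cd y v) [] ↔ Below p R y (v ++ [true]) :=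
        branch_iff p R true y v []
    rw [e1] at h
    have hg : g ((cd y v, []), cf c) = false := by
      rw [← Bool.not_eq_true]; exact fun hh => h1 (h.2 hh)
    rw [hg]
    exact h0

theorem vstep_sound_iter (hR : FP R)
    (hfam : ∀ i, (branchFamily p R hR).Valid i → ∀ x y,
      y.length ≤ T.p.eval (f (i, x)).length → T.R (f (i, x), y) = true →
      ((branchFamily p R hR).Yes i x ↔ g ((i, x), y) = true)) (i : ℕ)
    (s : (List Bool × List Bool) × (List Bool × Bool)) (hs : Below p R s.1.1 s.1.2)
    (hok : ((vstep R T f g)^[i] s).2.2 = true) :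
    s.2.2 = true ∧ Below p R ((vstep R T f g)^[i] s).1.1 ((vstep R T f g)^[i] s).1.2 := by
  induction i with
  | zero => exact ⟨hok, hs⟩
  | succ i ih =>
    rw [Function.iterate_succ_apply'] at hok ⊢
    -- first get that the flag was already true at stage `i`
    have hflag : ((vstep R T f g)^[i] s).2.2 = true := by
      simp only [vstep, Bool.and_eq_true] at hok
      exact hok.1.1
    obtain ⟨h1, h2⟩ := ih hflag
    exact ⟨h1, (vstep_sound hR hfam _ h2 hok).2⟩

/-- existence of certificates -/
theorem exists_cert (y : List Bool) (m D : ℕ)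
    (hno : ∀ v : List Bool, v.length ≤ m → R (y, v) = false)
    (hD : ∀ v : List Bool, v.length ≤ m → T.p.eval (f (cd y v, [])).length ≤ D) (j : ℕ) :
    ∀ v : List Bool, v.length + j ≤ m → ∃ c : List Bool, c.length ≤ j * (2 * D + 1) ∧
      ((vstep R T f g)^[j] ((y, v), (c, true))).2.2 = true := by
  induction j with
  | zero => intro v _; exact ⟨[], by simp, rfl⟩
  | succ j ih =>
    intro v hv
    obtain ⟨t, ht, hTt⟩ := T.total (f (cd y v, []))
    obtain ⟨c, hc, hok⟩ := ih (v ++ [g ((cd y v, []), t)]) (by simp; omega)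
    refine ⟨cd t c, ?_, ?_⟩
    · rw [cd_length]
      have h1 := hD v (by omega)
      have h2 : (j + 1) * (2 * D + 1) = j * (2 * D + 1) + (2 * D + 1) := by ring
      omega
    · rw [Function.iterate_succ_apply]
      have e : vstep R T f g ((y, v), (cd t c, true)) =
          ((y, v ++ [g ((cd y v, []), t)]), (c, true)) := by
        simp [vstep, hno v (by omega), hTt, ht]
      rw [e]
      exact hok

end key

theorem np_subset_coNP_of_solved (h : SolvedByTFNP) : NP ⊆ coNP := by
  rintro L ⟨p, R, hR, hL⟩
  have hR' := (isPolyTime_iff R).1 hR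
  obtain ⟨T, f, g, hf, hg, hfam⟩ := h (branchFamily p R hR')
  have hf' := (isPolyTime_iff f).1 hf
  have hg' := (isPolyTime_iff g).1 hg
  have hT' := (isPolyTime_iff T.R).1 T.polyTime
  obtain ⟨Bf, hBf, hBm, hBle⟩ := hf'.bound
  -- bound for the certificates
  have hPB : PB fun n => p.eval n *
      (2 * T.p.eval (Bf (2 * (3 * (2 * n + 1 + p.eval n)) + 1)) + 1) := by
    have h1 : PB fun n => p.eval n := PB.poly p
    have h2 : PB fun n => T.p.eval n := PB.poly T.p
    have h3 : PB fun n => Bf (2 * (3 * (2 * n + 1 + p.eval n)) + 1) := by fun_prop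
    have h4 : PB fun n => T.p.eval (Bf (2 * (3 * (2 * n + 1 + p.eval n)) + 1)) := h2.comp h3
    fun_prop
  obtain ⟨p', hp'⟩ := exists_poly hPB
  refine ⟨p', verify p R T f g, (isPolyTime_iff _).2 (verify_FP p R T f g hR' hT' hf' hg'), ?_⟩
  intro y
  have hcompl : (Lᶜ y = true) ↔ ¬ (L y = true) := by
    simp
  rw [hcompl, hL]
  constructor
  · intro hno
    have hno' : ∀ v : List Bool, v.length ≤ p.eval y.length → R (y, v) = false := by
      intro v hv
      rw [← Bool.not_eq_true]
      exact fun hRv => hno ⟨v, hv, hRv⟩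
    have hD : ∀ v : List Bool, v.length ≤ p.eval y.length → T.p.eval (f (cd y v, [])).length ≤
        T.p.eval (Bf (2 * (3 * (2 * y.length + 1 + p.eval y.length)) + 1)) := by
      intro v hv
      refine poly_mono T.p ?_
      have h1 := hBle (cd y v, [])
      have h2 : (f (cd y v, [])).length ≤ sz (f (cd y v, [])) := length_le_sz _
      refine h2.trans (h1.trans (hBm ?_))
      simp only [sz_pair, sz_bits, cd_length, List.length_nil]
      omega
    obtain ⟨c, hc, hok⟩ := exists_cert (R := R) (T := T) (f := f) (g := g) y _ _ hno' hD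
      (p.eval y.length) [] (by simp)
    refine ⟨c, hc.trans (hp' _), ?_⟩
    simp only [verify, un_length, Bool.and_eq_true, Bool.not_eq_true']
    refine ⟨hok, hno' _ ?_⟩
    have := (vstep_fst R T f g ((y, []), (c, true)) (p.eval y.length)).2
    rw [this]
    simp
  · rintro ⟨c, _, hver⟩ ⟨w, hw, hRw⟩
    simp only [verify, un_length, Bool.and_eq_true, Bool.not_eq_true'] at hver
    obtain ⟨hok, hfin⟩ := hver
    have hb : Below p R y [] := ⟨w, by simpa using hw, by simpa using hRw⟩
    have h1 := (vstep_sound_iter (p := p) hR' hfam (p.eval y.length) ((y, []), (c, true)) hb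
      hok).2
    obtain ⟨h2, h3⟩ := vstep_fst R T f g ((y, []), (c, true)) (p.eval y.length)
    obtain ⟨u, hu, hRu⟩ := h1
    rw [h2] at hu hRu
    simp only [List.length_append, h3, List.length_nil] at hu
    have hu0 : u = [] := List.eq_nil_of_length_eq_zero (by omega)
    subst hu0
    rw [List.append_nil] at hRu
    rw [hRu] at hfin
    exact Bool.noConfusion hfin

theorem np_eq_coNP_of_subset (h : NP ⊆ coNP) : NP = coNP := by
  refine Set.Subset.antisymm h ?_
  intro L hL
  have h1 : Lᶜ ∈ NP := hL
  have h2 : Lᶜᶜ ∈ NP := h h1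
  rwa [compl_compl] at h2

theorem np_eq_coNP_of_solved (h : SolvedByTFNP) : NP = coNP :=
  np_eq_coNP_of_subset (np_subset_coNP_of_solved h)

/-- verifier of the search problem attached to a language in `NP ∩ coNP` -/
def searchR (p₁ p₀ : Polynomial ℕ) (R₁ R₀ : List Bool × List Bool → Bool)
    (a : List Bool × List Bool) : Bool :=
  if a.2.isEmpty then false else
  if a.2.headD false then
    R₁ (a.1, a.2.tail) && decide (a.2.tail.length ≤ (un (p₁.eval a.1.length)).length)
  else R₀ (a.1, a.2.tail) && decide (a.2.tail.length ≤ (un (p₀.eval a.1.length)).length)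

theorem searchR_FP {p₁ p₀ : Polynomial ℕ} {R₁ R₀ : List Bool × List Bool → Bool}
    (h₁ : FP R₁) (h₀ : FP R₀) : FP (searchR p₁ p₀ R₁ R₀) := by
  have a1 : FP fun a : List Bool × List Bool => R₁ (a.1, a.2.tail) := h₁.comp (by fun_prop)
  have a0 : FP fun a : List Bool × List Bool => R₀ (a.1, a.2.tail) := h₀.comp (by fun_prop)
  have b1 : FP fun a : List Bool × List Bool => un (p₁.eval a.1.length) :=
    FP.un_poly (by fun_prop) _
  have b0 : FP fun a : List Bool × List Bool => un (p₀.eval a.1.length) :=
    FP.un_poly (by fun_prop) _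
  have c1 : FP fun a : List Bool × List Bool =>
      decide (a.2.tail.length ≤ (un (p₁.eval a.1.length)).length) := by fun_prop
  have c0 : FP fun a : List Bool × List Bool =>
      decide (a.2.tail.length ≤ (un (p₀.eval a.1.length)).length) := by fun_prop
  exact FP.ite (FP.isEmpty FP.snd) (FP.const false)
    (FP.ite (FP.headD FP.snd _) (a1.and c1) (a0.and c0))

theorem solved_of_complete {L : DecisionProblem} (h : UniformlyComplete L) : SolvedByTFNP := by
  obtain ⟨⟨⟨p₁, R₁, hR₁, hL₁⟩, ⟨p₀, R₀, hR₀, hL₀⟩⟩, hcomp⟩ := h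
  intro F
  obtain ⟨f, hf, hfam⟩ := hcomp F
  have hcompl : ∀ z, (Lᶜ z = true) ↔ ¬ (L z = true) := by intro z; simp
  refine ⟨⟨searchR p₁ p₀ R₁ R₀, 1 + p₁ + p₀,
    (isPolyTime_iff _).2 (searchR_FP ((isPolyTime_iff _).1 hR₁) ((isPolyTime_iff _).1 hR₀)),
    ?_⟩, f, fun a => a.2.headD false, hf,
    (isPolyTime_iff _).2 (FP.headD FP.snd _), ?_⟩
  · intro z
    by_cases hz : L z = true
    · obtain ⟨w, hw, hRw⟩ := (hL₁ z).1 hz
      refine ⟨true :: w, ?_, ?_⟩
      · simp only [List.length_cons, Polynomial.eval_add, Polynomial.eval_one]; omega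
      · simp [searchR, hRw, hw]
    · obtain ⟨w, hw, hRw⟩ := (hL₀ z).1 ((hcompl z).2 hz)
      refine ⟨false :: w, ?_, ?_⟩
      · simp only [List.length_cons, Polynomial.eval_add, Polynomial.eval_one]; omega
      · simp [searchR, hRw, hw]
  · intro i hi x y _ hy
    rw [hfam i hi x]
    rcases y with _ | ⟨b, w⟩
    · simp [searchR] at hy
    · cases b
      · simp only [searchR, List.isEmpty_cons, Bool.false_eq_true, if_false, List.headD_cons,
          List.tail_cons, un_length, Bool.and_eq_true, decide_eq_true_eq] at hy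
        have h1 := (hcompl _).1 ((hL₀ (f (i, x))).2 ⟨w, hy.2, hy.1⟩)
        simp [h1]
      · simp only [searchR, List.isEmpty_cons, Bool.false_eq_true, if_false, List.headD_cons,
          List.tail_cons, un_length, if_true, Bool.and_eq_true, decide_eq_true_eq] at hy
        have h1 := (hL₁ (f (i, x))).2 ⟨w, hy.2, hy.1⟩
        simp [h1]

theorem complete_of_eq (h : NP = coNP) {L : DecisionProblem} (hL : IsCompleteFor NP L) :
    UniformlyComplete L := by
  refine ⟨⟨hL.1, h ▸ hL.1⟩, fun F => ?_⟩
  classical
  have hA : (fun s => decide (F.Yes (cf s) (cs s)) : DecisionProblem) ∈ NP := by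
    have h1 := (isPolyTime_iff _).1 F.poly₁
    have a1 : FP fun a : List Bool × List Bool => F.R₁ ((cf a.1, cs a.1), a.2) :=
      h1.comp (by fun_prop)
    have b1 : FP fun a : List Bool × List Bool =>
      un (F.q.eval (cf a.1 ++ cs a.1).length) := FP.un_poly (by fun_prop) _
    have c1 : FP fun a : List Bool × List Bool =>
      decide (a.2.length ≤ (un (F.q.eval (cf a.1 ++ cs a.1).length)).length) := by fun_prop
    refine ⟨F.q, fun a => F.R₁ ((cf a.1, cs a.1), a.2) &&
      decide (a.2.length ≤ (un (F.q.eval (cf a.1 ++ cs a.1).length)).length),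
      (isPolyTime_iff _).2 (a1.and c1), ?_⟩
    intro s
    simp only [decide_eq_true_eq, PairFamily.Yes, un_length, List.length_append,
      Bool.and_eq_true]
    constructor
    · rintro ⟨w, hw, hR⟩
      exact ⟨w, hw.trans (poly_mono _ (cfs_length_le s)), hR, hw⟩
    · rintro ⟨w, _, hR, hw⟩
      exact ⟨w, hw, hR⟩
  obtain ⟨h1, hh1, hred⟩ := hL.2 _ hA
  refine ⟨fun a => h1 (cd a.1 a.2), (isPolyTime_iff _).2
    (((isPolyTime_iff _).1 hh1).comp (by fun_prop)), fun i _ x => ?_⟩
  have h2 := hred (cd i x)
  simp only [cf_cd, cs_cd] at h2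
  rw [← h2, decide_eq_true_eq]

theorem complete_of_uniform {L : DecisionProblem} (h : UniformlyComplete L) :
    IsCompleteFor (NP ∩ coNP) L := by
  refine ⟨h.1, ?_⟩
  rintro A ⟨⟨p₁, R₁, hR₁, hA₁⟩, ⟨p₀, R₀, hR₀, hA₀⟩⟩
  have hcompl : ∀ z, (Aᶜ z = true) ↔ ¬ (A z = true) := by intro z; simp
  have h1 := (isPolyTime_iff _).1 hR₁
  have h0 := (isPolyTime_iff _).1 hR₀
  have a1 : FP fun a : (List Bool × List Bool) × List Bool => R₁ (a.1.2, a.2) :=
    h1.comp (by fun_prop)
  have b1 : FP fun a : (List Bool × List Bool) × List Bool =>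
    un (p₁.eval a.1.2.length) := FP.un_poly (by fun_prop) _
  have c1 : FP fun a : (List Bool × List Bool) × List Bool =>
    decide (a.2.length ≤ (un (p₁.eval a.1.2.length)).length) := by fun_prop
  have a0 : FP fun a : (List Bool × List Bool) × List Bool => R₀ (a.1.2, a.2) :=
    h0.comp (by fun_prop)
  have b0 : FP fun a : (List Bool × List Bool) × List Bool =>
    un (p₀.eval a.1.2.length) := FP.un_poly (by fun_prop) _
  have c0 : FP fun a : (List Bool × List Bool) × List Bool =>
    decide (a.2.length ≤ (un (p₀.eval a.1.2.length)).length) := by fun_prop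
  let F : PairFamily := ⟨_, _, p₁ + p₀, (isPolyTime_iff _).2 (a1.and c1),
    (isPolyTime_iff _).2 (a0.and c0)⟩
  have e1 : ∀ i x, F.Yes i x ↔ A x = true := by
    intro i x
    rw [hA₁]
    simp only [PairFamily.Yes, F, un_length, Bool.and_eq_true, decide_eq_true_eq]
    constructor
    · rintro ⟨w, _, hR, hw⟩; exact ⟨w, hw, hR⟩
    · rintro ⟨w, hw, hR⟩
      refine ⟨w, ?_, hR, hw⟩
      have := poly_mono p₁ (show x.length ≤ i.length + x.length by omega)
      simp only [Polynomial.eval_add] at this ⊢
      omega
  have e0 : ∀ i x, F.No i x ↔ ¬ A x = true := by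
    intro i x
    rw [← hcompl, hA₀]
    simp only [PairFamily.No, F, un_length, Bool.and_eq_true, decide_eq_true_eq]
    constructor
    · rintro ⟨w, _, hR, hw⟩; exact ⟨w, hw, hR⟩
    · rintro ⟨w, hw, hR⟩
      refine ⟨w, ?_, hR, hw⟩
      have := poly_mono p₀ (show x.length ≤ i.length + x.length by omega)
      simp only [Polynomial.eval_add] at this ⊢
      omega
  obtain ⟨f, hf, hfam⟩ := h.2 F
  refine ⟨fun x => f ([], x), (isPolyTime_iff _).2 (((isPolyTime_iff _).1 hf).comp
    (by fun_prop)), fun x => ?_⟩
  have h2 := hfam [] (fun x => by rw [e1, e0, not_not]) x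
  rw [e1] at h2
  exact Bool.eq_iff_iff.2 h2

end Pool.Agent.Helper22
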