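import Mathlib
import Pool.Agent.Helper22.Codes
import Pool.Agent.Helper22.Uniform
import Pool.Agent.Helper22.EffDefs

set_option autoImplicit false

/-!
# Complete languages are effectively complete
-/

namespace Pool.Agent.Helper22

open Turing Function N487b59b3 N68a2faeb N793a5b8e

section

variable (F : PairFamily) (p₁ p₀ : Polynomial ℕ) (S₁ S₀ : List Bool × List Bool → Bool)

/-- witness check of a family -/
def wF (R : (List Bool × List Bool) × List Bool → Bool) (q : Polynomial ℕ)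
    (a : (List Bool × List Bool) × List Bool) : Bool :=
  R a && decide (a.2.length ≤ (un (q.eval (a.1.1 ++ a.1.2).length)).length)

/-- witness check of a language -/
def wL (S : List Bool × List Bool → Bool) (p : Polynomial ℕ) (a : List Bool × List Bool) : Bool :=
  S a && decide (a.2.length ≤ (un (p.eval a.1.length)).length)

theorem wF_FP {R : (List Bool × List Bool) × List Bool → Bool} (hR : FP R) (q : Polynomial ℕ) :
    FP (wF R q) := by
  have h1 : FP fun a : (List Bool × List Bool) × List Bool =>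
    un (q.eval (a.1.1 ++ a.1.2).length) := FP.un_poly (by fun_prop) _
  unfold wF
  fun_prop

theorem wL_FP {S : List Bool × List Bool → Bool} (hS : FP S) (p : Polynomial ℕ) :
    FP (wL S p) := by
  have h1 : FP fun a : List Bool × List Bool => un (p.eval a.1.length) :=
    FP.un_poly (by fun_prop) _
  unfold wL
  fun_prop

theorem wF_iff {R : (List Bool × List Bool) × List Bool → Bool} {q : Polynomial ℕ}
    {i x w : List Bool} : wF R q ((i, x), w) = true ↔
      w.length ≤ q.eval (i.length + x.length) ∧ R ((i, x), w) = true := by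
  simp [wF, and_comm]

theorem wL_iff {S : List Bool × List Bool → Bool} {p : Polynomial ℕ}
    {x w : List Bool} : wL S p (x, w) = true ↔ w.length ≤ p.eval x.length ∧ S (x, w) = true := by
  simp [wL, and_comm]

/-- `z` shows that the function with code `j` does not reduce the language with index `i` -/
def refute (c : ((List Bool × List Bool) × List Bool) × List Bool) : Bool :=
  decide ((pw (cf c.2) (cs c.1.1.2) c.1.2).length ≤ c.1.2.length) &&
    ((wF F.R₁ F.q ((c.1.1.1, cf c.2), cf (cs c.2)) &&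
        wL S₀ p₀ (fjt c.1.1.2 (cf c.2) c.1.2, cs (cs c.2))) ||
      (wF F.R₀ F.q ((c.1.1.1, cf c.2), cf (cs c.2)) &&
        wL S₁ p₁ (fjt c.1.1.2 (cf c.2) c.1.2, cs (cs c.2))))

/-- flags of the candidates -/
def flag (c : (List Bool × List Bool) × List Bool) : Bool :=
  !((strs c.1.2).any fun z => refute F p₁ p₀ S₁ S₀ (((c.1.1, c.2), c.1.2), z))

/-- the selected candidate -/
def sel (i t : List Bool) : List Bool :=
  (first ((strs t).map fun j => (flag F p₁ p₀ S₁ S₀ ((i, t), j), j)) (false, [])).2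

/-- the reduction -/
def red (a : (List Bool × List Bool) × List Bool) : List Bool :=
  fjt (sel F p₁ p₀ S₁ S₀ a.1.1 a.2) a.1.2 a.2

variable {F p₁ p₀ S₁ S₀}

theorem refute_FP (h₁ : FP F.R₁) (h₀ : FP F.R₀) (hS₁ : FP S₁) (hS₀ : FP S₀) :
    FP (refute F p₁ p₀ S₁ S₀) := by
  have a1 : FP fun c : ((List Bool × List Bool) × List Bool) × List Bool =>
      wF F.R₁ F.q ((c.1.1.1, cf c.2), cf (cs c.2)) := (wF_FP h₁ _).comp (by fun_prop)
  have a0 : FP fun c : ((List Bool × List Bool) × List Bool) × List Bool =>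
      wF F.R₀ F.q ((c.1.1.1, cf c.2), cf (cs c.2)) := (wF_FP h₀ _).comp (by fun_prop)
  have b1 : FP fun c : ((List Bool × List Bool) × List Bool) × List Bool =>
      wL S₁ p₁ (fjt c.1.1.2 (cf c.2) c.1.2, cs (cs c.2)) := (wL_FP hS₁ _).comp (by fun_prop)
  have b0 : FP fun c : ((List Bool × List Bool) × List Bool) × List Bool =>
      wL S₀ p₀ (fjt c.1.1.2 (cf c.2) c.1.2, cs (cs c.2)) := (wL_FP hS₀ _).comp (by fun_prop)
  unfold refute
  fun_prop

theorem flag_FP (h₁ : FP F.R₁) (h₀ : FP F.R₀) (hS₁ : FP S₁) (hS₀ : FP S₀) :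
    FP (flag F p₁ p₀ S₁ S₀) := by
  have h1 := FP.any_ctx (γ := (List Bool × List Bool) × List Bool) (β := List Bool)
    (refute_FP (F := F) (p₁ := p₁) (p₀ := p₀) h₁ h₀ hS₁ hS₀)
  have h2 := h1.comp (FP.pair
    (f := fun c : (List Bool × List Bool) × List Bool => ((c.1.1, c.2), c.1.2))
    (g := fun c : (List Bool × List Bool) × List Bool => strs c.1.2) (by fun_prop)
    (by fun_prop))
  exact h2.not

theorem red_FP (h₁ : FP F.R₁) (h₀ : FP F.R₀) (hS₁ : FP S₁) (hS₀ : FP S₀) :
    FP (red F p₁ p₀ S₁ S₀) := by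
  have h1 := flag_FP (F := F) (p₁ := p₁) (p₀ := p₀) h₁ h₀ hS₁ hS₀
  have h2 := FP.map_ctx (γ := List Bool × List Bool) (β := List Bool) (δ := Bool × List Bool)
    (h := fun c : (List Bool × List Bool) × List Bool => (flag F p₁ p₀ S₁ S₀ c, c.2))
    (h1.pair FP.snd)
  have h3 := h2.comp (FP.pair
    (f := fun a : (List Bool × List Bool) × List Bool => (a.1.1, a.2))
    (g := fun a : (List Bool × List Bool) × List Bool => strs a.2) (by fun_prop) (by fun_prop))
  have h4 := (first_FP.comp (h3.pair (FP.const (false, ([] : List Bool))))).snd'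
  exact FP.fjt h4 (by fun_prop) (by fun_prop)

end

theorem effectivelyComplete_of_complete {L : DecisionProblem}
    (h : IsCompleteFor (NP ∩ coNP) L) : EffectivelyComplete L := by
  obtain ⟨hL, hcomp⟩ := h
  refine ⟨hL, fun F => ?_⟩
  obtain ⟨⟨p₁, S₁, hS₁, hL₁⟩, ⟨p₀, S₀, hS₀, hL₀⟩⟩ := hL
  have hcompl : ∀ z, (Lᶜ z = true) ↔ ¬ (L z = true) := by intro z; simp
  have f₁ := (isPolyTime_iff _).1 F.poly₁
  have f₀ := (isPolyTime_iff _).1 F.poly₀
  have s₁ := (isPolyTime_iff _).1 hS₁
  have s₀ := (isPolyTime_iff _).1 hS₀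
  refine ⟨red F p₁ p₀ S₁ S₀, (isPolyTime_iff _).2 (red_FP f₁ f₀ s₁ s₀), ?_⟩
  intro i hi
  classical
  -- the language with index `i`
  have hA : (fun x => decide (F.Yes i x) : DecisionProblem) ∈ NP ∩ coNP := by
    have key : ∀ (R : (List Bool × List Bool) × List Bool → Bool), FP R →
        ∃ (p : Polynomial ℕ) (R' : List Bool × List Bool → Bool), IsPolyTime R' ∧ ∀ x,
          (∃ w : List Bool, w.length ≤ F.q.eval (i.length + x.length) ∧ R ((i, x), w) = true) ↔
          ∃ w : List Bool, w.length ≤ p.eval x.length ∧ R' (x, w) = true := by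
      intro R hR
      have hPB : PB fun n => F.q.eval (i.length + n) := by
        have h1 : PB fun n => F.q.eval n := PB.poly _
        have h2 : PB fun n => i.length + n := by fun_prop
        exact h1.comp h2
      obtain ⟨p, hp⟩ := exists_poly hPB
      refine ⟨p, fun a => wF R F.q ((i, a.1), a.2), (isPolyTime_iff _).2
        ((wF_FP hR _).comp (by fun_prop)), fun x => ?_⟩
      simp only [wF_iff]
      constructor
      · rintro ⟨w, hw, hR⟩
        exact ⟨w, hw.trans (hp _), hw, hR⟩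
      · rintro ⟨w, _, hw, hR⟩
        exact ⟨w, hw, hR⟩
    constructor
    · obtain ⟨p, R', hR', h1⟩ := key _ f₁
      refine ⟨p, R', hR', fun x => ?_⟩
      rw [decide_eq_true_eq]
      exact h1 x
    · obtain ⟨p, R', hR', h1⟩ := key _ f₀
      refine ⟨p, R', hR', fun x => ?_⟩
      have h2 : ((fun x => decide (F.Yes i x) : DecisionProblem)ᶜ x = true) ↔ ¬ F.Yes i x := by
        simp
      rw [h2, hi x, not_not]
      exact h1 x
  obtain ⟨g, hg, hgr⟩ := hcomp _ hA
  -- the first correct candidate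
  have hex : ∃ n, ∀ y, F.Yes i y ↔ L (fj (enum n) y) = true := by
    obtain ⟨j, hj⟩ := exists_fj ((isPolyTime_iff _).1 hg)
    obtain ⟨n, rfl⟩ := enum_surj j
    refine ⟨n, fun y => ?_⟩
    rw [hj, ← hgr y, decide_eq_true_eq]
  set n := Nat.find hex with hn
  have hcorr : ∀ y, F.Yes i y ↔ L (fj (enum n) y) = true := Nat.find_spec hex
  -- the others are refuted
  have hbad : ∀ m < n, ∃ T : ℕ, ∀ t : List Bool, T ≤ t.length →
      flag F p₁ p₀ S₁ S₀ ((i, t), enum m) = false := by
    intro m hm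
    have h1 := Nat.find_min hex hm
    push Not at h1
    obtain ⟨y, hy⟩ := h1
    have h2 : ∃ w w' : List Bool,
        (wF F.R₁ F.q ((i, y), w) = true ∧ wL S₀ p₀ (fj (enum m) y, w') = true) ∨
        (wF F.R₀ F.q ((i, y), w) = true ∧ wL S₁ p₁ (fj (enum m) y, w') = true) := by
      rcases hy with ⟨⟨w, hw, hR⟩, hLn⟩ | ⟨hY, hLy⟩
      · obtain ⟨w', hw', hS⟩ := (hL₀ _).1 ((hcompl _).2 hLn)
        exact ⟨w, w', Or.inl ⟨wF_iff.2 ⟨hw, hR⟩, wL_iff.2 ⟨hw', hS⟩⟩⟩
      · have hN : F.No i y := by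
          by_contra hN
          exact hY ((hi y).2 hN)
        obtain ⟨w, hw, hR⟩ := hN
        obtain ⟨w', hw', hS⟩ := (hL₁ _).1 hLy
        exact ⟨w, w', Or.inr ⟨wF_iff.2 ⟨hw, hR⟩, wL_iff.2 ⟨hw', hS⟩⟩⟩
    obtain ⟨w, w', hw⟩ := h2
    obtain ⟨k, hk⟩ := enum_surj (cd y (cd w w'))
    refine ⟨y.length ^ (cs (enum m)).length + (k + 1), fun t ht => ?_⟩
    have h3 : y.length ^ (cs (enum m)).length ≤ t.length := by omega
    have h4 : cd y (cd w w') ∈ strs t := hk ▸ mem_strs (by omega)
    simp only [flag, Bool.not_eq_false', List.any_eq_true]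
    refine ⟨_, h4, ?_⟩
    simp only [refute, cf_cd, cs_cd, fjt_eq _ _ _ h3, pw_eq, un_length, Bool.and_eq_true,
      Bool.or_eq_true, decide_eq_true_eq]
    exact ⟨by omega, hw⟩
  have hgood : ∀ t : List Bool, flag F p₁ p₀ S₁ S₀ ((i, t), enum n) = true := by
    intro t
    simp only [flag, Bool.not_eq_true', List.any_eq_false]
    intro z _
    simp only [refute, pw_eq, un_length, Bool.and_eq_true, Bool.or_eq_true, decide_eq_true_eq]
    rintro ⟨hc, hw⟩
    have h3 : (cf z).length ^ (cs (enum n)).length ≤ t.length := by omega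
    rw [fjt_eq _ _ _ h3] at hw
    rcases hw with ⟨hF, hS⟩ | ⟨hF, hS⟩
    · have h4 : F.Yes i (cf z) := ⟨_, wF_iff.1 hF⟩
      have h5 := (hcompl _).1 ((hL₀ _).2 ⟨_, wL_iff.1 hS⟩)
      exact h5 ((hcorr _).1 h4)
    · have h4 : F.No i (cf z) := ⟨_, wF_iff.1 hF⟩
      have h5 := (hL₁ _).2 ⟨_, wL_iff.1 hS⟩
      exact (hi _).1 ((hcorr _).2 h5) h4
  -- a common bound
  have hT : ∃ T : ℕ, ∀ m < n, ∀ t : List Bool, T ≤ t.length →
      flag F p₁ p₀ S₁ S₀ ((i, t), enum m) = false := by
    choose! T hT using hbad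
    refine ⟨(Finset.range n).sup T, fun m hm t ht => hT m hm t (le_trans ?_ ht)⟩
    exact Finset.le_sup (f := T) (Finset.mem_range.2 hm)
  obtain ⟨T, hT⟩ := hT
  refine ⟨Polynomial.X ^ (cs (enum n)).length + Polynomial.C (T + n + 1), fun x t ht => ?_⟩
  simp only [Polynomial.eval_add, Polynomial.eval_pow, Polynomial.eval_X,
    Polynomial.eval_C] at ht
  have hsel : sel F p₁ p₀ S₁ S₀ i t = enum n := by
    obtain ⟨l, hl⟩ := strs_split (n := n) (t := t) (by omega)
    unfold sel
    rw [hl, List.map_append, List.map_cons, hgood t, first_spec _ _ _ _ rfl]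
    intro e he
    simp only [List.map_map, List.mem_map, List.mem_range, Function.comp_apply] at he
    obtain ⟨m, hm, rfl⟩ := he
    exact hT m hm t (by omega)
  have hx : x.length ^ (cs (enum n)).length ≤ t.length := by omega
  simp only [red]
  rw [hsel, fjt_eq _ _ _ hx]
  exact hcorr x

theorem complete_of_effectivelyComplete {L : DecisionProblem} (h : EffectivelyComplete L) :
    IsCompleteFor (NP ∩ coNP) L := by
  refine ⟨h.1, ?_⟩
  rintro A ⟨⟨q₁, R₁, hR₁, hA₁⟩, ⟨q₀, R₀, hR₀, hA₀⟩⟩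
  have hcompl : ∀ z, (Aᶜ z = true) ↔ ¬ (A z = true) := by intro z; simp
  have h1 := (isPolyTime_iff _).1 hR₁
  have h0 := (isPolyTime_iff _).1 hR₀
  let F : PairFamily := ⟨fun a => wL R₁ q₁ (a.1.2, a.2), fun a => wL R₀ q₀ (a.1.2, a.2), q₁ + q₀,
    (isPolyTime_iff _).2 ((wL_FP h1 _).comp (by fun_prop)),
    (isPolyTime_iff _).2 ((wL_FP h0 _).comp (by fun_prop))⟩
  have e1 : ∀ i x, F.Yes i x ↔ A x = true := by
    intro i x
    rw [hA₁]
    simp only [PairFamily.Yes, F, wL_iff]
    constructor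
    · rintro ⟨w, _, hw, hR⟩; exact ⟨w, hw, hR⟩
    · rintro ⟨w, hw, hR⟩
      refine ⟨w, ?_, hw, hR⟩
      have := poly_mono q₁ (show x.length ≤ i.length + x.length by omega)
      simp only [Polynomial.eval_add] at this ⊢
      omega
  have e0 : ∀ i x, F.No i x ↔ ¬ A x = true := by
    intro i x
    rw [← hcompl, hA₀]
    simp only [PairFamily.No, F, wL_iff]
    constructor
    · rintro ⟨w, _, hw, hR⟩; exact ⟨w, hw, hR⟩
    · rintro ⟨w, hw, hR⟩
      refine ⟨w, ?_, hw, hR⟩
      have := poly_mono q₀ (show x.length ≤ i.length + x.length by omega)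
      simp only [Polynomial.eval_add] at this ⊢
      omega
  obtain ⟨f, hf, hfam⟩ := h.2 F
  obtain ⟨p, hp⟩ := hfam [] (fun x => by rw [e1, e0, not_not])
  have h3 : FP fun x : List Bool => un (p.eval x.length) := FP.un_poly (by fun_prop) _
  refine ⟨fun x => f (([], x), un (p.eval x.length)), (isPolyTime_iff _).2
    (((isPolyTime_iff _).1 hf).comp (by fun_prop)), fun x => ?_⟩
  have h2 := hp x (un (p.eval x.length)) (by simp)
  rw [e1] at h2
  exact Bool.eq_iff_iff.2 h2

theorem uniform_of_uniformlyEffective {L : DecisionProblem}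
    (h : UniformlyEffectivelyComplete L) : UniformlyComplete L := by
  refine ⟨h.1, fun F => ?_⟩
  obtain ⟨f, hf, p, hp⟩ := h.2 F
  have h3 : FP fun a : List Bool × List Bool => un (p.eval (a.1 ++ a.2).length) :=
    FP.un_poly (by fun_prop) _
  refine ⟨fun a => f ((a.1, a.2), un (p.eval (a.1 ++ a.2).length)), (isPolyTime_iff _).2
    (((isPolyTime_iff _).1 hf).comp (by fun_prop)), fun i hi x => ?_⟩
  exact hp i hi x _ (by simp)

theorem uniformlyEffective_of_uniform {L : DecisionProblem} (h : UniformlyComplete L) :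
    UniformlyEffectivelyComplete L := by
  refine ⟨h.1, fun F => ?_⟩
  obtain ⟨f, hf, hfam⟩ := h.2 F
  refine ⟨fun a => f a.1, (isPolyTime_iff _).2 (((isPolyTime_iff _).1 hf).comp (by fun_prop)),
    0, fun i hi x t _ => hfam i hi x⟩

end Pool.Agent.Helper22
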