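import Mathlib
import Pool.Prelude.Def_F_458e953d

set_option autoImplicit false

/-!
# Polynomial time oracle procedures, NP and coNP relative to an oracle
-/

namespace Pool.Agent.Helper22

open N68a2faeb N793a5b8e N487b59b3

/-- An oracle is a set of words. -/
abbrev Oracle : Type := List Bool → Bool

/-- A deterministic polynomial time oracle procedure. On input `a` it asks `|clock a|` adaptive
queries: the next query is computed in polynomial time from the input and the list of the answers
obtained so far (latest first), and the output from the input and all the answers. -/
structure OracleProc (α β : Type) [N487b59b3 α] [N487b59b3 β] where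
  /-- the number of queries, in unary -/
  clock : α → List Bool
  /-- the next query -/
  query : α × List Bool → List Bool
  /-- the output -/
  out : α × List Bool → β
  clock_poly : IsPolyTime clock
  query_poly : IsPolyTime query
  out_poly : IsPolyTime out

section

variable {α β : Type} [N487b59b3 α] [N487b59b3 β]

/-- the answers to the first `n` queries, latest first -/
def OracleProc.answers (M : OracleProc α β) (X : Oracle) (a : α) : ℕ → List Bool
  | 0 => []
  | n + 1 => X (M.query (a, M.answers X a n)) :: M.answers X a n

/-- the output of the procedure with oracle `X` -/
def OracleProc.run (M : OracleProc α β) (X : Oracle) (a : α) : β :=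
  M.out (a, M.answers X a (M.clock a).length)

end

/-- `x` is accepted by the verifier `M` with oracle `X` and witness bound `p`. -/
def Accepts (M : OracleProc (List Bool × List Bool) Bool) (p : Polynomial ℕ) (X : Oracle)
    (x : List Bool) : Prop :=
  ∃ w : List Bool, w.length ≤ p.eval x.length ∧ M.run X (x, w) = true

/-- NP relative to the oracle `X` -/
def NPo (X : Oracle) : DecisionComplexityClass :=
  {L | ∃ (p : Polynomial ℕ) (M : OracleProc (List Bool × List Bool) Bool),
    ∀ x, L x = true ↔ Accepts M p X x}

/-- coNP relative to the oracle `X` -/
def coNPo (X : Oracle) : DecisionComplexityClass := {L | Lᶜ ∈ NPo X}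

/-- `A` is many-one reducible to `B` in polynomial time relative to the oracle `X`. -/
def ReducibleRel (X : Oracle) (A B : DecisionProblem) : Prop :=
  ∃ f : OracleProc (List Bool) (List Bool), ∀ x, A x = B (f.run X x)

/-- The oracles relative to which some language of NP ∩ coNP is hard for the unrelativized class
NP ∩ coNP. -/
def Helpful : Set Oracle :=
  {X | ∃ L ∈ NPo X ∩ coNPo X, ∀ A ∈ NP ∩ coNP, ReducibleRel X A L}

/-- The oracles relative to which NP ∩ coNP has a complete language. -/
def HasCompleteRel : Set Oracle :=
  {X | ∃ L ∈ NPo X ∩ coNPo X, ∀ A ∈ NPo X ∩ coNPo X, ReducibleRel X A L}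

end Pool.Agent.Helper22
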