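import Mathlib
import Pool.Agent.Helper22.Countable
import Pool.Agent.Helper22.Eff
import Pool.Agent.Helper22.OracleDefs

set_option autoImplicit false

/-!
# Oracle procedures: simulation with a table, continuity, countability
-/

namespace Pool.Agent.Helper22

open Turing Function N487b59b3 N68a2faeb N793a5b8e Filter Topology

section

variable {α β γ δ : Type} [N487b59b3 α] [N487b59b3 β] [N487b59b3 γ] [N487b59b3 δ]

/-! ## Equality of words -/

/-- one step of the comparison of words -/
def weqStep (s : Bool × List Bool) (b : Bool) : Bool × List Bool :=
  (s.1 && (!s.2.isEmpty && (s.2.headD false == b)), s.2.tail)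

theorem weqStep_false (a b : List Bool) : (a.foldl weqStep (false, b)).1 = false := by
  induction a generalizing b with
  | nil => rfl
  | cons x a ih => simpa [weqStep] using ih _

/-- equality of words -/
def weq (a b : List Bool) : Bool :=
  (a.foldl weqStep (true, b)).1 && (a.foldl weqStep (true, b)).2.isEmpty

theorem weq_iff (a b : List Bool) : weq a b = true ↔ a = b := by
  induction a generalizing b with
  | nil => cases b <;> simp [weq]
  | cons x a ih =>
    cases b with
    | nil =>
      have h : weq (x :: a) [] = false := by
        simp only [weq, List.foldl_cons, weqStep, List.isEmpty_nil, Bool.not_true, Bool.false_and,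
          Bool.and_false, List.tail_nil]
        rw [weqStep_false]; rfl
      simp [h]
    | cons y b =>
      rcases Bool.eq_or_eq_not y x with rfl | rfl
      · have h : weq (y :: a) (y :: b) = weq a b := by simp [weq, weqStep]
        rw [h, ih]; simp
      · have h : weq (x :: a) ((!x) :: b) = false := by
          have : ((!x) == x) = false := by cases x <;> rfl
          simp only [weq, List.foldl_cons, weqStep, List.isEmpty_cons, Bool.not_false,
            List.headD_cons, this, Bool.and_false, List.tail_cons]
          rw [weqStep_false]; rfl
        rw [h]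
        have : x ≠ !x := by cases x <;> simp
        simp [this]

@[fun_prop]
theorem FP.weq {f g : α → List Bool} (hf : FP f) (hg : FP g) :
    FP fun a => Helper22.weq (f a) (g a) := by
  have h : FP fun p : List Bool × (Bool × List Bool) => p.1.foldl weqStep p.2 := by
    refine FP.foldl (g := weqStep) ?_ (B := fun n => n) (by fun_prop) ?_
    · have h1 : FP fun p : (Bool × List Bool) × Bool => p.1.2.headD false :=
        FP.headD (by fun_prop) _
      unfold weqStep
      fun_prop
    · intro l a
      have h1 : (l.foldl weqStep a).2.length ≤ a.2.length := by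
        induction l generalizing a with
        | nil => rfl
        | cons b l ih =>
          refine (ih _).trans ?_
          simp [weqStep]
      rcases hr : l.foldl weqStep a with ⟨c, d⟩
      rw [hr] at h1
      obtain ⟨a1, a2⟩ := a
      simp only [sz_pair, sz_bool, sz_bits] at *
      omega
  have h2 := h.comp (hf.pair (FP.pair (FP.const true) hg))
  have h3 := h2.fst'.and (FP.isEmpty h2.snd')
  exact h3

/-- membership of a word in a list of words -/
def wmem (l : List (List Bool)) (q : List Bool) : Bool := l.any fun b => weq q b

theorem wmem_iff (l : List (List Bool)) (q : List Bool) : wmem l q = true ↔ q ∈ l := by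
  simp [wmem, weq_iff]

@[fun_prop]
theorem FP.wmem {f : α → List (List Bool)} {g : α → List Bool} (hf : FP f) (hg : FP g) :
    FP fun a => Helper22.wmem (f a) (g a) := by
  have h := FP.any_ctx (γ := List Bool) (β := List Bool) (P := fun p => Helper22.weq p.1 p.2)
    (FP.weq FP.fst FP.snd)
  exact h.comp (hg.pair hf)

/-! ## Running a procedure with a polynomial time oracle -/

theorem OracleProc.answers_length (M : OracleProc α β) (X : Oracle) (a : α) (n : ℕ) :
    (M.answers X a n).length = n := by
  induction n with
  | zero => rfl
  | succ n ih => rw [OracleProc.answers, List.length_cons, ih]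

/-- one step of the simulation -/
def simStep (M : OracleProc α β) (orc : γ × List Bool → Bool) (s : (γ × α) × List Bool) :
    (γ × α) × List Bool :=
  (s.1, orc (s.1.1, M.query (s.1.2, s.2)) :: s.2)

omit [N487b59b3 γ] in
theorem simStep_iter (M : OracleProc α β) (orc : γ × List Bool → Bool) (c : γ × α) (n : ℕ) :
    (simStep M orc)^[n] (c, []) = (c, M.answers (fun q => orc (c.1, q)) c.2 n) := by
  induction n with
  | zero => rfl
  | succ n ih => rw [Function.iterate_succ_apply', ih]; rfl

theorem FP.runOracle (M : OracleProc α β) {orc : γ × List Bool → Bool} (ho : FP orc) :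
    FP fun c : γ × α => M.run (fun q => orc (c.1, q)) c.2 := by
  have hc := (isPolyTime_iff _).1 M.clock_poly
  have hq := (isPolyTime_iff _).1 M.query_poly
  have hout := (isPolyTime_iff _).1 M.out_poly
  have h : FP fun p : List Bool × ((γ × α) × List Bool) => (simStep M orc)^[p.1.length] p.2 := by
    refine FP.iterate (f := simStep M orc) ?_ (B := fun n => 4 * n) (by fun_prop) ?_
    · have h1 : FP fun s : (γ × α) × List Bool => M.query (s.1.2, s.2) :=
        hq.comp (by fun_prop)
      have h2 : FP fun s : (γ × α) × List Bool => orc (s.1.1, M.query (s.1.2, s.2)) :=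
        ho.comp (by fun_prop)
      unfold simStep
      fun_prop
    · intro l a i hi
      have h1 : ((simStep M orc)^[i] a).1 = a.1 ∧
          ((simStep M orc)^[i] a).2.length = i + a.2.length := by
        clear hi
        induction i with
        | zero => simp
        | succ i ih =>
          rw [Function.iterate_succ_apply']
          refine ⟨ih.1, ?_⟩
          simp only [simStep, List.length_cons, ih.2]; omega
      rcases hr : (simStep M orc)^[i] a with ⟨c, d⟩
      rw [hr] at h1
      obtain ⟨h1, h2⟩ := h1
      obtain ⟨a1, a2⟩ := a
      simp only [sz_pair, sz_bits] at *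
      subst h1
      omega
  have h2 : FP fun c : γ × α => M.answers (fun q => orc (c.1, q)) c.2 (M.clock c.2).length := by
    have h3 : FP fun c : γ × α => M.clock c.2 := hc.comp FP.snd
    have h4 := (h.comp (h3.pair (FP.id.pair (FP.const ([] : List Bool))))).snd'
    simpa only [simStep_iter] using h4
  exact hout.comp (FP.snd.pair h2)

/-! ## Continuity -/

theorem eventually_oracle (X : Oracle) (q : List Bool) : ∀ᶠ Y in 𝓝 X, Y q = X q := by
  have h : Continuous fun Y : Oracle => Y q := continuous_apply q
  exact h.continuousAt.eventually (isOpen_discrete {X q} |>.mem_nhds rfl)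

theorem eventually_answers (M : OracleProc α β) (X : Oracle) (a : α) (n : ℕ) :
    ∀ᶠ Y in 𝓝 X, M.answers Y a n = M.answers X a n := by
  induction n with
  | zero => exact Eventually.of_forall fun _ => rfl
  | succ n ih =>
    filter_upwards [ih, eventually_oracle X (M.query (a, M.answers X a n))] with Y h1 h2
    rw [OracleProc.answers, OracleProc.answers, h1, h2]

theorem eventually_run (M : OracleProc α β) (X : Oracle) (a : α) :
    ∀ᶠ Y in 𝓝 X, M.run Y a = M.run X a := by
  filter_upwards [eventually_answers M X a (M.clock a).length] with Y h
  rw [OracleProc.run, OracleProc.run, h]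

theorem eventually_accepts (M : OracleProc (List Bool × List Bool) Bool) (p : Polynomial ℕ)
    (X : Oracle) (x : List Bool) : ∀ᶠ Y in 𝓝 X, (Accepts M p Y x ↔ Accepts M p X x) := by
  have hfin : {w : List Bool | w.length ≤ p.eval x.length}.Finite := List.finite_length_le _ _
  have h := (Filter.eventually_all_finite hfin (l := 𝓝 X)
    (p := fun w Y => M.run Y (x, w) = M.run X (x, w))).2 fun w _ => eventually_run M X (x, w)
  filter_upwards [h] with Y hY
  constructor
  · rintro ⟨w, hw, h1⟩
    exact ⟨w, hw, by rw [← hY w hw]; exact h1⟩
  · rintro ⟨w, hw, h1⟩
    exact ⟨w, hw, by rw [hY w hw]; exact h1⟩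

/-! ## Countability -/

instance countable_oracleProc : Countable (OracleProc α β) := by
  have h1 := (countable_FP α (List Bool)).to_subtype
  have h2 := (countable_FP (α × List Bool) (List Bool)).to_subtype
  have h3 := (countable_FP (α × List Bool) β).to_subtype
  let F : OracleProc α β → {g : α → List Bool | FP g} ×
      ({g : α × List Bool → List Bool | FP g} × {g : α × List Bool → β | FP g}) := fun M =>
    (⟨M.clock, (isPolyTime_iff _).1 M.clock_poly⟩, (⟨M.query, (isPolyTime_iff _).1 M.query_poly⟩,
      ⟨M.out, (isPolyTime_iff _).1 M.out_poly⟩))
  have hF : Function.Injective F := by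
    rintro ⟨c, q, o, _, _, _⟩ ⟨c', q', o', _, _, _⟩ h
    simp only [F, Prod.mk.injEq, Subtype.mk.injEq] at h
    obtain ⟨rfl, rfl, rfl⟩ := h
    rfl
  exact hF.countable

instance countable_poly : Countable (Polynomial ℕ) := by
  let F : Polynomial ℕ → List ℕ := fun p => (List.range (p.natDegree + 1)).map p.coeff
  have hF : Function.Injective F := by
    intro p q h
    have h1 : p.natDegree = q.natDegree := by
      have := congrArg List.length h
      simpa [F] using this
    ext i
    by_cases hi : i ≤ p.natDegree
    · simp only [F] at h
      rw [← h1, List.map_inj_left] at h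
      exact h i (List.mem_range.2 (by omega))
    · rw [Polynomial.coeff_eq_zero_of_natDegree_lt (by omega),
        Polynomial.coeff_eq_zero_of_natDegree_lt (by omega)]
  exact hF.countable

end

end Pool.Agent.Helper22
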