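import Mathlib
import Pool.Agent.Helper22.OracleTools

set_option autoImplicit false

/-!
# Generic oracles do not help
-/

namespace Pool.Agent.Helper22

open Turing Function N487b59b3 N68a2faeb N793a5b8e Filter Topology

/-- the oracles containing the words of `P` and none of the words of `N` -/
def cyl (P N : List (List Bool)) : Set Oracle :=
  {X | (∀ q ∈ P, X q = true) ∧ ∀ q ∈ N, X q = false}

theorem exists_cyl {U : Set Oracle} (hU : IsOpen U) {X : Oracle} (hX : X ∈ U) :
    ∃ P N, X ∈ cyl P N ∧ cyl P N ⊆ U := by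
  rw [isOpen_pi_iff] at hU
  obtain ⟨I, u, hu, hsub⟩ := hU X hX
  refine ⟨I.toList.filter fun q => X q, I.toList.filter fun q => !(X q), ⟨?_, ?_⟩, ?_⟩
  · intro q hq
    exact (List.mem_filter.1 hq).2
  · intro q hq
    simpa using (List.mem_filter.1 hq).2
  · rintro Y ⟨h1, h2⟩
    refine hsub fun q hq => ?_
    have hq' : q ∈ I := hq
    have : Y q = X q := by
      cases hXq : X q
      · exact h2 q (List.mem_filter.2 ⟨by simpa using hq', by simp [hXq]⟩)
      · exact h1 q (List.mem_filter.2 ⟨by simpa using hq', by simp [hXq]⟩)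
    rw [this]
    exact (hu q hq').2

/-- A nonmeagre set is nonmeagre in some cylinder contained in its closure. -/
theorem exists_nonmeagre_cyl {S : Set Oracle} (hS : ¬ IsMeagre S) :
    ∃ P N, cyl P N ⊆ closure S ∧ ¬ IsMeagre (S ∩ cyl P N) := by
  by_contra hcon
  push Not at hcon
  apply hS
  have h1 : IsMeagre (S ∩ interior (closure S)) := by
    have h2 : S ∩ interior (closure S) ⊆
        ⋃ c : {c : List (List Bool) × List (List Bool) // cyl c.1 c.2 ⊆ closure S},
          S ∩ cyl c.1.1 c.1.2 := by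
      rintro X ⟨hX, hX'⟩
      obtain ⟨P, N, h3, h4⟩ := exists_cyl isOpen_interior hX'
      exact Set.mem_iUnion.2 ⟨⟨(P, N), h4.trans interior_subset⟩, hX, h3⟩
    exact (isMeagre_iUnion fun c => hcon _ _ c.2).mono h2
  have h3 : IsNowhereDense (S \ interior (closure S)) := by
    rw [IsNowhereDense]
    have h4 : closure (S \ interior (closure S)) ⊆ closure S \ interior (closure S) := by
      refine closure_minimal (fun X hX => ⟨subset_closure hX.1, hX.2⟩) ?_
      exact isClosed_closure.sdiff isOpen_interior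
    have h5 : interior (closure (S \ interior (closure S))) ⊆ interior (closure S) :=
      interior_mono (h4.trans Set.sdiff_subset)
    refine Set.eq_empty_of_forall_notMem fun X hX => ?_
    exact (h4 (interior_subset hX)).2 (h5 hX)
  have h4 : S = (S ∩ interior (closure S)) ∪ (S \ interior (closure S)) :=
    (Set.inter_union_sdiff _ _).symm
  rw [h4]
  exact h1.union h3.isMeagre

/-- the oracle containing `P`, and of the remaining words those of `P'` that are not in `N` -/
def mix (P N P' : List (List Bool)) : Oracle := fun q => wmem P q || (wmem P' q && !wmem N q)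

theorem mix_mem {P N P' : List (List Bool)} (h : (cyl P N).Nonempty) : mix P N P' ∈ cyl P N := by
  obtain ⟨X, h1, h2⟩ := h
  refine ⟨fun q hq => ?_, fun q hq => ?_⟩
  · simp [mix, (wmem_iff P q).2 hq]
  · have h3 : wmem P q = false := by
      by_contra h3
      rw [Bool.not_eq_false, wmem_iff] at h3
      have := h1 q h3
      rw [h2 q hq] at this
      simp at this
    simp [mix, h3, (wmem_iff N q).2 hq]

theorem compl_true (L : DecisionProblem) (z : List Bool) : (Lᶜ z = true) ↔ ¬ (L z = true) := by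
  simp

theorem cs_length (z : List Bool) : (cs z).length ≤ z.length := by
  induction z using cs.induct with
  | case1 b l ih => simp only [cs, List.length_cons]; omega
  | case2 => simp [cs]
  | case3 l => simp [cs]
  | case4 => simp [cs]

/-- the verifier with the table given by the instance -/
def tableCheck (M : OracleProc (List Bool × List Bool) Bool) (p : Polynomial ℕ)
    (P N : List (List Bool)) (a : List Bool × List Bool) : Bool :=
  M.run (mix P N (ld (cf a.1))) (cs a.1, a.2) &&
    decide (a.2.length ≤ (un (p.eval (cs a.1).length)).length)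

theorem tableCheck_FP (M : OracleProc (List Bool × List Bool) Bool) (p : Polynomial ℕ)
    (P N : List (List Bool)) : FP (tableCheck M p P N) := by
  have h1 : FP fun c : List (List Bool) × List Bool => mix P N c.1 c.2 := by
    have e1 : FP fun c : List (List Bool) × List Bool => wmem P c.2 :=
      FP.wmem (FP.const P) FP.snd
    have e2 : FP fun c : List (List Bool) × List Bool => wmem N c.2 :=
      FP.wmem (FP.const N) FP.snd
    have e3 : FP fun c : List (List Bool) × List Bool => wmem c.1 c.2 := by fun_prop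
    exact e1.or (e3.and e2.not)
  have h2 := FP.runOracle M h1
  have h3 : FP fun a : List Bool × List Bool => M.run (mix P N (ld (cf a.1))) (cs a.1, a.2) :=
    h2.comp (f := fun a : List Bool × List Bool => (ld (cf a.1), (cs a.1, a.2))) (by fun_prop)
  have h4 : FP fun a : List Bool × List Bool => un (p.eval (cs a.1).length) :=
    FP.un_poly (by fun_prop) _
  unfold tableCheck
  fun_prop

theorem tableCheck_NP (M : OracleProc (List Bool × List Bool) Bool) (p : Polynomial ℕ)
    (P N : List (List Bool)) (L : DecisionProblem)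
    (h : ∀ z, L z = true ↔ Accepts M p (mix P N (ld (cf z))) (cs z)) : L ∈ NP := by
  refine ⟨p, tableCheck M p P N, (isPolyTime_iff _).2 (tableCheck_FP M p P N), fun z => ?_⟩
  rw [h]
  simp only [Accepts, tableCheck, Bool.and_eq_true, decide_eq_true_eq, un_length]
  constructor
  · rintro ⟨w, hw, h1⟩
    exact ⟨w, hw.trans (poly_mono p (cs_length z)), h1, hw⟩
  · rintro ⟨w, _, h1, hw⟩
    exact ⟨w, hw, h1⟩

/-- the oracles relative to which `(M₁, p₁)` and `(M₀, p₀)` present the same hard language -/
def HardVia (e : (OracleProc (List Bool × List Bool) Bool × Polynomial ℕ) ×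
    (OracleProc (List Bool × List Bool) Bool × Polynomial ℕ)) : Set Oracle :=
  {X | (∀ x, Accepts e.1.1 e.1.2 X x ↔ ¬ Accepts e.2.1 e.2.2 X x) ∧
    ∀ A ∈ NP ∩ coNP, ∃ f : OracleProc (List Bool) (List Bool), ∀ x,
      A x = true ↔ Accepts e.1.1 e.1.2 X (f.run X x)}

theorem helpful_subset : Helpful ⊆ ⋃ e, HardVia e := by
  rintro X ⟨L, ⟨⟨p₁, M₁, h₁⟩, ⟨p₀, M₀, h₀⟩⟩, hL⟩
  refine Set.mem_iUnion.2 ⟨((M₁, p₁), (M₀, p₀)), fun x => ?_, fun A hA => ?_⟩
  · rw [← h₁, ← h₀, compl_true, not_not]
  · obtain ⟨f, hf⟩ := hL A hA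
    exact ⟨f, fun x => by rw [hf, h₁]⟩

theorem complete_of_nonmeagre (h : ¬ IsMeagre Helpful) :
    ∃ L : DecisionProblem, IsCompleteFor (NP ∩ coNP) L := by
  obtain ⟨e, he⟩ : ∃ e, ¬ IsMeagre (HardVia e) := by
    by_contra hcon
    push Not at hcon
    exact h ((isMeagre_iUnion hcon).mono helpful_subset)
  obtain ⟨⟨M₁, p₁⟩, ⟨M₀, p₀⟩⟩ := e
  obtain ⟨P, N, hcl, hnm⟩ := exists_nonmeagre_cyl he
  set S := HardVia ((M₁, p₁), (M₀, p₀)) ∩ cyl P N with hS
  have hne : (cyl P N).Nonempty := by
    by_contra hne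
    rw [Set.not_nonempty_iff_eq_empty] at hne
    rw [hS, hne, Set.inter_empty] at hnm
    exact hnm IsMeagre.empty
  -- the two verifiers are complementary on the whole cylinder
  have hvalid : ∀ X ∈ cyl P N, ∀ x, Accepts M₁ p₁ X x ↔ ¬ Accepts M₀ p₀ X x := by
    intro X hX x
    have h1 := mem_closure_iff_frequently.1 (hcl hX)
    obtain ⟨Y, hY, e1, e2⟩ := (h1.and_eventually
      ((eventually_accepts M₁ p₁ X x).and (eventually_accepts M₀ p₀ X x))).exists
    rw [← e1, ← e2]
    exact hY.1 x
  classical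
  let L : DecisionProblem := fun z => decide (Accepts M₁ p₁ (mix P N (ld (cf z))) (cs z))
  have hL₁ : ∀ z, L z = true ↔ Accepts M₁ p₁ (mix P N (ld (cf z))) (cs z) := fun z => by simp [L]
  have hL₀ : ∀ z, Lᶜ z = true ↔ Accepts M₀ p₀ (mix P N (ld (cf z))) (cs z) := fun z => by
    rw [compl_true, hL₁, hvalid _ (mix_mem hne), not_not]
  refine ⟨L, ⟨tableCheck_NP M₁ p₁ P N L hL₁, tableCheck_NP M₀ p₀ P N Lᶜ hL₀⟩, fun A hA => ?_⟩
  -- one reduction works on a nonmeagre set
  obtain ⟨f, hf⟩ : ∃ f : OracleProc (List Bool) (List Bool), ¬ IsMeagre (S ∩ {X | ∀ x,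
      A x = true ↔ Accepts M₁ p₁ X (f.run X x)}) := by
    by_contra hcon
    push Not at hcon
    refine hnm ((isMeagre_iUnion hcon).mono fun X hX => ?_)
    obtain ⟨f, hf⟩ := hX.1.2 A hA
    exact Set.mem_iUnion.2 ⟨f, hX, hf⟩
  obtain ⟨P', N', hcl', hnm'⟩ := exists_nonmeagre_cyl hf
  have hne' : (cyl P' N').Nonempty := by
    by_contra hne
    rw [Set.not_nonempty_iff_eq_empty] at hne
    rw [hne, Set.inter_empty] at hnm'
    exact hnm' IsMeagre.empty
  set X : Oracle := fun q => wmem P' q with hX
  have hXc : X ∈ cyl P' N' := by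
    obtain ⟨Y, hY⟩ := hne'
    refine ⟨fun q hq => (wmem_iff P' q).2 hq, fun q hq => ?_⟩
    by_contra h3
    rw [Bool.not_eq_false] at h3
    have h4 := hY.1 q ((wmem_iff P' q).1 h3)
    rw [hY.2 q hq] at h4
    simp at h4
  have hfreq := mem_closure_iff_frequently.1 (hcl' hXc)
  have hXc' : X ∈ cyl P N := by
    constructor
    · intro q hq
      obtain ⟨Y, hY, e1⟩ := (hfreq.and_eventually (eventually_oracle X q)).exists
      rw [← e1]
      exact hY.1.2.1 q hq
    · intro q hq
      obtain ⟨Y, hY, e1⟩ := (hfreq.and_eventually (eventually_oracle X q)).exists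
      rw [← e1]
      exact hY.1.2.2 q hq
  have hmix : mix P N P' = X := by
    funext q
    by_cases h1 : q ∈ P
    · rw [hXc'.1 q h1]
      simp [mix, (wmem_iff P q).2 h1]
    · by_cases h2 : q ∈ N
      · rw [hXc'.2 q h2]
        have h3 : wmem P q = false := by
          rw [Bool.eq_false_iff, Ne, wmem_iff]; exact h1
        simp [mix, h3, (wmem_iff N q).2 h2]
      · have h3 : wmem P q = false := by
          rw [Bool.eq_false_iff, Ne, wmem_iff]; exact h1
        have h4 : wmem N q = false := by
          rw [Bool.eq_false_iff, Ne, wmem_iff]; exact h2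
        simp [mix, h3, h4, hX]
  have hred : ∀ x, A x = true ↔ Accepts M₁ p₁ X (f.run X x) := by
    intro x
    obtain ⟨Y, hY, e1, e2⟩ := (hfreq.and_eventually
      ((eventually_run f X x).and (eventually_accepts M₁ p₁ X (f.run X x)))).exists
    rw [← e2, ← e1]
    exact hY.2 x
  refine ⟨fun x => cd (lc P') (f.run X x), (isPolyTime_iff _).2 ?_, fun x => ?_⟩
  · have h1 : FP fun c : Bool × List Bool => X c.2 := FP.wmem (FP.const P') FP.snd
    have h2 := FP.runOracle f h1
    have h3 : FP fun x : List Bool => f.run X x := h2.comp ((FP.const true).pair FP.id)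
    exact FP.cd (FP.const _) h3
  · rw [Bool.eq_iff_iff, hL₁, cf_cd, cs_cd, ld_lc, hmix]
    exact hred x

/-! ## The easy directions -/

/-- a polynomial time function, as an oracle procedure that asks nothing -/
def OracleProc.ofFP {α β : Type} [N487b59b3 α] [N487b59b3 β] (f : α → β) (hf : FP f) :
    OracleProc α β :=
  ⟨fun _ => [], fun _ => [], fun a => f a.1, (isPolyTime_iff _).2 (FP.const _),
    (isPolyTime_iff _).2 (FP.const _), (isPolyTime_iff _).2 (hf.comp FP.fst)⟩

theorem NP_subset (X : Oracle) : NP ⊆ NPo X := by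
  rintro L ⟨p, R, hR, h⟩
  exact ⟨p, OracleProc.ofFP R ((isPolyTime_iff _).1 hR), h⟩

theorem inter_subset (X : Oracle) : NP ∩ coNP ⊆ NPo X ∩ coNPo X := fun _ hL =>
  ⟨NP_subset X hL.1, NP_subset X hL.2⟩

theorem helpful_of_complete {L : DecisionProblem} (h : IsCompleteFor (NP ∩ coNP) L) :
    Helpful = Set.univ := by
  refine Set.eq_univ_of_forall fun X => ⟨L, inter_subset X h.1, fun A hA => ?_⟩
  obtain ⟨f, hf, h1⟩ := h.2 A hA
  exact ⟨OracleProc.ofFP f ((isPolyTime_iff _).1 hf), h1⟩

theorem hasCompleteRel_subset : HasCompleteRel ⊆ Helpful := by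
  rintro X ⟨L, hL, h⟩
  exact ⟨L, hL, fun A hA => h A (inter_subset X hA)⟩

theorem not_isMeagre_univ : ¬ IsMeagre (Set.univ : Set Oracle) :=
  not_isMeagre_of_isOpen isOpen_univ Set.univ_nonempty

end Pool.Agent.Helper22
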