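import Mathlib
import Pool.Agent.Helper22.OracleBaire

set_option autoImplicit false

/-!
# Arbitrarily sparse tally oracles help
-/

namespace Pool.Agent.Helper22

open Turing Function N487b59b3 N68a2faeb N793a5b8e Filter Topology

section

variable {α β γ δ : Type} [N487b59b3 α] [N487b59b3 β] [N487b59b3 γ] [N487b59b3 δ]

theorem PB.pow {f : ℕ → ℕ} (hf : PB f) (k : ℕ) : PB fun n => f n ^ k := by
  induction k with
  | zero => simpa using PB.const 1
  | succ k ih =>
    simp only [pow_succ]
    exact ih.mul hf

theorem pow_add_le_pow_add (n : ℕ) {e e' : ℕ} (h : e ≤ e') : n ^ e + e ≤ n ^ e' + e' := by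
  rcases Nat.eq_zero_or_pos n with rfl | hn
  · rcases Nat.eq_zero_or_pos e with rfl | he
    · rcases Nat.eq_zero_or_pos e' with rfl | he'
      · exact le_rfl
      · calc (0 : ℕ) ^ 0 + 0 = 1 := by simp
          _ ≤ e' := he'
          _ ≤ _ := Nat.le_add_left _ _
    · rw [zero_pow (by omega), zero_pow (by omega)]; omega
  · exact Nat.add_le_add (Nat.pow_le_pow_right hn h) h

/-- the word with number `|u|` -/
def enumU (u : List Bool) : List Bool := ((strs (true :: u)).drop u.length).headD []

theorem enumU_eq (u : List Bool) : enumU u = enum u.length := by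
  have h : (strs (true :: u)).drop u.length = [enum u.length] := by
    rw [strs, List.length_cons, List.range_succ, List.map_append, List.drop_append]
    simp
  rw [enumU, h]; rfl

@[fun_prop]
theorem FP.enumU {f : α → List Bool} (hf : FP f) : FP fun a => Helper22.enumU (f a) := by
  have h1 : FP fun a => true :: f a := (FP.const true).cons hf
  have h2 : FP fun a => (Helper22.strs (true :: f a)).drop (f a).length := by fun_prop
  exact FP.headD h2 []

theorem enum_length (n : ℕ) : (enum n).length ≤ n := by
  induction n with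
  | zero => simp [enum]
  | succ n ih =>
    rw [enum, Function.iterate_succ_apply', ← enum]
    exact (nxt_length _).trans (by omega)

theorem exists_index (v : List Bool) (N : ℕ) : ∃ m, N < m ∧ ∃ k, enum m = cd v (un k) := by
  obtain ⟨m, hm⟩ := enum_surj (cd v (un (N + 1)))
  refine ⟨m, ?_, _, hm⟩
  have h1 := enum_length m
  rw [hm, cd_length, un_length] at h1
  omega

/-! ## Verifiers with codes -/

/-- `w` is accepted for `x` by the verifier with code `j`, under the clock `t` -/
def chk (j x w t : List Bool) : Bool :=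
  decide (w.length ≤ t.length) &&
    (decide ((pw (cd x w) (cs j) t).length ≤ t.length) && (fjt j (cd x w) t).headD false)

theorem chk_iff (j x w t : List Bool) : chk j x w t = true ↔ w.length ≤ t.length ∧
    (cd x w).length ^ (cs j).length ≤ t.length ∧ (fj j (cd x w)).headD false = true := by
  simp only [chk, Bool.and_eq_true, decide_eq_true_eq, pw_eq, un_length]
  constructor
  · rintro ⟨h1, h2, h3⟩
    have h4 : (cd x w).length ^ (cs j).length ≤ t.length := by omega
    rw [fjt_eq _ _ _ h4] at h3
    exact ⟨h1, h4, h3⟩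
  · rintro ⟨h1, h2, h3⟩
    rw [fjt_eq _ _ _ h2]
    exact ⟨h1, by omega, h3⟩

@[fun_prop]
theorem FP.chk {f g h k : α → List Bool} (hf : FP f) (hg : FP g) (hh : FP h) (hk : FP k) :
    FP fun a => Helper22.chk (f a) (g a) (h a) (k a) := by
  have h1 : FP fun a => (Helper22.fjt (f a) (Helper22.cd (g a) (h a)) (k a)).headD false :=
    FP.headD (by fun_prop) _
  unfold Helper22.chk
  fun_prop

/-- the clock is long enough -/
def padok (e x t : List Bool) : Bool := decide ((pw x e t ++ e).length ≤ t.length)

theorem padok_iff (e x t : List Bool) :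
    padok e x t = true ↔ x.length ^ e.length + e.length ≤ t.length := by
  simp only [padok, decide_eq_true_eq, List.length_append, pw_eq, un_length]
  omega

@[fun_prop]
theorem FP.padok {f g h : α → List Bool} (hf : FP f) (hg : FP g) (hh : FP h) :
    FP fun a => Helper22.padok (f a) (g a) (h a) := by
  unfold Helper22.padok
  fun_prop

/-- an NP verifier has a code -/
theorem exists_verifier_code {A : DecisionProblem} (hA : A ∈ NP) : ∃ (j : List Bool) (e : ℕ),
    (∀ x w, (fj j (cd x w)).headD false = true → A x = true) ∧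
    ∀ x, A x = true → ∃ w : List Bool, w.length ≤ x.length ^ e + e ∧
      (cd x w).length ^ (cs j).length ≤ x.length ^ e + e ∧
      (fj j (cd x w)).headD false = true := by
  obtain ⟨p, R, hR, h⟩ := hA
  have h1 := (isPolyTime_iff _).1 hR
  have h2 : FP fun y : List Bool => [wL R p (cf y, cs y)] :=
    FP.cons ((wL_FP h1 p).comp (by fun_prop)) (FP.const [])
  obtain ⟨j, hj⟩ := exists_fj h2
  have hpb : PB fun n => p.eval n + (2 * n + 1 + p.eval n) ^ (cs j).length := by
    have e1 : PB fun n => p.eval n := PB.poly p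
    have e2 : PB fun n => 2 * n + 1 + p.eval n := by fun_prop
    exact e1.add (e2.pow _)
  obtain ⟨q, hq⟩ := exists_poly hpb
  obtain ⟨e, he⟩ := poly_le_pow q
  refine ⟨j, e, fun x w hw => ?_, fun x hx => ?_⟩
  · rw [hj, cf_cd, cs_cd, List.headD_cons, wL_iff] at hw
    exact (h x).2 ⟨w, hw⟩
  · obtain ⟨w, hw, hR⟩ := (h x).1 hx
    have h3 := (hq x.length).trans (he _)
    have h4 : (cd x w).length ^ (cs j).length ≤
        (2 * x.length + 1 + p.eval x.length) ^ (cs j).length :=
      Nat.pow_le_pow_left (by rw [cd_length]; omega) _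
    refine ⟨w, by omega, by omega, ?_⟩
    rw [hj, cf_cd, cs_cd, List.headD_cons, wL_iff]
    exact ⟨hw, hR⟩

/-- `v` codes two verifiers and an exponent presenting the language `A` -/
def Presents (A : DecisionProblem) (v : List Bool) : Prop :=
  (∀ x w, (fj (cf v) (cd x w)).headD false = true → A x = true) ∧
  (∀ x w, (fj (cf (cs v)) (cd x w)).headD false = true → ¬ A x = true) ∧
  (∀ x, A x = true → ∃ w : List Bool,
    w.length ≤ x.length ^ (cs (cs v)).length + (cs (cs v)).length ∧
    (cd x w).length ^ (cs (cf v)).length ≤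
      x.length ^ (cs (cs v)).length + (cs (cs v)).length ∧
    (fj (cf v) (cd x w)).headD false = true) ∧
  ∀ x, ¬ A x = true → ∃ w : List Bool,
    w.length ≤ x.length ^ (cs (cs v)).length + (cs (cs v)).length ∧
    (cd x w).length ^ (cs (cf (cs v))).length ≤
      x.length ^ (cs (cs v)).length + (cs (cs v)).length ∧
    (fj (cf (cs v)) (cd x w)).headD false = true

theorem exists_presents {A : DecisionProblem} (hA : A ∈ NP ∩ coNP) : ∃ v, Presents A v := by
  obtain ⟨j₁, e₁, h₁, h₁'⟩ := exists_verifier_code hA.1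
  obtain ⟨j₀, e₀, h₀, h₀'⟩ := exists_verifier_code hA.2
  refine ⟨cd j₁ (cd j₀ (un (e₁ + e₀))), ?_⟩
  simp only [Presents, cf_cd, cs_cd, un_length]
  refine ⟨h₁, fun x w hw => (compl_true A x).1 (h₀ x w hw), fun x hx => ?_, fun x hx => ?_⟩
  · obtain ⟨w, hw, hw', hw''⟩ := h₁' x hx
    have h := pow_add_le_pow_add x.length (show e₁ ≤ e₁ + e₀ by omega)
    exact ⟨w, hw.trans h, hw'.trans h, hw''⟩
  · obtain ⟨w, hw, hw', hw''⟩ := h₀' x ((compl_true A x).2 hx)
    have h := pow_add_le_pow_add x.length (show e₀ ≤ e₁ + e₀ by omega)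
    exact ⟨w, hw.trans h, hw'.trans h, hw''⟩

/-! ## The language -/

/-- the index in the instance `z` -/
def ix (z : List Bool) : List Bool := cf (enumU (cf z))

/-- positive answers: the tag is in the oracle, the clock is long enough, and the first verifier
accepts -/
def yesM : OracleProc (List Bool × List Bool) Bool where
  clock := fun _ => [true]
  query := fun a => cf a.1.1
  out := fun a => a.2.headD false && (padok (cs (cs (ix a.1.1))) (cf (cs a.1.1)) (cs (cs a.1.1)) &&
    chk (cf (ix a.1.1)) (cf (cs a.1.1)) a.1.2 (cs (cs a.1.1)))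
  clock_poly := (isPolyTime_iff _).2 (FP.const _)
  query_poly := (isPolyTime_iff _).2 (by fun_prop)
  out_poly := (isPolyTime_iff _).2 (by
    have h1 : FP fun a : (List Bool × List Bool) × List Bool => a.2.headD false :=
      FP.headD FP.snd _
    unfold ix
    fun_prop)

/-- negative answers -/
def noM : OracleProc (List Bool × List Bool) Bool where
  clock := fun _ => [true]
  query := fun a => cf a.1.1
  out := fun a => (!(a.2.headD false)) ||
    ((!(padok (cs (cs (ix a.1.1))) (cf (cs a.1.1)) (cs (cs a.1.1)))) ||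
    chk (cf (cs (ix a.1.1))) (cf (cs a.1.1)) a.1.2 (cs (cs a.1.1)))
  clock_poly := (isPolyTime_iff _).2 (FP.const _)
  query_poly := (isPolyTime_iff _).2 (by fun_prop)
  out_poly := (isPolyTime_iff _).2 (by
    have h1 : FP fun a : (List Bool × List Bool) × List Bool => a.2.headD false :=
      FP.headD FP.snd _
    unfold ix
    fun_prop)

theorem yesM_run (T : Oracle) (z w : List Bool) : yesM.run T (z, w) = (T (cf z) &&
    (padok (cs (cs (ix z))) (cf (cs z)) (cs (cs z)) &&
      chk (cf (ix z)) (cf (cs z)) w (cs (cs z)))) := rfl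

theorem noM_run (T : Oracle) (z w : List Bool) : noM.run T (z, w) = ((!(T (cf z))) ||
    ((!(padok (cs (cs (ix z))) (cf (cs z)) (cs (cs z)))) ||
      chk (cf (cs (ix z))) (cf (cs z)) w (cs (cs z)))) := rfl

theorem tally_hard (A : ℕ → DecisionProblem) (v : ℕ → List Bool) (m : ℕ → ℕ)
    (hv : ∀ i, Presents (A i) (v i)) (hm : ∀ i, ∃ k, enum (m i) = cd (v i) (un k)) (T : Oracle)
    (hT : ∀ q, T q = true ↔ ∃ i, q = un (m i)) :
    ∃ L ∈ NPo T ∩ coNPo T, ∀ i, ManyOneReducible (A i) L := by
  have hix : ∀ i z, cf z = un (m i) → ix z = v i := by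
    intro i z hz
    obtain ⟨k, hk⟩ := hm i
    rw [ix, hz, enumU_eq, un_length, hk, cf_cd]
  have hYes : ∀ i z, cf z = un (m i) →
      (cf (cs z)).length ^ (cs (cs (v i))).length + (cs (cs (v i))).length ≤ (cs (cs z)).length →
      (Accepts yesM Polynomial.X T z ↔ A i (cf (cs z)) = true) := by
    intro i z hz hpad
    have h1 : T (cf z) = true := (hT _).2 ⟨i, hz⟩
    have h2 : padok (cs (cs (v i))) (cf (cs z)) (cs (cs z)) = true := (padok_iff _ _ _).2 hpad
    have h3 := hix i z hz
    simp only [Accepts, yesM_run, h1, h3, h2, Bool.true_and, chk_iff, Polynomial.eval_X]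
    constructor
    · rintro ⟨w, _, _, _, hw⟩
      exact (hv i).1 _ _ hw
    · intro hA
      obtain ⟨w, hw, hw', hw''⟩ := (hv i).2.2.1 _ hA
      refine ⟨w, ?_, hw.trans hpad, hw'.trans hpad, hw''⟩
      exact (hw.trans hpad).trans ((cs_length _).trans (cs_length _))
  have hNo : ∀ i z, cf z = un (m i) →
      (cf (cs z)).length ^ (cs (cs (v i))).length + (cs (cs (v i))).length ≤ (cs (cs z)).length →
      (Accepts noM Polynomial.X T z ↔ ¬ A i (cf (cs z)) = true) := by
    intro i z hz hpad
    have h1 : T (cf z) = true := (hT _).2 ⟨i, hz⟩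
    have h2 : padok (cs (cs (v i))) (cf (cs z)) (cs (cs z)) = true := (padok_iff _ _ _).2 hpad
    have h3 := hix i z hz
    simp only [Accepts, noM_run, h1, h3, h2, Bool.not_true, Bool.false_or, chk_iff,
      Polynomial.eval_X]
    constructor
    · rintro ⟨w, _, _, _, hw⟩
      exact (hv i).2.1 _ _ hw
    · intro hA
      obtain ⟨w, hw, hw', hw''⟩ := (hv i).2.2.2 _ hA
      refine ⟨w, ?_, hw.trans hpad, hw'.trans hpad, hw''⟩
      exact (hw.trans hpad).trans ((cs_length _).trans (cs_length _))
  have hcompl : ∀ z, Accepts yesM Polynomial.X T z ↔ ¬ Accepts noM Polynomial.X T z := by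
    intro z
    by_cases h1 : T (cf z) = true
    · obtain ⟨i, hi⟩ := (hT _).1 h1
      by_cases h2 : (cf (cs z)).length ^ (cs (cs (v i))).length + (cs (cs (v i))).length ≤
          (cs (cs z)).length
      · rw [hYes i z hi h2, hNo i z hi h2, not_not]
      · have h3 : padok (cs (cs (ix z))) (cf (cs z)) (cs (cs z)) = false := by
          rw [Bool.eq_false_iff, Ne, hix i z hi, padok_iff]; exact h2
        constructor
        · rintro ⟨w, _, hw⟩
          rw [yesM_run, h3] at hw
          simp at hw
        · intro h4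
          exact absurd ⟨[], by simp, by rw [noM_run, h3]; simp⟩ h4
    · rw [Bool.not_eq_true] at h1
      constructor
      · rintro ⟨w, _, hw⟩
        rw [yesM_run, h1] at hw
        simp at hw
      · intro h4
        exact absurd ⟨[], by simp, by rw [noM_run, h1]; simp⟩ h4
  classical
  refine ⟨fun z => decide (Accepts yesM Polynomial.X T z), ⟨⟨Polynomial.X, yesM, fun z => by simp⟩,
    ⟨Polynomial.X, noM, fun z => ?_⟩⟩, fun i => ?_⟩
  · rw [compl_true, decide_eq_true_eq, hcompl z, not_not]
  · have h1 : FP fun x : List Bool =>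
        un ((Polynomial.X ^ (cs (cs (v i))).length + Polynomial.C (cs (cs (v i))).length :
          Polynomial ℕ).eval x.length) := FP.un_poly (by fun_prop) _
    refine ⟨fun x => cd (un (m i)) (cd x (un ((Polynomial.X ^ (cs (cs (v i))).length +
      Polynomial.C (cs (cs (v i))).length : Polynomial ℕ).eval x.length))),
      (isPolyTime_iff _).2 (by fun_prop), fun x => ?_⟩
    rw [Bool.eq_iff_iff, decide_eq_true_eq, hYes i _ (cf_cd _ _) (by simp), cs_cd, cf_cd]

theorem countable_inter : (NP ∩ coNP : DecisionComplexityClass).Countable := by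
  have h1 : Countable {g : List Bool × List Bool → Bool | FP g} :=
    (countable_FP (List Bool × List Bool) Bool).to_subtype
  classical
  let F : Polynomial ℕ × {g : List Bool × List Bool → Bool | FP g} → DecisionProblem := fun c x =>
    decide (∃ w : List Bool, w.length ≤ c.1.eval x.length ∧ c.2.1 (x, w) = true)
  refine (Set.countable_range F).mono ?_
  rintro L ⟨⟨p, R, hR, h⟩, -⟩
  refine ⟨(p, ⟨R, (isPolyTime_iff _).1 hR⟩), ?_⟩
  funext x
  rw [Bool.eq_iff_iff, h x]
  simp [F]

/-- A tally oracle: all its words consist of `true`s. -/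
theorem sparse_tally (s : ℕ → ℕ) : ∃ T : Oracle, (∀ u, T u = true → u = un u.length) ∧
    (∀ u v, T u = true → T v = true → u.length < v.length → s u.length < v.length) ∧
    ∃ L ∈ NPo T ∩ coNPo T, ∀ A ∈ NP ∩ coNP, ManyOneReducible A L := by
  have hne : (NP ∩ coNP : DecisionComplexityClass).Nonempty := by
    refine ⟨fun _ => true, ⟨0, fun _ => true, (isPolyTime_iff _).2 (FP.const _), fun x => ?_⟩,
      ⟨0, fun _ => false, (isPolyTime_iff _).2 (FP.const _), fun x => ?_⟩⟩
    · simp
    · simp
  obtain ⟨A, hA⟩ := countable_inter.exists_eq_range hne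
  have hAi : ∀ i, A i ∈ NP ∩ coNP := fun i => hA ▸ Set.mem_range_self i
  choose v hv using fun i => exists_presents (hAi i)
  choose pk hpk hpk' using exists_index
  let m : ℕ → ℕ := fun i => Nat.rec (pk (v 0) 0) (fun i r => pk (v (i + 1)) (max (s r) r)) i
  have hm0 : m 0 = pk (v 0) 0 := rfl
  have hms : ∀ i, m (i + 1) = pk (v (i + 1)) (max (s (m i)) (m i)) := fun i => rfl
  have hlt : ∀ i, max (s (m i)) (m i) < m (i + 1) := fun i => by
    rw [hms]; exact hpk _ _
  have hmono : StrictMono m := strictMono_nat_of_lt_succ fun i =>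
    (le_max_right _ _).trans_lt (hlt i)
  have hcode : ∀ i, ∃ k, enum (m i) = cd (v i) (un k) := by
    intro i
    cases i with
    | zero => exact hpk' _ _
    | succ i => exact hpk' _ _
  classical
  let T : Oracle := fun q => decide (∃ i, q = un (m i))
  have hT : ∀ q, T q = true ↔ ∃ i, q = un (m i) := fun q => by simp [T]
  refine ⟨T, fun u hu => ?_, fun u w hu hw huw => ?_, ?_⟩
  · obtain ⟨i, rfl⟩ := (hT u).1 hu
    simp
  · obtain ⟨i, rfl⟩ := (hT u).1 hu
    obtain ⟨j, rfl⟩ := (hT w).1 hw
    rw [un_length, un_length] at *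
    have hij : i + 1 ≤ j := hmono.lt_iff_lt.1 huw
    exact ((le_max_left _ _).trans_lt (hlt i)).trans_le (hmono.monotone hij)
  · obtain ⟨L, hL, h⟩ := tally_hard A v m hv hcode T hT
    refine ⟨L, hL, fun B hB => ?_⟩
    rw [hA] at hB
    obtain ⟨i, rfl⟩ := hB
    exact h i

end

end Pool.Agent.Helper22
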