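import Mathlib
import Pool.Prelude.Def_F_458e953d

set_option autoImplicit false

/-!
# Sparse languages, single valued total NP functions, oblivious certificates
-/

namespace Pool.Agent.Helper22

open N68a2faeb N793a5b8e N487b59b3

/-- `S` is sparse: it has at most `c(n)` words of length at most `n`, for a polynomial `c`. -/
def Sparse (S : DecisionProblem) : Prop :=
  ∃ c : Polynomial ℕ, ∀ n, {s : List Bool | S s = true ∧ s.length ≤ n}.ncard ≤ c.eval n

/-- `S` is hard for NP ∩ coNP under polynomial time many-one reductions. -/
def HardForNPcapCoNP (S : DecisionProblem) : Prop := ∀ A ∈ NP ∩ coNP, ManyOneReducible A S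

/-- `h` is a total single valued NP function: its values have polynomial length and its graph is
in NP. -/
def IsNPFunction (h : List Bool → List Bool) : Prop :=
  ∃ (q : Polynomial ℕ) (R : (List Bool × List Bool) × List Bool → Bool), IsPolyTime R ∧
    (∀ x, (h x).length ≤ q.eval x.length) ∧
    ∀ x y, y = h x ↔ ∃ w : List Bool, w.length ≤ q.eval (x.length + y.length) ∧
      R ((x, y), w) = true

/-- There are polynomial time verifiers `V₁` for membership and `V₀` for non-membership in `A`,
sound for all certificates, such that one certificate of polynomial length serves all inputs of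
length `n`. -/
def HasObliviousCertificates (A : DecisionProblem) : Prop :=
  ∃ (p : Polynomial ℕ) (V₁ V₀ : List Bool × List Bool → Bool), IsPolyTime V₁ ∧ IsPolyTime V₀ ∧
    (∀ x w, V₁ (x, w) = true → A x = true) ∧ (∀ x w, V₀ (x, w) = true → A x = false) ∧
    ∀ n, ∃ w : List Bool, w.length ≤ p.eval n ∧
      ∀ x : List Bool, x.length = n → V₁ (x, w) = true ∨ V₀ (x, w) = true

end Pool.Agent.Helper22
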