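import Mathlib
import Pool.Agent.Helper22.OracleTally
import Pool.Agent.Helper22.SparseDefs

set_option autoImplicit false

/-!
# Tools for pruning along sparse sets
-/

namespace Pool.Agent.Helper22

open Turing Function N487b59b3 N68a2faeb N793a5b8e

section

variable {α β γ δ : Type} [N487b59b3 α] [N487b59b3 β] [N487b59b3 γ] [N487b59b3 δ]

/-! ## `takeWhile` -/

/-- one step of the computation of `takeWhile` -/
def twStep (P : γ × β → Bool) (s : γ × (Bool × List β)) (b : β) : γ × (Bool × List β) :=
  (s.1, (s.2.1 && P (s.1, b), if s.2.1 && P (s.1, b) then s.2.2 ++ [b] else s.2.2))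

omit [N487b59b3 β] [N487b59b3 γ] in
theorem twStep_foldl (P : γ × β → Bool) (l : List β) (c : γ) (f : Bool) (acc : List β) :
    l.foldl (twStep P) (c, (f, acc)) =
      (c, (f && l.all fun b => P (c, b), acc ++ if f then l.takeWhile fun b => P (c, b) else [])) := by
  induction l generalizing f acc with
  | nil => simp
  | cons b l ih =>
    rw [List.foldl_cons, twStep, ih]
    cases f
    · simp
    · cases h : P (c, b) <;> simp [h]

theorem FP.takeWhile_ctx [Inhabited β] {P : γ × β → Bool} (hP : FP P) :
    FP fun p : γ × List β => p.2.takeWhile fun b => P (p.1, b) := by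
  have h1 : FP fun p : List β × (γ × (Bool × List β)) => p.1.foldl (twStep P) p.2 := by
    refine FP.foldl (g := twStep P) ?_ (B := fun n => 2 * n) (by fun_prop) ?_
    · have h2 : FP fun p : (γ × (Bool × List β)) × β => P (p.1.1, p.2) := hP.comp (by fun_prop)
      have h3 : FP fun p : (γ × (Bool × List β)) × β => p.1.2.2 ++ [p.2] :=
        FP.append (by fun_prop) (FP.snd.cons (FP.const []))
      unfold twStep
      fun_prop
    · rintro l ⟨c, f, acc⟩
      rw [twStep_foldl]
      have h2 : sz (if f then l.takeWhile fun b => P (c, b) else []) ≤ sz l := by
        cases f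
        · simp
        · simp only [if_true]
          have h3 := (List.takeWhile_prefix (fun b => P (c, b)) (l := l))
          rw [List.prefix_iff_eq_take] at h3
          rw [h3]
          exact sz_take _ _
      simp only [sz_pair, sz_bool, sz_append] at *
      omega
  have h2 := (h1.comp (FP.pair (f := fun p : γ × List β => p.2) (by fun_prop)
    (FP.pair (f := fun p : γ × List β => p.1) (by fun_prop)
      (FP.const (true, ([] : List β)))))).snd'.snd'
  simp only [twStep_foldl, List.nil_append, if_true] at h2
  exact h2

/-! ## Comparison of words -/

/-- the lexicographic order on words of the same length -/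
def ble : List Bool → List Bool → Bool
  | [], _ => true
  | a :: u, b :: v => (!a && b) || ((a == b) && ble u v)
  | _ :: _, [] => false

/-- one step of the comparison -/
def bleStep (s : (Bool × Bool) × List Bool) (a : Bool) : (Bool × Bool) × List Bool :=
  ((s.1.1 || (!(a == s.2.headD false)), if s.1.1 then s.1.2 else !a), s.2.tail)

theorem bleStep_true (u : List Bool) (r : Bool) (v : List Bool) :
    (u.foldl bleStep ((true, r), v)).1 = (true, r) := by
  induction u generalizing v with
  | nil => rfl
  | cons a u ih => rw [List.foldl_cons, bleStep]; simpa using ih _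

/-- the comparison, computed by a fold -/
def lexle (u v : List Bool) : Bool :=
  (!(u.foldl bleStep ((false, true), v)).1.1) || (u.foldl bleStep ((false, true), v)).1.2

theorem lexle_aux (u v : List Bool) (r : Bool) (h : u.length = v.length) :
    ((!(u.foldl bleStep ((false, r), v)).1.1) || (u.foldl bleStep ((false, r), v)).1.2) =
      ble u v := by
  induction u generalizing v r with
  | nil => simp [ble]
  | cons a u ih =>
    cases v with
    | nil => simp at h
    | cons b v =>
      rw [List.length_cons, List.length_cons, Nat.add_right_cancel_iff] at h
      rw [List.foldl_cons]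
      rcases Bool.eq_or_eq_not b a with rfl | rfl
      · have h1 : bleStep ((false, r), b :: v) b = ((false, !b), v) := by simp [bleStep]
        rw [h1, ih v _ h]
        simp [ble]
      · have h1 : bleStep ((false, r), (!a) :: v) a = ((true, !a), v) := by
          cases a <;> simp [bleStep]
        rw [h1, bleStep_true]
        cases a <;> simp [ble]

theorem lexle_eq (u v : List Bool) (h : u.length = v.length) : lexle u v = ble u v :=
  lexle_aux u v true h

@[fun_prop]
theorem FP.lexle {f g : α → List Bool} (hf : FP f) (hg : FP g) :
    FP fun a => Helper22.lexle (f a) (g a) := by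
  have h : FP fun p : List Bool × ((Bool × Bool) × List Bool) => p.1.foldl bleStep p.2 := by
    refine FP.foldl (g := bleStep) ?_ (B := fun n => n) (by fun_prop) ?_
    · have h1 : FP fun p : ((Bool × Bool) × List Bool) × Bool => p.1.2.headD false :=
        FP.headD (by fun_prop) _
      unfold bleStep
      fun_prop
    · intro l a
      have h1 : (l.foldl bleStep a).2.length ≤ a.2.length := by
        induction l generalizing a with
        | nil => rfl
        | cons b l ih =>
          refine (ih _).trans ?_
          simp [bleStep]
      rcases hr : l.foldl bleStep a with ⟨⟨c₁, c₂⟩, d⟩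
      rw [hr] at h1
      obtain ⟨⟨a₁, a₂⟩, a₃⟩ := a
      simp only [sz_pair, sz_bool, sz_bits] at *
      omega
  have h2 := h.comp (hf.pair (FP.pair (FP.const (false, true)) hg))
  exact (h2.fst'.fst'.not).or h2.fst'.snd'

theorem ble_refl (u : List Bool) : ble u u = true := by
  induction u with
  | nil => rfl
  | cons a u ih => simp [ble, ih]

theorem ble_append {u v : List Bool} (h : u.length = v.length) (a b : Bool) (hne : u ≠ v) :
    ble (u ++ [a]) (v ++ [b]) = ble u v := by
  induction u generalizing v with
  | nil =>
    have : v = [] := List.eq_nil_of_length_eq_zero h.symm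
    exact absurd this.symm hne
  | cons x u ih =>
    cases v with
    | nil => simp at h
    | cons y v =>
      rw [List.length_cons, List.length_cons, Nat.add_right_cancel_iff] at h
      rcases Bool.eq_or_eq_not y x with rfl | rfl
      · have hne' : u ≠ v := fun e => hne (by rw [e])
        simp [ble, ih h hne']
      · cases x <;> simp [ble]

theorem ble_append_self (t : List Bool) (a b : Bool) :
    ble (t ++ [a]) (t ++ [b]) = (!a || b) := by
  induction t with
  | nil => cases a <;> cases b <;> rfl
  | cons x t ih => simp [ble, ih]

/-! ## Pruning -/

/-- insertion of a candidate with its image, removing all candidates since the last one with the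
same image -/
def ins (acc : List (List Bool × List Bool)) (e : List Bool × List Bool) :
    List (List Bool × List Bool) := (acc.takeWhile fun e' => !(weq e.2 e'.2)) ++ [e]

@[fun_prop]
theorem FP.ins {f : α → List (List Bool × List Bool)} {g : α → List Bool × List Bool}
    (hf : FP f) (hg : FP g) : FP fun a => Helper22.ins (f a) (g a) := by
  have h1 := FP.takeWhile_ctx (γ := List Bool) (β := List Bool × List Bool)
    (P := fun p => !(Helper22.weq p.1 p.2.2)) (by fun_prop)
  have h2 := h1.comp (FP.pair (f := fun a => (g a).2) (g := f) (by fun_prop) hf)
  exact h2.append (hg.cons (FP.const []))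

theorem sz_ins (acc : List (List Bool × List Bool)) (e : List Bool × List Bool) :
    sz (ins acc e) ≤ sz acc + 2 * sz e + 1 := by
  have h3 := (List.takeWhile_prefix (fun e' : List Bool × List Bool => !(weq e.2 e'.2)) (l := acc))
  rw [List.prefix_iff_eq_take] at h3
  have h4 := sz_take acc (acc.takeWhile fun e' => !(weq e.2 e'.2)).length
  rw [← h3] at h4
  rw [ins, sz_append, sz_cons, sz_nil]
  omega

/-- insertion of two candidates -/
def ins2 (acc : List (List Bool × List Bool))
    (e : (List Bool × List Bool) × (List Bool × List Bool)) : List (List Bool × List Bool) :=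
  ins (ins acc e.1) e.2

theorem sz_ins2 (acc : List (List Bool × List Bool))
    (e : (List Bool × List Bool) × (List Bool × List Bool)) :
    sz (ins2 acc e) ≤ sz acc + (2 * sz e + 1) := by
  have h1 := sz_ins acc e.1
  have h2 := sz_ins (ins acc e.1) e.2
  obtain ⟨e1, e2⟩ := e
  rw [ins2]
  simp only [sz_pair] at *
  omega

theorem sz_foldl_ins2 (l : List ((List Bool × List Bool) × (List Bool × List Bool)))
    (acc : List (List Bool × List Bool)) : sz (l.foldl ins2 acc) ≤ sz acc + sz l := by
  induction l generalizing acc with
  | nil => simp
  | cons e l ih =>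
    rw [List.foldl_cons, sz_cons]
    have h1 := ih (ins2 acc e)
    have h2 := sz_ins2 acc e
    omega

theorem foldl_ins2_FP : FP fun p : List ((List Bool × List Bool) × (List Bool × List Bool)) ×
    List (List Bool × List Bool) => p.1.foldl ins2 p.2 := by
  refine FP.foldl (g := ins2) ?_ (B := fun n => n) (by fun_prop) fun l a => ?_
  · unfold ins2
    fun_prop
  · have := sz_foldl_ins2 l a
    omega

end

end Pool.Agent.Helper22
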