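import Mathlib
import Pool.Agent.Helper22.SparseTools

set_option autoImplicit false

/-!
# Pruning the tree of prefixes along a sparse set
-/

namespace Pool.Agent.Helper22

open Turing Function N487b59b3 N68a2faeb N793a5b8e

/-- candidates with images -/
abbrev Cand := List Bool × List Bool

theorem mem_takeWhile_imp {β : Type} {p : β → Bool} {l : List β} {b : β}
    (h : b ∈ l.takeWhile p) : b ∈ l ∧ p b = true := by
  induction l with
  | nil => simp at h
  | cons a l ih =>
    rw [List.takeWhile_cons] at h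
    split at h
    · rcases List.mem_cons.1 h with rfl | h
      · exact ⟨by simp, by assumption⟩
      · exact ⟨List.mem_cons_of_mem _ (ih h).1, (ih h).2⟩
    · simp at h

theorem mem_ins {acc : List Cand} {e e' : Cand} (h : e' ∈ ins acc e) :
    e' = e ∨ (e' ∈ acc ∧ e'.2 ≠ e.2) := by
  rw [ins, List.mem_append, List.mem_singleton] at h
  rcases h with h | h
  · obtain ⟨h1, h2⟩ := mem_takeWhile_imp h
    refine Or.inr ⟨h1, fun h3 => ?_⟩
    rw [Bool.not_eq_true', Bool.eq_false_iff, Ne, weq_iff] at h2
    exact h2 h3.symm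
  · exact Or.inl h

theorem mem_foldl_ins {K : List Cand} {acc : List Cand} {e : Cand} (h : e ∈ K.foldl ins acc) :
    e ∈ acc ∨ e ∈ K := by
  induction K generalizing acc with
  | nil => exact Or.inl h
  | cons k K ih =>
    rcases ih h with h | h
    · rcases mem_ins h with rfl | h
      · exact Or.inr (by simp)
      · exact Or.inl h.1
    · exact Or.inr (by simp [h])

theorem nodup_ins {acc : List Cand} {e : Cand} (h : (acc.map Prod.snd).Nodup) :
    ((ins acc e).map Prod.snd).Nodup := by
  rw [ins, List.map_append, List.nodup_append]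
  refine ⟨?_, by simp, ?_⟩
  · refine h.sublist ?_
    exact (List.takeWhile_sublist _).map _
  · intro a ha b hb
    simp only [List.map_cons, List.map_nil, List.mem_singleton] at hb
    subst hb
    obtain ⟨e', he', rfl⟩ := List.mem_map.1 ha
    obtain ⟨-, h2⟩ := mem_takeWhile_imp he'
    rw [Bool.not_eq_true', Bool.eq_false_iff, Ne, weq_iff] at h2
    exact fun h3 => h2 h3.symm

theorem nodup_foldl_ins {K : List Cand} {acc : List Cand} (h : (acc.map Prod.snd).Nodup) :
    ((K.foldl ins acc).map Prod.snd).Nodup := by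
  induction K generalizing acc with
  | nil => exact h
  | cons k K ih => exact ih (nodup_ins h)

/-- the candidate after which the predicate `g` becomes false survives -/
theorem prune_spec (g : Cand → Bool) (K₁ K₂ : List Cand) (e : Cand)
    (h1 : ∀ e' ∈ K₁, g e' = true) (he : g e = true) (h2 : ∀ e' ∈ K₂, g e' = false)
    (hg : ∀ e₁ ∈ K₁ ++ e :: K₂, ∀ e₂ ∈ K₁ ++ e :: K₂, e₁.2 = e₂.2 → g e₁ = g e₂) :
    ∃ R₁ R₂, (K₁ ++ e :: K₂).foldl ins [] = R₁ ++ e :: R₂ ∧ (∀ e' ∈ R₁, e' ∈ K₁) ∧
      (∀ e' ∈ R₂, e' ∈ K₂) := by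
  rw [List.foldl_append, List.foldl_cons]
  set R₁ := (K₁.foldl ins []).takeWhile fun e' => !(weq e.2 e'.2) with hR₁
  have hR₁' : ∀ e' ∈ R₁, e' ∈ K₁ := by
    intro e' he'
    rcases mem_foldl_ins (mem_takeWhile_imp he').1 with h | h
    · simp at h
    · exact h
  have h3 : ins (K₁.foldl ins []) e = R₁ ++ e :: [] := rfl
  rw [h3]
  have key : ∀ (K : List Cand), (∀ e' ∈ K, e' ∈ K₂) → ∀ R : List Cand, (∀ e' ∈ R, e' ∈ K₂) →
      ∃ R₂, K.foldl ins (R₁ ++ e :: R) = R₁ ++ e :: R₂ ∧ ∀ e' ∈ R₂, e' ∈ K₂ := by
    intro K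
    induction K with
    | nil => intro _ R hR; exact ⟨R, rfl, hR⟩
    | cons k K ih =>
      intro hK R hR
      have hk : k ∈ K₂ := hK k (by simp)
      have hne : ∀ e' ∈ R₁ ++ [e], (!(weq k.2 e'.2)) = true := by
        intro e' he'
        rw [Bool.not_eq_true', Bool.eq_false_iff, Ne, weq_iff]
        intro h4
        have h5 : g e' = true := by
          rw [List.mem_append, List.mem_singleton] at he'
          rcases he' with h | rfl
          · exact h1 e' (hR₁' e' h)
          · exact he
        have h6 : e' ∈ K₁ ++ e :: K₂ := by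
          rw [List.mem_append, List.mem_singleton] at he'
          rcases he' with h | rfl
          · exact List.mem_append_left _ (hR₁' e' h)
          · simp
        have h7 := hg k (by simp [hk]) e' h6 h4
        rw [h2 k hk, h5] at h7
        simp at h7
      have h8 : ins (R₁ ++ e :: R) k = R₁ ++ e :: ((R.takeWhile fun e' => !(weq k.2 e'.2)) ++ [k]) := by
        have h9 : R₁ ++ e :: R = (R₁ ++ [e]) ++ R := by simp
        rw [ins, h9, List.takeWhile_append_of_pos hne]
        simp
      rw [List.foldl_cons, h8]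
      refine ih (fun e' he' => hK e' (by simp [he'])) _ ?_
      intro e' he'
      rw [List.mem_append, List.mem_singleton] at he'
      rcases he' with h | rfl
      · exact hR e' (mem_takeWhile_imp h).1
      · exact hk
  obtain ⟨R₂, hR₂, hR₂'⟩ := key K₂ (fun _ h => h) [] (by simp)
  exact ⟨R₁, R₂, hR₂, hR₁', hR₂'⟩

/-! ## One level -/

/-- the two children of a prefix with their images -/
def kids (f : List Bool → List Bool) (c : (List Bool × List Bool) × List Bool) : Cand × Cand :=
  ((c.2 ++ [false], f (cd c.1.1 (c.2 ++ [false]))), (c.2 ++ [true], f (cd c.1.1 (c.2 ++ [true]))))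

/-- from the prefixes of one level to those of the next -/
def levelStep (f : List Bool → List Bool) (s : (List Bool × List Bool) × List (List Bool)) :
    (List Bool × List Bool) × List (List Bool) :=
  (s.1, (((s.2.map fun u => kids f (s.1, u)).foldl ins2 []).take s.1.2.length).map Prod.fst)

theorem foldl_ins2_eq (l : List (Cand × Cand)) (acc : List Cand) :
    l.foldl ins2 acc = (l.flatMap fun p => [p.1, p.2]).foldl ins acc := by
  induction l generalizing acc with
  | nil => rfl
  | cons p l ih => rw [List.foldl_cons, ih, List.flatMap_cons, List.foldl_append]; rfl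

theorem levelStep_FP {f : List Bool → List Bool} (hf : FP f) : FP (levelStep f) := by
  have h1 : FP (kids f) := by
    have e1 : FP fun c : (List Bool × List Bool) × List Bool => c.2 ++ [false] := by fun_prop
    have e2 : FP fun c : (List Bool × List Bool) × List Bool => c.2 ++ [true] := by fun_prop
    have e3 : FP fun c : (List Bool × List Bool) × List Bool => f (cd c.1.1 (c.2 ++ [false])) :=
      hf.comp (by fun_prop)
    have e4 : FP fun c : (List Bool × List Bool) × List Bool => f (cd c.1.1 (c.2 ++ [true])) :=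
      hf.comp (by fun_prop)
    exact (e1.pair e3).pair (e2.pair e4)
  have h2 := FP.map_ctx (γ := List Bool × List Bool) (β := List Bool) h1
  have h3 := foldl_ins2_FP.comp (h2.pair (FP.const ([] : List Cand)))
  have h4 : FP fun s : (List Bool × List Bool) × List (List Bool) =>
      (((s.2.map fun u => kids f (s.1, u)).foldl ins2 []).take s.1.2.length) :=
    FP.take h3 (by fun_prop)
  have h5 := FP.map (f := fun p : Cand => p.1) (by fun_prop) h4
  exact FP.fst.pair h5

theorem levelStep_mem {f : List Bool → List Bool} {s : (List Bool × List Bool) × List (List Bool)}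
    {u : List Bool} (h : u ∈ (levelStep f s).2) : ∃ v ∈ s.2, ∃ b, u = v ++ [b] := by
  simp only [levelStep, List.mem_map] at h
  obtain ⟨e, he, rfl⟩ := h
  have h1 := List.mem_of_mem_take he
  rw [foldl_ins2_eq] at h1
  rcases mem_foldl_ins h1 with h | h
  · simp at h
  · simp only [List.mem_flatMap, List.mem_map, List.mem_cons, List.not_mem_nil, or_false] at h
    obtain ⟨p, ⟨v, hv, rfl⟩, rfl | rfl⟩ := h
    · exact ⟨v, hv, false, rfl⟩
    · exact ⟨v, hv, true, rfl⟩

theorem sz_words_le (l : List (List Bool)) (C : ℕ) (h : ∀ u ∈ l, u.length ≤ C) :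
    sz l ≤ l.length * (6 * C + 1) := by
  have h1 := sz_map_le (fun u : List Bool => u) l (3 * C) (fun u hu => by
    have := h u hu
    simp only [sz_bits]; omega)
  rw [List.map_id'] at h1
  have h2 : 2 * (3 * C) + 1 = 6 * C + 1 := by ring
  rw [h2] at h1
  exact h1

theorem levelStep_iter_FP {f : List Bool → List Bool} (hf : FP f) :
    FP fun p : List Bool × ((List Bool × List Bool) × List (List Bool)) =>
      (levelStep f)^[p.1.length] p.2 := by
  refine FP.iterate (f := levelStep f) (levelStep_FP hf)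
    (B := fun n => 2 * n + 1 + 2 * n * (6 * (2 * n) + 1)) (by fun_prop) ?_
  intro l a i hi
  have key : ∀ i, ((levelStep f)^[i] a).1 = a.1 ∧
      (∀ u ∈ ((levelStep f)^[i] a).2, u.length ≤ sz a.2 + i) ∧
      ((levelStep f)^[i] a).2.length ≤ a.2.length + a.1.2.length := by
    intro i
    induction i with
    | zero =>
      refine ⟨rfl, fun u hu => ?_, by simp⟩
      have h1 := sz_mem_le (b := u) (l := a.2) hu
      simp only [sz_bits] at h1
      omega
    | succ i ih =>
      rw [Function.iterate_succ_apply']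
      obtain ⟨h1, h2, h3⟩ := ih
      refine ⟨h1, fun u hu => ?_, ?_⟩
      · obtain ⟨v, hv, b, rfl⟩ := levelStep_mem hu
        have := h2 v hv
        rw [List.length_append, List.length_singleton]
        omega
      · simp only [levelStep, List.length_map, List.length_take, h1]
        omega
  obtain ⟨h1, h2, h3⟩ := key i
  rcases hr : (levelStep f)^[i] a with ⟨c, o⟩
  rw [hr] at h1 h2 h3
  obtain ⟨a1, a2⟩ := a
  simp only at h1 h2 h3
  subst h1
  have h4 := sz_words_le o (sz a2 + i) h2
  have h5 := length_le_sz a2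
  have h6 : c.2.length ≤ sz c := by
    obtain ⟨c1, c2⟩ := c
    simp only [sz_pair, sz_bits]
    omega
  simp only [sz_pair, sz_bits] at *
  set n := 3 * l.length + (2 * sz c + 1 + sz a2) with hn
  have h7 : o.length ≤ 2 * n := by omega
  have h8 : 6 * (sz a2 + i) + 1 ≤ 6 * (2 * n) + 1 := by omega
  have h9 := Nat.mul_le_mul h7 h8
  omega

/-- `t` occurs in `l`, and the other words are smaller before and larger after it -/
def Split (t : List Bool) (l : List (List Bool)) : Prop :=
  (∃ l₁ l₂, l = l₁ ++ t :: l₂ ∧ (∀ u ∈ l₁, ble u t = true ∧ u ≠ t) ∧ ∀ u ∈ l₂, ble u t = false) ∧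
    ∀ u ∈ l, u.length = t.length

theorem ncard_bound {S : DecisionProblem} {c : Polynomial ℕ}
    (hS : ∀ n, {s : List Bool | S s = true ∧ s.length ≤ n}.ncard ≤ c.eval n) {N : ℕ}
    {R : List (List Bool)} (hnd : R.Nodup) (h : ∀ s ∈ R, S s = true ∧ s.length ≤ N) :
    R.length ≤ c.eval N := by
  classical
  have hfin : {s : List Bool | S s = true ∧ s.length ≤ N}.Finite :=
    (List.finite_length_le Bool N).subset fun s hs => hs.2
  have h1 : (R.toFinset : Set (List Bool)) ⊆ {s : List Bool | S s = true ∧ s.length ≤ N} := by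
    intro s hs
    rw [Finset.mem_coe, List.mem_toFinset] at hs
    exact h s hs
  have h2 := Set.ncard_le_ncard h1 hfin
  rw [Set.ncard_coe_finset, List.toFinset_card_of_nodup hnd] at h2
  exact h2.trans (hS N)

/-- The target survives one level. -/
theorem levelStep_split {S : DecisionProblem} {c : Polynomial ℕ}
    (hS : ∀ n, {s : List Bool | S s = true ∧ s.length ≤ n}.ncard ≤ c.eval n)
    {f : List Bool → List Bool} {x Cw T : List Bool} {N ℓ : ℕ} (hℓ : ℓ < T.length)
    (hf : ∀ u : List Bool, u.length ≤ T.length → S (f (cd x u)) = ble u (T.take u.length))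
    (hN : ∀ u : List Bool, u.length ≤ T.length → (f (cd x u)).length ≤ N)
    (hC : c.eval N ≤ Cw.length) {l : List (List Bool)} (hl : Split (T.take ℓ) l) :
    Split (T.take (ℓ + 1)) (levelStep f ((x, Cw), l)).2 := by
  obtain ⟨⟨l₁, l₂, rfl, h1, h2⟩, hlen⟩ := hl
  set t := T.take ℓ with ht
  have htlen : t.length = ℓ := by rw [ht, List.length_take]; omega
  obtain ⟨b, hb⟩ : ∃ b, T.take (ℓ + 1) = t ++ [b] :=
    ⟨T[ℓ], (List.take_append_getElem hℓ).symm⟩
  rw [hb]
  -- the children
  set kd : List Bool → List Cand := fun u =>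
    [(u ++ [false], f (cd x (u ++ [false]))), (u ++ [true], f (cd x (u ++ [true])))] with hkd
  have hK : ((l₁ ++ t :: l₂).map fun u => kids f ((x, Cw), u)).flatMap (fun p => [p.1, p.2]) =
      l₁.flatMap kd ++ (kd t ++ l₂.flatMap kd) := by
    rw [List.flatMap_map, List.flatMap_append, List.flatMap_cons]
    rfl
  set e : Cand := (t ++ [b], f (cd x (t ++ [b]))) with he
  obtain ⟨K₁, K₂, hK', hK₁, hK₂⟩ : ∃ K₁ K₂ : List Cand,
      l₁.flatMap kd ++ (kd t ++ l₂.flatMap kd) = K₁ ++ e :: K₂ ∧
      (∀ e' ∈ K₁, ble e'.1 (t ++ [b]) = true ∧ e'.1 ≠ t ++ [b]) ∧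
      (∀ e' ∈ K₂, ble e'.1 (t ++ [b]) = false) := by
    have g1 : ∀ e' ∈ l₁.flatMap kd, ble e'.1 (t ++ [b]) = true ∧ e'.1 ≠ t ++ [b] := by
      intro e' he'
      rw [List.mem_flatMap] at he'
      obtain ⟨u, hu, hu'⟩ := he'
      have h3 := h1 u hu
      have h4 := hlen u (by simp [hu])
      simp only [hkd, List.mem_cons, List.not_mem_nil, or_false] at hu'
      rcases hu' with rfl | rfl
      · refine ⟨by rw [ble_append h4 _ _ h3.2]; exact h3.1, fun h5 => h3.2 ?_⟩
        exact (List.append_inj h5 h4).1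
      · refine ⟨by rw [ble_append h4 _ _ h3.2]; exact h3.1, fun h5 => h3.2 ?_⟩
        exact (List.append_inj h5 h4).1
    have g2 : ∀ e' ∈ l₂.flatMap kd, ble e'.1 (t ++ [b]) = false := by
      intro e' he'
      rw [List.mem_flatMap] at he'
      obtain ⟨u, hu, hu'⟩ := he'
      have h3 := h2 u hu
      have h4 := hlen u (by simp [hu])
      have h5 : u ≠ t := by
        rintro rfl
        rw [ble_refl] at h3
        simp at h3
      simp only [hkd, List.mem_cons, List.not_mem_nil, or_false] at hu'
      rcases hu' with rfl | rfl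
      · rw [ble_append h4 _ _ h5]; exact h3
      · rw [ble_append h4 _ _ h5]; exact h3
    cases b with
    | false =>
      refine ⟨l₁.flatMap kd, (t ++ [true], f (cd x (t ++ [true]))) :: l₂.flatMap kd, ?_, g1, ?_⟩
      · simp [hkd, he]
      · intro e' he'
        rcases List.mem_cons.1 he' with rfl | h
        · simp [ble_append_self]
        · exact g2 e' h
    | true =>
      refine ⟨l₁.flatMap kd ++ [(t ++ [false], f (cd x (t ++ [false])))], l₂.flatMap kd, ?_, ?_, g2⟩
      · simp [hkd, he]
      · intro e' he'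
        rw [List.mem_append, List.mem_singleton] at he'
        rcases he' with h | rfl
        · exact g1 e' h
        · refine ⟨by simp [ble_append_self], fun h5 => ?_⟩
          simp at h5
  -- lengths and images of the candidates
  have hall : ∀ e' ∈ K₁ ++ e :: K₂, e'.1.length = ℓ + 1 ∧ e'.2 = f (cd x e'.1) := by
    intro e' he'
    rw [← hK', ← hK, List.mem_flatMap] at he'
    obtain ⟨p, hp, hp'⟩ := he'
    obtain ⟨u, hu, rfl⟩ := List.mem_map.1 hp
    have h4 := hlen u hu
    simp only [kids, List.mem_cons, List.not_mem_nil, or_false] at hp'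
    rcases hp' with rfl | rfl
    · simp [h4, htlen]
    · simp [h4, htlen]
  have hval : ∀ e' ∈ K₁ ++ e :: K₂, S e'.2 = ble e'.1 (t ++ [b]) ∧ e'.2.length ≤ N := by
    intro e' he'
    obtain ⟨h3, h4⟩ := hall e' he'
    rw [h4, hf _ (by omega), h3, hb]
    exact ⟨rfl, hN _ (by omega)⟩
  obtain ⟨R₁, R₂, hR, hR₁, hR₂⟩ := prune_spec (fun e' => ble e'.1 (t ++ [b])) K₁ K₂ e
    (fun e' h => (hK₁ e' h).1) (by simp [he, ble_refl]) hK₂ (by
      intro e₁ he₁ e₂ he₂ h
      rw [← (hval e₁ he₁).1, ← (hval e₂ he₂).1, h])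
  have hnd : ((R₁ ++ e :: R₂).map Prod.snd).Nodup := by
    rw [← hR]
    exact nodup_foldl_ins (by simp)
  -- the target is among the first ones
  have hcount : R₁.length + 1 ≤ Cw.length := by
    have h3 : ((R₁ ++ [e]).map Prod.snd).Nodup := by
      refine hnd.sublist (List.Sublist.map _ ?_)
      exact List.Sublist.append_left (by simp) _
    have h4 := ncard_bound hS (N := N) h3 (by
      intro s hs
      obtain ⟨e', he', rfl⟩ := List.mem_map.1 hs
      have h5 : e' ∈ K₁ ++ e :: K₂ ∧ ble e'.1 (t ++ [b]) = true := by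
        rw [List.mem_append, List.mem_singleton] at he'
        rcases he' with h | rfl
        · exact ⟨by simp [hR₁ e' h], (hK₁ e' (hR₁ e' h)).1⟩
        · exact ⟨by simp, by simp [he, ble_refl]⟩
      rw [(hval e' h5.1).1]
      exact ⟨h5.2, (hval e' h5.1).2⟩)
    simp only [List.map_append, List.length_append, List.length_map, List.length_singleton] at h4
    omega
  have hfin : (levelStep f ((x, Cw), l₁ ++ t :: l₂)).2 = (R₁.map Prod.fst) ++ (t ++ [b]) ::
      ((R₂.take (Cw.length - (R₁.length + 1))).map Prod.fst) := by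
    simp only [levelStep]
    rw [foldl_ins2_eq, hK, hK', hR]
    have h3 : R₁ ++ e :: R₂ = (R₁ ++ [e]) ++ R₂ := by simp
    rw [h3, List.take_append]
    have h4 : (R₁ ++ [e]).take Cw.length = R₁ ++ [e] := by
      refine List.take_of_length_le ?_
      simp only [List.length_append, List.length_singleton]
      omega
    rw [h4]
    simp [he]
  rw [hfin]
  refine ⟨⟨_, _, rfl, ?_, ?_⟩, ?_⟩
  · intro u hu
    obtain ⟨e', he', rfl⟩ := List.mem_map.1 hu
    exact hK₁ e' (hR₁ e' he')
  · intro u hu
    obtain ⟨e', he', rfl⟩ := List.mem_map.1 hu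
    exact hK₂ e' (hR₂ e' (List.mem_of_mem_take he'))
  · intro u hu
    rw [List.length_append, htlen, List.length_singleton]
    rw [List.mem_append, List.mem_cons] at hu
    rcases hu with h | rfl | h
    · obtain ⟨e', he', rfl⟩ := List.mem_map.1 h
      exact (hall e' (by simp [hR₁ e' he'])).1
    · simp [htlen]
    · obtain ⟨e', he', rfl⟩ := List.mem_map.1 h
      exact (hall e' (by simp [hR₂ e' (List.mem_of_mem_take he')])).1

/-- The target survives all levels. -/
theorem levels_split {S : DecisionProblem} {c : Polynomial ℕ}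
    (hS : ∀ n, {s : List Bool | S s = true ∧ s.length ≤ n}.ncard ≤ c.eval n)
    {f : List Bool → List Bool} {x Cw T : List Bool} {N : ℕ}
    (hf : ∀ u : List Bool, u.length ≤ T.length → S (f (cd x u)) = ble u (T.take u.length))
    (hN : ∀ u : List Bool, u.length ≤ T.length → (f (cd x u)).length ≤ N)
    (hC : c.eval N ≤ Cw.length) :
    T ∈ ((levelStep f)^[T.length] ((x, Cw), [[]])).2 := by
  have key : ∀ ℓ, ℓ ≤ T.length → ((levelStep f)^[ℓ] ((x, Cw), [[]])).1 = (x, Cw) ∧
      Split (T.take ℓ) ((levelStep f)^[ℓ] ((x, Cw), [[]])).2 := by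
    intro ℓ
    induction ℓ with
    | zero =>
      intro _
      refine ⟨rfl, ⟨[], [], by simp, by simp, by simp⟩, by simp⟩
    | succ ℓ ih =>
      intro hℓ
      obtain ⟨h1, h2⟩ := ih (by omega)
      rw [Function.iterate_succ_apply']
      rcases hr : (levelStep f)^[ℓ] ((x, Cw), [[]]) with ⟨a, l⟩
      rw [hr] at h1 h2
      simp only at h1 h2
      subst h1
      exact ⟨rfl, levelStep_split hS (by omega) hf hN hC h2⟩
  obtain ⟨-, ⟨⟨l₁, l₂, h, -⟩, -⟩⟩ := key T.length le_rfl
  rw [h, List.take_length]
  simp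

end Pool.Agent.Helper22
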