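import Mathlib
import Pool.Agent.Helper22.SparsePrune

set_option autoImplicit false

/-!
# Consequences of a sparse language that is hard for NP ∩ coNP
-/

namespace Pool.Agent.Helper22

open Turing Function N487b59b3 N68a2faeb N793a5b8e

section

variable {α β γ δ : Type} [N487b59b3 α] [N487b59b3 β] [N487b59b3 γ] [N487b59b3 δ]

/-- `h x`, padded to length `2 q(|x|) + 1` -/
def padT (q : Polynomial ℕ) (x y : List Bool) : List Bool :=
  cd y ((un (q.eval x.length) ++ un (q.eval x.length)).drop (y ++ y).length)

theorem padT_length (q : Polynomial ℕ) (x y : List Bool) (h : y.length ≤ q.eval x.length) :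
    (padT q x y).length = 2 * q.eval x.length + 1 := by
  rw [padT, cd_length]
  simp only [List.length_drop, List.length_append, un_length]
  omega

theorem padT_FP (q : Polynomial ℕ) {f g : α → List Bool} (hf : FP f) (hg : FP g) :
    FP fun a => padT q (f a) (g a) := by
  have h1 : FP fun a => un (q.eval (f a).length) := FP.un_poly hf _
  unfold padT
  fun_prop

/-- A polynomial time property of an instance and the value of an NP function is in NP. -/
theorem np_of_function {h : List Bool → List Bool} {q : Polynomial ℕ}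
    {R : (List Bool × List Bool) × List Bool → Bool} (hR : FP R)
    (hq : ∀ x, (h x).length ≤ q.eval x.length)
    (hgr : ∀ x y, y = h x ↔ ∃ w : List Bool, w.length ≤ q.eval (x.length + y.length) ∧
      R ((x, y), w) = true)
    {Q : List Bool × List Bool → Bool} (hQ : FP Q) (L : DecisionProblem)
    (hL : ∀ z, L z = Q (z, h (cf z))) : L ∈ NP := by
  have hpb : PB fun n => 2 * q.eval n + 1 + q.eval (n + q.eval n) := by
    have e1 : PB fun n => q.eval n := PB.poly q
    have e2 : PB fun n => n + q.eval n := by fun_prop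
    have e3 : PB fun n => q.eval (n + q.eval n) := e1.comp e2
    fun_prop
  obtain ⟨p, hp⟩ := exists_poly hpb
  refine ⟨p, fun a => wF R q ((cf a.1, cf a.2), cs a.2) && Q (a.1, cf a.2),
    (isPolyTime_iff _).2 ?_, fun z => ?_⟩
  · have e1 : FP fun a : List Bool × List Bool => wF R q ((cf a.1, cf a.2), cs a.2) :=
      (wF_FP hR q).comp (by fun_prop)
    have e2 : FP fun a : List Bool × List Bool => Q (a.1, cf a.2) := hQ.comp (by fun_prop)
    exact e1.and e2
  · simp only [hL, Bool.and_eq_true, wF_iff]
    constructor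
    · intro hz
      obtain ⟨w, hw, hw'⟩ := (hgr (cf z) (h (cf z))).1 rfl
      refine ⟨cd (h (cf z)) w, ?_, ?_⟩
      · have h1 := hq (cf z)
        have h2 := poly_mono q (cf_length_le z)
        have h3 := poly_mono q (show (cf z).length + (h (cf z)).length ≤
          z.length + q.eval z.length by have := cf_length_le z; simp only at h2; omega)
        have h4 := hp z.length
        rw [cd_length]
        simp only at h2 h3
        omega
      · rw [cf_cd, cs_cd]
        exact ⟨⟨hw, hw'⟩, hz⟩
    · rintro ⟨v, _, hv, hz⟩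
      rw [← (hgr (cf z) (cf v)).2 ⟨cs v, hv⟩]
      exact hz

/-- The values of NP functions lie on polynomial time computable lists. -/
theorem list_of_sparse {S : DecisionProblem} (hS : Sparse S) (hard : HardForNPcapCoNP S)
    {h : List Bool → List Bool} (hh : IsNPFunction h) :
    ∃ G : List Bool → List (List Bool), IsPolyTime G ∧ ∀ x, h x ∈ G x := by
  obtain ⟨c, hc⟩ := hS
  obtain ⟨q, R, hR, hq, hgr⟩ := hh
  have hR' := (isPolyTime_iff _).1 hR
  -- the left set
  let Q : List Bool × List Bool → Bool := fun a =>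
    lexle (cs a.1) ((padT q (cf a.1) a.2).take (cs a.1).length)
  have hQ : FP Q := by
    have e1 : FP fun a : List Bool × List Bool => padT q (cf a.1) a.2 :=
      padT_FP q (by fun_prop) (by fun_prop)
    have e2 : FP fun a : List Bool × List Bool => (padT q (cf a.1) a.2).take (cs a.1).length :=
      FP.take e1 (by fun_prop)
    exact FP.lexle (by fun_prop) e2
  let A : DecisionProblem := fun z => Q (z, h (cf z))
  have hA : A ∈ NP ∩ coNP := by
    refine ⟨np_of_function hR' hq hgr hQ A fun _ => rfl, ?_⟩
    refine np_of_function hR' hq hgr (Q := fun a => !(Q a)) hQ.not Aᶜ fun z => ?_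
    simp [A]
  obtain ⟨f, hf, hfr⟩ := hard A hA
  have hf' := (isPolyTime_iff _).1 hf
  obtain ⟨B, hB, hBm, hBle⟩ := hf'.bound
  -- the bound on the images
  let N : ℕ → ℕ := fun n => B (3 * (2 * n + 1 + (2 * q.eval n + 1)))
  have hNle : ∀ x u : List Bool, u.length ≤ 2 * q.eval x.length + 1 →
      (f (cd x u)).length ≤ N x.length := by
    intro x u hu
    have h1 := hBle (cd x u)
    have h2 : sz (cd x u) ≤ 3 * (2 * x.length + 1 + (2 * q.eval x.length + 1)) := by
      rw [sz_bits, cd_length]; omega
    have h3 := hBm h2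
    rw [sz_bits] at h1
    simp only [N]
    omega
  obtain ⟨p, hp⟩ : ∃ p : Polynomial ℕ, ∀ n, c.eval (N n) ≤ p.eval n := by
    have e1 : PB fun n => c.eval n := PB.poly c
    have e2 : PB fun n => q.eval n := PB.poly q
    have e3 : PB fun n => 3 * (2 * n + 1 + (2 * q.eval n + 1)) := by fun_prop
    have e4 : PB N := hB.comp e3
    exact exists_poly (e1.comp e4)
  refine ⟨fun x => ((levelStep f)^[(un ((2 * q + 1 : Polynomial ℕ).eval x.length)).length]
    ((x, un (p.eval x.length)), [[]])).2.map cf, (isPolyTime_iff _).2 ?_, fun x => ?_⟩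
  · have e1 : FP fun x : List Bool => un ((2 * q + 1 : Polynomial ℕ).eval x.length) :=
      FP.un_poly FP.id _
    have e2 : FP fun x : List Bool => un (p.eval x.length) := FP.un_poly FP.id _
    have e3 := (levelStep_iter_FP hf').comp (e1.pair ((FP.id.pair e2).pair
      (FP.const [([] : List Bool)])))
    exact FP.map FP.cf' e3.snd'
  · set T := padT q x (h x) with hT
    have hTl : T.length = 2 * q.eval x.length + 1 := padT_length q x _ (hq x)
    have h1 : (2 * q + 1 : Polynomial ℕ).eval x.length = T.length := by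
      rw [hTl]; simp
    beta_reduce
    rw [h1, un_length]
    have h2 : T ∈ ((levelStep f)^[T.length] ((x, un (p.eval x.length)), [[]])).2 := by
      refine levels_split (S := S) (c := c) (N := N x.length) hc ?_ ?_ ?_
      · intro u hu
        rw [← hfr (cd x u)]
        simp only [A, Q, cf_cd, cs_cd]
        rw [lexle_eq _ _ (by rw [List.length_take, ← hT]; omega)]
      · intro u hu
        exact hNle x u (by omega)
      · rw [un_length]
        exact hp _
    have h3 : cf T = h x := by rw [hT, padT, cf_cd]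
    rw [← h3]
    exact List.mem_map_of_mem h2

theorem first_mem {φ : List Bool → Bool} {y : List Bool} (hφ : ∀ z, φ z = true ↔ z = y)
    (l : List (List Bool)) (h : y ∈ l) (s : Bool × List Bool) (hs : s.1 = false) :
    (first (l.map fun z => (φ z, z)) s).2 = y := by
  induction l generalizing s with
  | nil => simp at h
  | cons z l ih =>
    have e1 : first ((z :: l).map fun z => (φ z, z)) s =
        first (l.map fun z => (φ z, z)) (φ z, z) := by
      simp [first, hs]
    rw [e1]
    by_cases hz : z = y
    · have h1 : φ z = true := (hφ z).2 hz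
      rw [h1, first_true]
      exact hz
    · have h1 : φ z = false := by
        rw [Bool.eq_false_iff, Ne, hφ]; exact hz
      refine ih ?_ _ h1
      rcases List.mem_cons.1 h with rfl | h
      · exact absurd rfl hz
      · exact h

/-- Functions with a polynomial time graph are polynomial time. -/
theorem poly_of_sparse {S : DecisionProblem} (hS : Sparse S) (hard : HardForNPcapCoNP S)
    {h : List Bool → List Bool} (hb : ∃ q : Polynomial ℕ, ∀ x, (h x).length ≤ q.eval x.length)
    {Gr : List Bool × List Bool → Bool} (hGr : IsPolyTime Gr)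
    (hgr : ∀ x y, Gr (x, y) = true ↔ y = h x) : IsPolyTime h := by
  obtain ⟨q, hq⟩ := hb
  have hGr' := (isPolyTime_iff _).1 hGr
  have hh : IsNPFunction h := by
    refine ⟨q, fun a => Gr a.1, (isPolyTime_iff _).2 (hGr'.comp FP.fst), hq, fun x y => ?_⟩
    rw [← hgr]
    constructor
    · intro h1
      exact ⟨[], by simp, h1⟩
    · rintro ⟨w, _, h1⟩
      exact h1
  obtain ⟨G, hG, hmem⟩ := list_of_sparse hS hard hh
  have hG' := (isPolyTime_iff _).1 hG
  have e1 : FP fun x : List Bool => (G x).map fun z => (Gr (x, z), z) := by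
    have e2 := FP.map_ctx (γ := List Bool) (β := List Bool)
      (h := fun a : List Bool × List Bool => (Gr a, a.2)) (hGr'.pair FP.snd)
    exact e2.comp (FP.id.pair hG')
  have e3 := (first_FP.comp (e1.pair (FP.const (false, ([] : List Bool))))).snd'
  have e4 : (fun x => (first ((G x).map fun z => (Gr (x, z), z)) (false, [])).2) = h := by
    funext x
    exact first_mem (hgr x) (G x) (hmem x) _ rfl
  rw [isPolyTime_iff, ← e4]
  exact e3

/-- unique certificates are found in polynomial time -/
theorem up_subset_of_sparse {S : DecisionProblem} (hS : Sparse S) (hard : HardForNPcapCoNP S) :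
    {L | L ∈ UP ∧ Lᶜ ∈ UP} ⊆ P := by
  rintro L ⟨⟨p₁, R₁, hR₁, h₁, u₁⟩, ⟨p₀, R₀, hR₀, h₀, u₀⟩⟩
  have hR₁' := (isPolyTime_iff _).1 hR₁
  have hR₀' := (isPolyTime_iff _).1 hR₀
  have hex : ∀ x, ∃ y : List Bool,
      (y.headD false = true ∧ y.isEmpty = false ∧ wL R₁ p₁ (x, y.tail) = true) ∨
      (y.headD false = false ∧ y.isEmpty = false ∧ wL R₀ p₀ (x, y.tail) = true) := by
    intro x
    by_cases hx : L x = true
    · obtain ⟨w, hw⟩ := (h₁ x).1 hx
      exact ⟨true :: w, Or.inl ⟨rfl, rfl, wL_iff.2 hw⟩⟩
    · obtain ⟨w, hw⟩ := (h₀ x).1 ((compl_true L x).2 hx)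
      exact ⟨false :: w, Or.inr ⟨rfl, rfl, wL_iff.2 hw⟩⟩
  choose h hh using hex
  have hval : ∀ x, L x = (h x).headD false := by
    intro x
    rcases hh x with ⟨e1, _, e3⟩ | ⟨e1, _, e3⟩
    · rw [e1]
      exact (h₁ x).2 ⟨_, wL_iff.1 e3⟩
    · rw [e1]
      have := (compl_true L x).1 ((h₀ x).2 ⟨_, wL_iff.1 e3⟩)
      simpa using this
  have huniq : ∀ x y, ((y.headD false = true ∧ y.isEmpty = false ∧
        wL R₁ p₁ (x, y.tail) = true) ∨
      (y.headD false = false ∧ y.isEmpty = false ∧ wL R₀ p₀ (x, y.tail) = true)) ↔ y = h x := by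
    intro x y
    constructor
    · intro hy
      have key : ∀ y y' : List Bool, y.isEmpty = false → y'.isEmpty = false →
          y.headD false = y'.headD false → y.tail = y'.tail → y = y' := by
        intro y y' a1 a2 a3 a4
        cases y with
        | nil => simp at a1
        | cons b y =>
          cases y' with
          | nil => simp at a2
          | cons b' y' =>
            simp only [List.headD_cons, List.tail_cons] at a3 a4
            rw [a3, a4]
      rcases hy with ⟨a1, a2, a3⟩ | ⟨a1, a2, a3⟩ <;> rcases hh x with ⟨b1, b2, b3⟩ | ⟨b1, b2, b3⟩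
      · refine key _ _ a2 b2 (a1.trans b1.symm) ?_
        exact u₁ x _ _ (wL_iff.1 a3).1 (wL_iff.1 b3).1 (wL_iff.1 a3).2 (wL_iff.1 b3).2
      · exact absurd ((h₁ x).2 ⟨_, wL_iff.1 a3⟩) ((compl_true L x).1 ((h₀ x).2 ⟨_, wL_iff.1 b3⟩))
      · exact absurd ((h₁ x).2 ⟨_, wL_iff.1 b3⟩) ((compl_true L x).1 ((h₀ x).2 ⟨_, wL_iff.1 a3⟩))
      · refine key _ _ a2 b2 (a1.trans b1.symm) ?_
        exact u₀ x _ _ (wL_iff.1 a3).1 (wL_iff.1 b3).1 (wL_iff.1 a3).2 (wL_iff.1 b3).2
    · rintro rfl
      exact hh x
  let Gr : List Bool × List Bool → Bool := fun a =>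
    (a.2.headD false && (!a.2.isEmpty && wL R₁ p₁ (a.1, a.2.tail))) ||
      (!(a.2.headD false) && (!a.2.isEmpty && wL R₀ p₀ (a.1, a.2.tail)))
  have hGr : FP Gr := by
    have e1 : FP fun a : List Bool × List Bool => wL R₁ p₁ (a.1, a.2.tail) :=
      (wL_FP hR₁' p₁).comp (by fun_prop)
    have e2 : FP fun a : List Bool × List Bool => wL R₀ p₀ (a.1, a.2.tail) :=
      (wL_FP hR₀' p₀).comp (by fun_prop)
    have e3 : FP fun a : List Bool × List Bool => a.2.headD false := FP.headD FP.snd _
    fun_prop
  have hGr' : ∀ x y, Gr (x, y) = true ↔ y = h x := by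
    intro x y
    rw [← huniq]
    simp only [Gr, Bool.or_eq_true, Bool.and_eq_true, Bool.not_eq_true']
  have hpoly : IsPolyTime h := by
    refine poly_of_sparse hS hard ⟨p₁ + p₀ + 1, fun x => ?_⟩ ((isPolyTime_iff _).2 hGr) hGr'
    have h1 : ∀ y : List Bool, y.isEmpty = false → y.length = y.tail.length + 1 := by
      intro y hy
      cases y with
      | nil => simp at hy
      | cons b y => simp
    simp only [Polynomial.eval_add, Polynomial.eval_one]
    rcases hh x with ⟨_, b2, b3⟩ | ⟨_, b2, b3⟩
    · have := (wL_iff.1 b3).1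
      rw [h1 _ b2]
      omega
    · have := (wL_iff.1 b3).1
      rw [h1 _ b2]
      omega
  have hL : L = fun x => (h x).headD false := funext hval
  change IsPolyTime L
  rw [hL, isPolyTime_iff]
  exact FP.headD ((isPolyTime_iff _).1 hpoly) _

/-! ## Oblivious certificates -/

theorem lc_length_le (l : List (List Bool)) (C : ℕ) (h : ∀ u ∈ l, u.length ≤ C) :
    (lc l).length ≤ l.length * (2 * C + 1) := by
  induction l with
  | nil => simp [lc]
  | cons a l ih =>
    have h1 := ih fun u hu => h u (by simp [hu])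
    have h2 := h a (by simp)
    rw [lc, cd_length, List.length_cons]
    have h3 : (l.length + 1) * (2 * C + 1) = l.length * (2 * C + 1) + (2 * C + 1) := by ring
    omega

theorem oblivious_of_sparse {S : DecisionProblem} (hS : Sparse S) (hard : HardForNPcapCoNP S)
    (hNP : S ∈ NP) {A : DecisionProblem} (hA : A ∈ NP ∩ coNP) : HasObliviousCertificates A := by
  obtain ⟨c, hc⟩ := hS
  obtain ⟨p, R, hR, hSR⟩ := hNP
  have hR' := (isPolyTime_iff _).1 hR
  have hA' : Aᶜ ∈ NP ∩ coNP := by
    refine ⟨hA.2, ?_⟩
    change Aᶜᶜ ∈ NP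
    rw [compl_compl]
    exact hA.1
  obtain ⟨f₁, hf₁, hr₁⟩ := hard A hA
  obtain ⟨f₀, hf₀, hr₀⟩ := hard Aᶜ hA'
  have hf₁' := (isPolyTime_iff _).1 hf₁
  have hf₀' := (isPolyTime_iff _).1 hf₀
  obtain ⟨B₁, hB₁, hBm₁, hBle₁⟩ := hf₁'.bound
  obtain ⟨B₀, hB₀, hBm₀, hBle₀⟩ := hf₀'.bound
  have hV : ∀ f : List Bool → List Bool, FP f → FP fun a : List Bool × List Bool =>
      (ld a.2).any fun e => weq (f a.1) (cf e) && wL R p (cf e, cs e) := by
    intro f hf
    have e1 : FP fun b : List Bool × List Bool => weq b.1 (cf b.2) && wL R p (cf b.2, cs b.2) := by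
      have e2 : FP fun b : List Bool × List Bool => wL R p (cf b.2, cs b.2) :=
        (wL_FP hR' p).comp (by fun_prop)
      fun_prop
    have e3 := FP.any_ctx (γ := List Bool) (β := List Bool) e1
    have e4 : FP fun a : List Bool × List Bool => f a.1 := hf.comp FP.fst
    exact e3.comp (e4.pair (FP.ld FP.snd))
  have hVS : ∀ (f : List Bool → List Bool) (x w : List Bool),
      ((ld w).any fun e => weq (f x) (cf e) && wL R p (cf e, cs e)) = true → S (f x) = true := by
    intro f x w h
    rw [List.any_eq_true] at h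
    obtain ⟨e, _, he⟩ := h
    rw [Bool.and_eq_true, weq_iff] at he
    rw [he.1]
    exact (hSR _).2 ⟨_, wL_iff.1 he.2⟩
  -- bounds
  let N : ℕ → ℕ := fun n => B₁ (3 * n) + B₀ (3 * n)
  obtain ⟨b, hb⟩ : ∃ b : Polynomial ℕ, ∀ n,
      c.eval (N n) * (2 * (2 * N n + 1 + p.eval (N n)) + 1) ≤ b.eval n := by
    have e1 : PB fun n => c.eval n := PB.poly c
    have e2 : PB fun n => p.eval n := PB.poly p
    have e0 : PB fun n => 3 * n := by fun_prop
    have e3 : PB N := (hB₁.comp e0).add (hB₀.comp e0)
    have e4 : PB fun n => c.eval (N n) := e1.comp e3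
    have e5 : PB fun n => p.eval (N n) := e2.comp e3
    refine exists_poly (PB.mul e4 ?_)
    fun_prop
  refine ⟨b, fun a => (ld a.2).any fun e => weq (f₁ a.1) (cf e) && wL R p (cf e, cs e),
    fun a => (ld a.2).any fun e => weq (f₀ a.1) (cf e) && wL R p (cf e, cs e),
    (isPolyTime_iff _).2 (hV f₁ hf₁'), (isPolyTime_iff _).2 (hV f₀ hf₀'), ?_, ?_, ?_⟩
  · intro x w h
    rw [hr₁ x]
    exact hVS f₁ x w h
  · intro x w h
    have h1 := hVS f₀ x w h
    rw [← hr₀ x] at h1
    simpa using h1
  · intro n
    classical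
    have hfin : {s : List Bool | S s = true ∧ s.length ≤ N n}.Finite :=
      (List.finite_length_le Bool (N n)).subset fun s hs => hs.2
    have hwit : ∀ s : List Bool, ∃ w : List Bool, S s = true → wL R p (s, w) = true := by
      intro s
      by_cases hs : S s = true
      · obtain ⟨w, hw⟩ := (hSR s).1 hs
        exact ⟨w, fun _ => wL_iff.2 hw⟩
      · exact ⟨[], fun h => absurd h hs⟩
    choose v hv using hwit
    set l := hfin.toFinset.toList with hl
    have hmem : ∀ s, s ∈ l ↔ S s = true ∧ s.length ≤ N n := by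
      intro s
      rw [hl, Finset.mem_toList, Set.Finite.mem_toFinset]
      rfl
    have hlen : l.length ≤ c.eval (N n) := by
      rw [hl, Finset.length_toList, ← Set.ncard_eq_toFinset_card _ hfin]
      exact hc _
    refine ⟨lc (l.map fun s => cd s (v s)), ?_, ?_⟩
    · have h1 := lc_length_le (l.map fun s => cd s (v s)) (2 * N n + 1 + p.eval (N n)) (by
        intro u hu
        obtain ⟨s, hs, rfl⟩ := List.mem_map.1 hu
        have h2 := (hmem s).1 hs
        have h3 := (wL_iff.1 (hv s h2.1)).1
        have h4 := poly_mono p h2.2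
        rw [cd_length]
        simp only at h4
        omega)
      rw [List.length_map] at h1
      exact h1.trans ((Nat.mul_le_mul_right _ hlen).trans (hb n))
    · intro x hx
      have key : ∀ f : List Bool → List Bool, S (f x) = true → (f x).length ≤ N n →
          ((ld (lc (l.map fun s => cd s (v s)))).any fun e =>
            weq (f x) (cf e) && wL R p (cf e, cs e)) = true := by
        intro f hs hle
        rw [ld_lc, List.any_eq_true]
        refine ⟨_, List.mem_map_of_mem ((hmem (f x)).2 ⟨hs, hle⟩), ?_⟩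
        rw [cf_cd, cs_cd, Bool.and_eq_true, weq_iff]
        exact ⟨rfl, hv _ hs⟩
      have h1 : (f₁ x).length ≤ N n := by
        have h2 := hBle₁ x
        rw [sz_bits, sz_bits, hx] at h2
        simp only [N]
        omega
      have h0 : (f₀ x).length ≤ N n := by
        have h2 := hBle₀ x
        rw [sz_bits, sz_bits, hx] at h2
        simp only [N]
        omega
      by_cases hAx : A x = true
      · exact Or.inl (key f₁ (by rw [← hr₁ x]; exact hAx) h1)
      · exact Or.inr (key f₀ (by rw [← hr₀ x]; exact (compl_true A x).2 hAx) h0)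

end

end Pool.Agent.Helper22
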